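import Mathlib

-- merged part: Pool.Agent.Work.MP_ffcd14_ag.Tr.L3
section
-- merged part: Pool.Agent.Work.MP_ffcd14_ag.Tr.LD
section
/-!
# The even exterior algebra (constant coefficient forms on a real torus)

`Ex ι` is the exterior algebra of `ℝ^ι × ℝ^ι`, with generators `e n = ι (n, 0)` and
`f n = ι (0, n)`.  `Ev ι` is its even part, a commutative ring.  `bb n n' = e n * f n'`,
`sq n = bb n n`, `om = ∑ sq δ_i`.  `Lam` is the contraction `∑ ∂f_i ∂e_i`, `J` is the transposition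
(`J (bb n n') = bb n' n`), `int` is the integral, normalised by `int (∏ sq δ_i) = 1`.
-/

namespace Pool.Agent.Work.MP_ffcd14_ag.Tr

open ExteriorAlgebra
open scoped ENNReal

/-- The generating space. -/
abbrev VV (ι : Type) : Type := (ι → ℝ) × (ι → ℝ)

/-- The exterior algebra. -/
abbrev Ex (ι : Type) : Type := ExteriorAlgebra ℝ (VV ι)

/-- The even part, as a subalgebra. -/
noncomputable abbrev evn (ι : Type) : Subalgebra ℝ (Ex ι) :=
  CliffordAlgebra.even (0 : QuadraticForm ℝ (VV ι))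

variable {ι ι' ι'' : Type}

theorem evn_ι {x : Ex ι} (hx : x ∈ evn ι) (v : VV ι) : x * ExteriorAlgebra.ι ℝ v =
    ExteriorAlgebra.ι ℝ v * x := by
  have hx' : x ∈ CliffordAlgebra.evenOdd (0 : QuadraticForm ℝ (VV ι)) 0 := hx
  clear hx
  induction x, hx' using CliffordAlgebra.even_induction with
  | algebraMap r => exact Algebra.commutes r _
  | add x y _ _ ihx ihy => rw [add_mul, mul_add, ihx, ihy]
  | ι_mul_ι_mul a b x _ ih =>
    have h (m : VV ι) : CliffordAlgebra.ι (0 : QuadraticForm ℝ (VV ι)) m * ExteriorAlgebra.ι ℝ v =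
        -(ExteriorAlgebra.ι ℝ v * CliffordAlgebra.ι (0 : QuadraticForm ℝ (VV ι)) m) :=
      eq_neg_of_add_eq_zero_left (ExteriorAlgebra.ι_add_mul_swap m v)
    rw [mul_assoc, ih, ← mul_assoc, mul_assoc _ _ (ExteriorAlgebra.ι ℝ v), h, mul_neg, ← mul_assoc,
      h]
    simp only [neg_mul, neg_neg, mul_assoc]

theorem evn_comm {x : Ex ι} (hx : x ∈ evn ι) (y : Ex ι) : x * y = y * x := by
  induction y using ExteriorAlgebra.induction with
  | algebraMap r => exact (Algebra.commutes r x).symm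
  | ι v => exact evn_ι hx v
  | mul a b ha hb => rw [← mul_assoc, ha, mul_assoc, hb, mul_assoc]
  | add a b ha hb => rw [mul_add, add_mul, ha, hb]

/-- The even part. -/
def Ev (ι : Type) : Type := evn ι

/-- The ring structure. -/
@[instance_reducible] noncomputable def Ev.ring : Ring (Ev ι) := inferInstanceAs (Ring (evn ι))

noncomputable instance : CommRing (Ev ι) where
  toRing := Ev.ring
  mul_comm x y := Subtype.ext (evn_comm x.2 y.1)

noncomputable instance : Algebra ℝ (Ev ι) := inferInstanceAs (Algebra ℝ (evn ι))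

/-- The inclusion in the exterior algebra. -/
noncomputable def Ev.val : Ev ι →ₐ[ℝ] Ex ι := (evn ι).val

theorem Ev.mem (x : Ev ι) : Ev.val x ∈ evn ι := x.2

theorem Ev.ext {x y : Ev ι} (h : Ev.val x = Ev.val y) : x = y := Subtype.ext h

/-- An even element. -/
def Ev.mk (x : Ex ι) (h : x ∈ evn ι) : Ev ι := ⟨x, h⟩

@[simp] theorem Ev.val_mk (x : Ex ι) (h : x ∈ evn ι) : Ev.val (Ev.mk x h) = x := rfl

theorem map_evn (τ : VV ι →ₗ[ℝ] VV ι') {x : Ex ι} (hx : x ∈ evn ι) :
    ExteriorAlgebra.map τ x ∈ evn ι' := by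
  have hx' : x ∈ CliffordAlgebra.evenOdd (0 : QuadraticForm ℝ (VV ι)) 0 := hx
  clear hx
  induction x, hx' using CliffordAlgebra.even_induction with
  | algebraMap r => rw [AlgHom.commutes]; exact Subalgebra.algebraMap_mem _ r
  | add x y _ _ ihx ihy => rw [map_add]; exact add_mem ihx ihy
  | ι_mul_ι_mul a b x _ ih =>
    rw [map_mul, map_mul]
    refine mul_mem ?_ ih
    have ha := ExteriorAlgebra.map_apply_ι τ a
    have hb := ExteriorAlgebra.map_apply_ι τ b
    erw [ha, hb]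
    exact CliffordAlgebra.ι_mul_ι_mem_evenOdd_zero _ _ _

/-- The algebra map induced by a linear map of the generating spaces. -/
noncomputable def mapV (τ : VV ι →ₗ[ℝ] VV ι') : Ev ι →ₐ[ℝ] Ev ι' :=
  ((ExteriorAlgebra.map τ).comp Ev.val).codRestrict (evn ι') fun x => map_evn τ x.mem

theorem val_mapV (τ : VV ι →ₗ[ℝ] VV ι') (x : Ev ι) :
    Ev.val (mapV τ x) = ExteriorAlgebra.map τ (Ev.val x) := rfl

/-- The algebra map induced by a linear map of covectors. -/
noncomputable def mp (σ : (ι → ℝ) →ₗ[ℝ] (ι' → ℝ)) : Ev ι →ₐ[ℝ] Ev ι' := mapV (σ.prodMap σ)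

/-- The transposition. -/
noncomputable def J : Ev ι →ₐ[ℝ] Ev ι :=
  mapV ((-LinearMap.snd ℝ (ι → ℝ) (ι → ℝ)).prod (LinearMap.fst ℝ (ι → ℝ) (ι → ℝ)))

/-- The product `e n * f n'`. -/
noncomputable def bb (n n' : ι → ℝ) : Ev ι :=
  Ev.mk (ExteriorAlgebra.ι ℝ (n, 0) * ExteriorAlgebra.ι ℝ (0, n'))
    (CliffordAlgebra.ι_mul_ι_mem_evenOdd_zero _ _ _)

theorem val_bb (n n' : ι → ℝ) :
    Ev.val (bb n n') = ExteriorAlgebra.ι ℝ (n, 0) * ExteriorAlgebra.ι ℝ (0, n') := rfl

/-- The square of a covector. -/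
noncomputable def sq (n : ι → ℝ) : Ev ι := bb n n

/-- Homogeneous elements of degree `2 a`. -/
noncomputable def dgr (ι : Type) (a : ℕ) : Submodule ℝ (Ev ι) :=
  (⋀[ℝ]^(2 * a) (VV ι)).comap Ev.val.toLinearMap

/-- Symmetric homogeneous elements. -/
noncomputable def Sy (ι : Type) (a : ℕ) : Submodule ℝ (Ev ι) :=
  dgr ι a ⊓ LinearMap.eqLocus J.toLinearMap LinearMap.id

/-- Products of squares. -/
noncomputable def Mon (ι : Type) : Submonoid (Ev ι) := Submonoid.closure (Set.range sq)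

/-- Contraction with the coordinate `i` of the first factor. -/
noncomputable def de (i : ι) : Ex ι →ₗ[ℝ] Ex ι :=
  CliffordAlgebra.contractLeft ((LinearMap.proj i).comp (LinearMap.fst ℝ (ι → ℝ) (ι → ℝ)))

/-- Contraction with the coordinate `i` of the second factor. -/
noncomputable def df (i : ι) : Ex ι →ₗ[ℝ] Ex ι :=
  CliffordAlgebra.contractLeft ((LinearMap.proj i).comp (LinearMap.snd ℝ (ι → ℝ) (ι → ℝ)))

theorem contract_evenOdd (d : Module.Dual ℝ (VV ι)) (n : ZMod 2) {x : Ex ι}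
    (hx : x ∈ CliffordAlgebra.evenOdd (0 : QuadraticForm ℝ (VV ι)) n) :
    CliffordAlgebra.contractLeft d x ∈
      CliffordAlgebra.evenOdd (0 : QuadraticForm ℝ (VV ι)) (n + 1) := by
  induction x, hx using CliffordAlgebra.evenOdd_induction with
  | range_ι_pow v h =>
    fin_cases n
    · have h' : v ∈ LinearMap.range (CliffordAlgebra.ι (0 : QuadraticForm ℝ (VV ι))) ^ 0 := h
      rw [pow_zero] at h'
      obtain ⟨r, rfl⟩ := Submodule.mem_one.mp h'
      rw [CliffordAlgebra.contractLeft_algebraMap]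
      exact zero_mem _
    · have h' : v ∈ LinearMap.range (CliffordAlgebra.ι (0 : QuadraticForm ℝ (VV ι))) ^ 1 := h
      rw [pow_one] at h'
      obtain ⟨m, rfl⟩ := h'
      rw [CliffordAlgebra.contractLeft_ι]
      exact CliffordAlgebra.one_le_evenOdd_zero _ (Submodule.mem_one.mpr ⟨_, rfl⟩)
  | add x y _ _ ihx ihy => rw [map_add]; exact add_mem ihx ihy
  | ι_mul_ι_mul a b x hx ih =>
    rw [mul_assoc, CliffordAlgebra.contractLeft_ι_mul, CliffordAlgebra.contractLeft_ι_mul, mul_sub,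
      mul_smul_comm, ← mul_assoc]
    have h1 (m : VV ι) : CliffordAlgebra.ι (0 : QuadraticForm ℝ (VV ι)) m * x ∈
        CliffordAlgebra.evenOdd (0 : QuadraticForm ℝ (VV ι)) (n + 1) := by
      rw [add_comm]
      exact SetLike.mul_mem_graded (CliffordAlgebra.ι_mem_evenOdd_one _ m) hx
    refine sub_mem (Submodule.smul_mem _ _ (h1 b)) (sub_mem (Submodule.smul_mem _ _ (h1 a)) ?_)
    rw [← zero_add (n + 1)]
    exact SetLike.mul_mem_graded (CliffordAlgebra.ι_mul_ι_mem_evenOdd_zero _ a b) ih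

theorem dd_evn (i : ι) {x : Ex ι} (hx : x ∈ evn ι) : df i (de i x) ∈ evn ι := by
  have h := contract_evenOdd ((LinearMap.proj i).comp (LinearMap.snd ℝ (ι → ℝ) (ι → ℝ))) _
    (contract_evenOdd ((LinearMap.proj i).comp (LinearMap.fst ℝ (ι → ℝ) (ι → ℝ))) 0 hx)
  exact h

/-- The contraction in the variable `i`. -/
noncomputable def dd (i : ι) : Ev ι →ₗ[ℝ] Ev ι where
  toFun x := Ev.mk (df i (de i (Ev.val x))) (dd_evn i x.mem)
  map_add' x y := Ev.ext (by simp only [Ev.val_mk, map_add])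
  map_smul' c x := Ev.ext (by simp only [Ev.val_mk, map_smul, RingHom.id_apply])

theorem val_dd (i : ι) (x : Ev ι) : Ev.val (dd i x) = df i (de i (Ev.val x)) := rfl

section Fin

variable [Fintype ι] [DecidableEq ι] [Fintype ι'] [DecidableEq ι']

/-- The standard polarisation. -/
noncomputable def om (ι : Type) [Fintype ι] [DecidableEq ι] : Ev ι := ∑ i, sq (Pi.single i 1)

/-- The adjoint of the multiplication by `om`. -/
noncomputable def Lam (ι : Type) [Fintype ι] : Ev ι →ₗ[ℝ] Ev ι := ∑ i, dd i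

/-- The constant term. -/
noncomputable def eps : Ev ι →ₐ[ℝ] ℝ := (ExteriorAlgebra.algebraMapInv).comp Ev.val

/-- The integral. -/
noncomputable def int (ι : Type) [Fintype ι] : Ev ι →ₗ[ℝ] ℝ :=
  ((Fintype.card ι).factorial : ℝ)⁻¹ • (eps.toLinearMap ∘ₗ Lam ι ^ Fintype.card ι)

/-- The map on covectors induced by a map of index sets: `δ_i` goes to `δ_(r i)`. -/
noncomputable def pb (r : ι → ι') : (ι → ℝ) →ₗ[ℝ] (ι' → ℝ) :=
  ∑ i, (LinearMap.single ℝ (fun _ => ℝ) (r i)).comp (LinearMap.proj i)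

/-- Pull-back of forms along a map of index sets. -/
noncomputable def up (r : ι → ι') : Ev ι →ₐ[ℝ] Ev ι' := mp (pb r)

/-- Positive semidefinite elements of degree two. -/
def Psd (e : Ev ι) : Prop := ∀ σ : (ι → ℝ) →ₗ[ℝ] (Unit → ℝ), 0 ≤ int Unit (mp σ e)

end Fin

/-- The class of the graph of the subtraction, the three factors being `a`, `b`, `c`. -/
noncomputable def gam {T G : Type} [Fintype G] [DecidableEq T] [DecidableEq G] (a b c : T) :
    Ev (T × G) :=
  ∏ i : G, sq (Pi.single (a, i) 1 - Pi.single (b, i) 1 - Pi.single (c, i) 1)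

/-- `s` is the sum of the series `∑ a h • v h`, tested on the forms which are nonnegative on all
the `v h`. -/
def PSum {H V : Type} [AddCommGroup V] [Module ℝ V] (a : H → ℝ≥0∞) (v : H → V) (s : V) : Prop :=
  ∀ φ : V →ₗ[ℝ] ℝ, (∀ h, 0 ≤ φ (v h)) →
    0 ≤ φ s ∧ ENNReal.ofReal (φ s) = ∑' h, a h * ENNReal.ofReal (φ (v h))

/-- The covector `y_i - ∑ E_ik y_(μ k)`, which vanishes on the columns of `E`. -/
noncomputable def nrm {κ : Type} [Fintype κ] [DecidableEq ι] (E : Matrix ι κ ℝ) (μ : κ → ι)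
    (i : ι) : ι → ℝ :=
  Pi.single i 1 - ∑ k, E i k • Pi.single (μ k) 1

/-- The class of the linear space spanned by the columns of `E`. -/
noncomputable def nn {κ : Type} [Fintype κ] [Fintype ι] [DecidableEq ι] (E : Matrix ι κ ℝ)
    (μ : κ → ι) : Ev ι :=
  ∏ i ∈ Finset.univ \ Finset.univ.image μ, sq (nrm E μ i)

end Pool.Agent.Work.MP_ffcd14_ag.Tr
end

-- merged part: Pool.Agent.Work.MP_ffcd14_ag.Tr.L1
section
/-!
# Basic algebra of `Ev`

Plan.  Everything is checked after `Ev.val` (`Ev.ext`).  `ExteriorAlgebra.map_comp_map`,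
`map_apply_ι`.  Degrees: `ExteriorAlgebra.map` preserves `⋀^n` (`Submodule.pow_induction_on_left`
or `exteriorPower` lemmas), a contraction maps `⋀^(n+1)` to `⋀^n` and kills `⋀^0`
(`CliffordAlgebra.contractLeft_ι_mul`).  `J` commutes with `mp σ` since the underlying linear maps
commute; `J` commutes with `dd i`: `J (d ⌋ x) = (d ∘ τ⁻¹) ⌋ J x`, so `J de = df J`, `J df = - de J`,
and `contractLeft_comm`.
-/

set_option linter.unusedSectionVars false

namespace Pool.Agent.Work.MP_ffcd14_ag.Tr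

open ExteriorAlgebra

variable {ι ι' ι'' : Type}

theorem mapV_mapV (τ : VV ι →ₗ[ℝ] VV ι') (τ' : VV ι' →ₗ[ℝ] VV ι'') (x : Ev ι) :
    mapV τ' (mapV τ x) = mapV (τ' ∘ₗ τ) x := by
  apply Ev.ext
  rw [val_mapV, val_mapV, val_mapV, ← ExteriorAlgebra.map_comp_map]
  rfl

theorem mp_mp (σ : (ι → ℝ) →ₗ[ℝ] (ι' → ℝ)) (σ' : (ι' → ℝ) →ₗ[ℝ] (ι'' → ℝ)) (x : Ev ι) :
    mp σ' (mp σ x) = mp (σ' ∘ₗ σ) x := by
  unfold mp
  rw [mapV_mapV, LinearMap.prodMap_comp]

theorem mp_id (x : Ev ι) : mp LinearMap.id x = x := by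
  apply Ev.ext
  unfold mp
  rw [val_mapV, LinearMap.prodMap_id, ExteriorAlgebra.map_id]
  rfl

theorem mp_bb (σ : (ι → ℝ) →ₗ[ℝ] (ι' → ℝ)) (n n' : ι → ℝ) :
    mp σ (bb n n') = bb (σ n) (σ n') := by
  apply Ev.ext
  unfold mp
  rw [val_mapV, val_bb, val_bb, map_mul, map_apply_ι, map_apply_ι]
  simp

theorem mp_sq (σ : (ι → ℝ) →ₗ[ℝ] (ι' → ℝ)) (n : ι → ℝ) : mp σ (sq n) = sq (σ n) := by
  exact mp_bb σ n n

theorem bb_add_left (a b c : ι → ℝ) : bb (a + b) c = bb a c + bb b c := by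
  apply Ev.ext
  rw [map_add, val_bb, val_bb, val_bb, ← add_mul, ← map_add]
  simp

theorem bb_smul_left (r : ℝ) (a c : ι → ℝ) : bb (r • a) c = r • bb a c := by
  apply Ev.ext
  rw [map_smul, val_bb, val_bb, ← smul_mul_assoc, ← map_smul]
  simp

theorem bb_add_right (a b c : ι → ℝ) : bb a (b + c) = bb a b + bb a c := by
  apply Ev.ext
  rw [map_add, val_bb, val_bb, val_bb, ← mul_add, ← map_add]
  simp

theorem bb_smul_right (r : ℝ) (a c : ι → ℝ) : bb a (r • c) = r • bb a c := by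
  apply Ev.ext
  rw [map_smul, val_bb, val_bb, ← mul_smul_comm, ← map_smul]
  simp

theorem iota_swap (u v : VV ι) : ExteriorAlgebra.ι ℝ u * ExteriorAlgebra.ι ℝ v =
    -(ExteriorAlgebra.ι ℝ v * ExteriorAlgebra.ι ℝ u) :=
  eq_neg_of_add_eq_zero_left (ExteriorAlgebra.ι_add_mul_swap u v)

theorem iota_swap' (u v : VV ι) (x : Ex ι) :
    ExteriorAlgebra.ι ℝ u * (ExteriorAlgebra.ι ℝ v * x) =
    -(ExteriorAlgebra.ι ℝ v * (ExteriorAlgebra.ι ℝ u * x)) := by
  rw [← mul_assoc, iota_swap u v, neg_mul, mul_assoc]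

/-- `bb` as a bilinear map. -/
noncomputable def bbL : (ι → ℝ) →ₗ[ℝ] (ι → ℝ) →ₗ[ℝ] Ev ι :=
  LinearMap.mk₂ ℝ bb bb_add_left bb_smul_left bb_add_right bb_smul_right

theorem bbL_apply (n n' : ι → ℝ) : bbL n n' = bb n n' := rfl

theorem bb_mul_bb (a b c d : ι → ℝ) : bb a b * bb c d = -(bb a d * bb c b) := by
  apply Ev.ext
  rw [map_neg, map_mul, map_mul, val_bb, val_bb, val_bb, val_bb]
  simp only [mul_assoc]
  rw [iota_swap' (0, b) (c, 0), iota_swap' (0, d) (c, 0), iota_swap (0, b) (0, d)]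
  simp only [mul_neg, neg_neg]

theorem sq_mul_sq (n : ι → ℝ) : sq n * sq n = 0 := by
  have h := bb_mul_bb n n n n
  have h2 : (2 : ℝ) • (bb n n * bb n n) = 0 := by
    rw [two_smul]
    exact add_eq_zero_iff_eq_neg.mpr h
  have h3 := congrArg (fun y => (2 : ℝ)⁻¹ • y) h2
  simp only [smul_smul, smul_zero] at h3
  rw [inv_mul_cancel₀ two_ne_zero, one_smul] at h3
  exact h3

theorem sq_neg (n : ι → ℝ) : sq (-n) = sq n := by
  rw [sq, sq, ← neg_one_smul ℝ n, bb_smul_left, bb_smul_right, smul_smul]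
  simp

theorem J_bb (n n' : ι → ℝ) : J (bb n n') = bb n' n := by
  apply Ev.ext
  unfold J
  rw [val_mapV, val_bb, val_bb, map_mul, map_apply_ι, map_apply_ι, iota_swap (n', 0) (0, n),
    ← mul_neg, ← map_neg]
  simp

theorem J_mp (σ : (ι → ℝ) →ₗ[ℝ] (ι' → ℝ)) (x : Ev ι) : J (mp σ x) = mp σ (J x) := by
  unfold J mp
  rw [mapV_mapV, mapV_mapV]
  congr 2
  apply LinearMap.ext
  intro v
  simp

theorem map_contract (τ : VV ι →ₗ[ℝ] VV ι') (d : Module.Dual ℝ (VV ι))
    (d' : Module.Dual ℝ (VV ι')) (h : ∀ v, d' (τ v) = d v) (x : Ex ι) :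
    ExteriorAlgebra.map τ (CliffordAlgebra.contractLeft d x) =
      CliffordAlgebra.contractLeft d' (ExteriorAlgebra.map τ x) := by
  induction x using CliffordAlgebra.left_induction with
  | algebraMap r =>
    rw [CliffordAlgebra.contractLeft_algebraMap, map_zero, AlgHom.commutes,
      CliffordAlgebra.contractLeft_algebraMap]
  | add x y hx hy => rw [map_add, map_add, hx, hy, map_add, map_add]
  | ι_mul x m hx =>
    have hm := ExteriorAlgebra.map_apply_ι τ m
    rw [CliffordAlgebra.contractLeft_ι_mul, map_sub, map_smul, map_mul, map_mul, hx]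
    erw [hm]
    rw [CliffordAlgebra.contractLeft_ι_mul, h]

theorem J_dd (i : ι) (x : Ev ι) : J (dd i x) = dd i (J x) := by
  apply Ev.ext
  unfold J
  rw [val_mapV, val_dd, val_dd, val_mapV]
  unfold de df
  rw [map_contract _ _ (-((LinearMap.proj i).comp (LinearMap.fst ℝ (ι → ℝ) (ι → ℝ))))
      (fun v => by simp),
    map_contract _ _ ((LinearMap.proj i).comp (LinearMap.snd ℝ (ι → ℝ) (ι → ℝ)))
      (fun v => by simp), map_neg, LinearMap.neg_apply, ← CliffordAlgebra.contractLeft_comm]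

theorem mem_dgr {a : ℕ} {x : Ev ι} : x ∈ dgr ι a ↔ Ev.val x ∈ ⋀[ℝ]^(2 * a) (VV ι) := Iff.rfl

theorem iota_mem (v : VV ι) : ExteriorAlgebra.ι ℝ v ∈ ⋀[ℝ]^1 (VV ι) := by
  rw [ExteriorAlgebra.exteriorPower, pow_one]
  exact ⟨v, rfl⟩

theorem ex_mul_mem {a b : ℕ} {x y : Ex ι} (hx : x ∈ ⋀[ℝ]^a (VV ι)) (hy : y ∈ ⋀[ℝ]^b (VV ι)) :
    x * y ∈ ⋀[ℝ]^(a + b) (VV ι) :=
  SetLike.mul_mem_graded (A := fun n => ⋀[ℝ]^n (VV ι)) hx hy

theorem one_dgr : (1 : Ev ι) ∈ dgr ι 0 := by
  rw [mem_dgr, map_one, mul_zero]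
  exact SetLike.one_mem_graded (fun n => ⋀[ℝ]^n (VV ι))

theorem bb_dgr (n n' : ι → ℝ) : bb n n' ∈ dgr ι 1 := by
  rw [mem_dgr, val_bb]
  exact ex_mul_mem (a := 1) (b := 1) (iota_mem _) (iota_mem _)

theorem mul_dgr {a b : ℕ} {x y : Ev ι} (hx : x ∈ dgr ι a) (hy : y ∈ dgr ι b) :
    x * y ∈ dgr ι (a + b) := by
  rw [mem_dgr, map_mul, mul_add]
  exact ex_mul_mem hx hy

theorem map_mem_pow (τ : VV ι →ₗ[ℝ] VV ι') {n : ℕ} {x : Ex ι} (hx : x ∈ ⋀[ℝ]^n (VV ι)) :
    ExteriorAlgebra.map τ x ∈ ⋀[ℝ]^n (VV ι') := by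
  induction hx using Submodule.pow_induction_on_left' with
  | algebraMap r =>
    rw [AlgHom.commutes, ExteriorAlgebra.exteriorPower, pow_zero]
    exact Submodule.algebraMap_mem r
  | add x y i _ _ hx hy => rw [map_add]; exact add_mem hx hy
  | mem_mul m hm i x _ hx =>
    obtain ⟨v, rfl⟩ := hm
    rw [map_mul, map_apply_ι, Nat.succ_eq_add_one, add_comm]
    exact ex_mul_mem (iota_mem _) hx

theorem contract_mem_pow (d : Module.Dual ℝ (VV ι)) {n : ℕ} {x : Ex ι}
    (hx : x ∈ ⋀[ℝ]^n (VV ι)) :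
    (n = 0 → CliffordAlgebra.contractLeft d x = 0) ∧
      CliffordAlgebra.contractLeft d x ∈ ⋀[ℝ]^(n - 1) (VV ι) := by
  induction hx using Submodule.pow_induction_on_left' with
  | algebraMap r =>
    rw [CliffordAlgebra.contractLeft_algebraMap]
    exact ⟨fun _ => rfl, zero_mem _⟩
  | add x y i _ _ hx hy =>
    rw [map_add]
    exact ⟨fun h => by rw [hx.1 h, hy.1 h, add_zero], add_mem hx.2 hy.2⟩
  | mem_mul m hm i x hx' hx =>
    obtain ⟨v, rfl⟩ := hm
    refine ⟨fun h => absurd h (Nat.succ_ne_zero i), ?_⟩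
    rw [CliffordAlgebra.contractLeft_ι_mul, Nat.succ_sub_one]
    refine sub_mem (Submodule.smul_mem _ _ hx') ?_
    rcases Nat.eq_zero_or_pos i with h0 | h0
    · rw [hx.1 h0, mul_zero]
      exact zero_mem _
    · have h1 := ex_mul_mem (iota_mem v) hx.2
      rwa [show 1 + (i - 1) = i by omega] at h1

theorem mapV_dgr (τ : VV ι →ₗ[ℝ] VV ι') {a : ℕ} {x : Ev ι} (hx : x ∈ dgr ι a) :
    mapV τ x ∈ dgr ι' a := by
  rw [mem_dgr, val_mapV]
  exact map_mem_pow τ hx

theorem dd_dgr (i : ι) {a : ℕ} {x : Ev ι} (hx : x ∈ dgr ι (a + 1)) : dd i x ∈ dgr ι a := by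
  rw [mem_dgr, val_dd]
  have h1 := (contract_mem_pow ((LinearMap.proj i).comp (LinearMap.fst ℝ (ι → ℝ) (ι → ℝ)))
    (mem_dgr.mp hx)).2
  have h2 := (contract_mem_pow ((LinearMap.proj i).comp (LinearMap.snd ℝ (ι → ℝ) (ι → ℝ))) h1).2
  rwa [show 2 * (a + 1) - 1 - 1 = 2 * a by omega] at h2

theorem dd_dgr_zero (i : ι) {x : Ev ι} (hx : x ∈ dgr ι 0) : dd i x = 0 := by
  apply Ev.ext
  rw [val_dd, map_zero]
  have h1 := (contract_mem_pow ((LinearMap.proj i).comp (LinearMap.fst ℝ (ι → ℝ) (ι → ℝ)))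
    (mem_dgr.mp hx)).1 rfl
  have h2 : de i (Ev.val x) = 0 := h1
  rw [h2, map_zero]

theorem mem_Sy {a : ℕ} {x : Ev ι} : x ∈ Sy ι a ↔ x ∈ dgr ι a ∧ J x = x := Iff.rfl

theorem mul_Sy {a b : ℕ} {x y : Ev ι} (hx : x ∈ Sy ι a) (hy : y ∈ Sy ι b) :
    x * y ∈ Sy ι (a + b) := by
  rw [mem_Sy] at hx hy ⊢
  exact ⟨mul_dgr hx.1 hy.1, by rw [map_mul, hx.2, hy.2]⟩

theorem mp_Sy (σ : (ι → ℝ) →ₗ[ℝ] (ι' → ℝ)) {a : ℕ} {x : Ev ι} (hx : x ∈ Sy ι a) :
    mp σ x ∈ Sy ι' a := by
  rw [mem_Sy] at hx ⊢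
  exact ⟨mapV_dgr _ hx.1, by rw [J_mp, hx.2]⟩

theorem sq_Sy (n : ι → ℝ) : sq n ∈ Sy ι 1 := mem_Sy.mpr ⟨bb_dgr n n, J_bb n n⟩

theorem prod_sq_Sy {κ : Type} (s : Finset κ) (n : κ → ι → ℝ) :
    ∏ k ∈ s, sq (n k) ∈ Sy ι s.card := by
  classical
  induction s using Finset.induction_on with
  | empty =>
    rw [Finset.prod_empty, Finset.card_empty]
    exact mem_Sy.mpr ⟨one_dgr, map_one _⟩
  | insert k s hk ih =>
    rw [Finset.prod_insert hk, Finset.card_insert_of_notMem hk, add_comm]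
    exact mul_Sy (sq_Sy _) ih

theorem prod_sq_Mon {κ : Type} (s : Finset κ) (n : κ → ι → ℝ) : ∏ k ∈ s, sq (n k) ∈ Mon ι := by
  exact Submonoid.prod_mem _ fun k _ => Submonoid.subset_closure ⟨n k, rfl⟩

theorem mp_Mon (σ : (ι → ℝ) →ₗ[ℝ] (ι' → ℝ)) {x : Ev ι} (hx : x ∈ Mon ι) : mp σ x ∈ Mon ι' := by
  induction hx using Submonoid.closure_induction with
  | mem x h =>
    obtain ⟨n, rfl⟩ := h
    rw [mp_sq]
    exact Submonoid.subset_closure ⟨_, rfl⟩
  | one => rw [map_one]; exact one_mem _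
  | mul x y _ _ hx hy => rw [map_mul]; exact mul_mem hx hy

theorem exists_of_Mon {x : Ev ι} (hx : x ∈ Mon ι) :
    ∃ (m : ℕ) (n : Fin m → ι → ℝ), x = ∏ k, sq (n k) := by
  induction hx using Submonoid.closure_induction with
  | mem x h =>
    obtain ⟨n, rfl⟩ := h
    exact ⟨1, fun _ => n, by simp⟩
  | one => exact ⟨0, Fin.elim0, by simp⟩
  | mul x y _ _ hx hy =>
    obtain ⟨a, u, rfl⟩ := hx
    obtain ⟨b, v, rfl⟩ := hy
    refine ⟨a + b, Fin.append u v, ?_⟩
    rw [Fin.prod_univ_add]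
    simp only [Fin.append_left, Fin.append_right]

instance [Finite ι] : Module.Finite ℝ (Ev ι) := by
  have b := Module.finBasis ℝ (VV ι)
  have : Module.Finite ℝ (Ex ι) := Module.Finite.of_basis b.ExteriorAlgebra
  exact Module.Finite.of_injective (Ev.val (ι := ι)).toLinearMap fun _ _ h => Ev.ext h

variable [Fintype ι] [DecidableEq ι] [Fintype ι'] [DecidableEq ι'] [Fintype ι''] [DecidableEq ι'']

theorem pb_single (r : ι → ι') (i : ι) : pb r (Pi.single i 1) = Pi.single (r i) 1 := by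
  unfold pb
  rw [LinearMap.sum_apply, Finset.sum_eq_single i]
  · simp
  · intro j _ hj
    simp [Pi.single_eq_of_ne hj]
  · intro h
    exact absurd (Finset.mem_univ i) h

omit [Fintype ι'] [DecidableEq ι'] in
theorem pi_ext {W : Type} [AddCommGroup W] [Module ℝ W] {f g : (ι → ℝ) →ₗ[ℝ] W}
    (h : ∀ i, f (Pi.single i 1) = g (Pi.single i 1)) : f = g :=
  (Pi.basisFun ℝ ι).ext fun i => by rw [Pi.basisFun_apply]; exact h i

theorem up_up (r : ι → ι') (r' : ι' → ι'') (x : Ev ι) : up r' (up r x) = up (r' ∘ r) x := by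
  unfold up
  rw [mp_mp]
  congr 2
  refine pi_ext fun i => ?_
  rw [LinearMap.comp_apply, pb_single, pb_single, pb_single]
  rfl

theorem up_id (x : Ev ι) : up id x = x := by
  unfold up
  have h : pb (id : ι → ι) = LinearMap.id := pi_ext fun i => by rw [pb_single]; rfl
  rw [h, mp_id]

theorem up_gam {T T' G : Type} [Fintype T] [DecidableEq T] [Fintype T'] [DecidableEq T']
    [Fintype G] [DecidableEq G] (r : T → T') (a b c : T) :
    up (Prod.map r id) (gam a b c : Ev (T × G)) = gam (r a) (r b) (r c) := by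
  unfold gam up
  rw [map_prod]
  refine Finset.prod_congr rfl fun i _ => ?_
  rw [mp_sq, map_sub, map_sub, pb_single, pb_single, pb_single]
  rfl

theorem om_Sy : om ι ∈ Sy ι 1 := by
  exact Submodule.sum_mem _ fun i _ => sq_Sy _

theorem Lam_Sy {a : ℕ} {x : Ev ι} (hx : x ∈ Sy ι (a + 1)) : Lam ι x ∈ Sy ι a := by
  unfold Lam
  rw [LinearMap.sum_apply]
  refine Submodule.sum_mem _ fun i _ => ?_
  rw [mem_Sy] at hx ⊢
  exact ⟨dd_dgr i hx.1, by rw [J_dd, hx.2]⟩

theorem Lam_zero {x : Ev ι} (hx : x ∈ dgr ι 0) : Lam ι x = 0 := by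
  unfold Lam
  rw [LinearMap.sum_apply]
  exact Finset.sum_eq_zero fun i _ => dd_dgr_zero i hx

/-- A combination of squares is given by a symmetric matrix. -/
theorem exists_symm {e : Ev ι} (he : e ∈ Submodule.span ℝ (Set.range (sq (ι := ι)))) :
    ∃ q : Matrix ι ι ℝ, q.IsSymm ∧
    e = ∑ i, ∑ j, q i j • bb (Pi.single i 1) (Pi.single j 1) := by
  induction he using Submodule.span_induction with
  | mem x h =>
    obtain ⟨n, rfl⟩ := h
    refine ⟨Matrix.of fun i j => n i * n j, ?_, ?_⟩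
    · ext i j
      simp [mul_comm]
    · have hn : n = ∑ i, n i • (Pi.single i 1 : ι → ℝ) := by
        ext j
        simp [Finset.sum_apply, Pi.single_apply]
      change bbL n n = _
      conv_lhs => rw [hn]
      simp only [map_sum, map_smul, LinearMap.sum_apply, LinearMap.smul_apply, Finset.smul_sum,
        smul_smul, bbL_apply, Matrix.of_apply]
      rw [Finset.sum_comm]
      refine Finset.sum_congr rfl fun i _ => Finset.sum_congr rfl fun j _ => ?_
      rw [mul_comm]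
  | zero => exact ⟨0, Matrix.isSymm_zero, by simp⟩
  | add x y _ _ hx hy =>
    obtain ⟨p, hp, rfl⟩ := hx
    obtain ⟨q, hq, rfl⟩ := hy
    refine ⟨p + q, hp.add hq, ?_⟩
    simp only [Matrix.add_apply, add_smul, Finset.sum_add_distrib]
  | smul r x _ hx =>
    obtain ⟨p, hp, rfl⟩ := hx
    refine ⟨r • p, hp.smul r, ?_⟩
    simp only [Matrix.smul_apply, smul_eq_mul, Finset.smul_sum, smul_smul]

end Pool.Agent.Work.MP_ffcd14_ag.Tr
end

-- merged part: Pool.Agent.Work.MP_ffcd14_ag.Tr.L2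
section
/-!
# The scalar product on the exterior algebra

Plan.  `ct v` is the contraction with the covector `⟨v, ·⟩`; it squares to zero, so that it extends
to an algebra map `rho : Ex ι →ₐ End (Ex ι)` (`ExteriorAlgebra.lift`).  The scalar product is
`ip x y = ε (rho (reverse x) y)`.  `ip_ι_mul` is immediate.  `ip_ct`: induction on `x`
(`ExteriorAlgebra.induction` in the left form `CliffordAlgebra.left_induction`), using
`ct v (ι w * y) = ⟨v, w⟩ y - ι w * ct v y`, `contractLeft_comm` and `ε (ι v * z) = 0`.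
`ip_symm`: left induction on `x`, from the two adjunctions.  Positivity: for a basis vector `u` of
`VV ι` (of norm one), `x = (x - ι u * ct u x) + ι u * ct u x`, both `x - ι u * ct u x` and `ct u x`
are killed by `ct u` and by all the contractions which kill `x`, and
`ip x x = ip x₀ x₀ + ip x₁ x₁`.  Do an induction on a finite set of basis vectors: if `x` is killed
by all contractions with basis vectors outside `s`, then `0 ≤ ip x x` with equality only for
`x = 0`.  For `s = ∅`, `x` is a scalar: the operator `∑ ι u * ct u` is a derivation which is the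
multiplication by `n` on `⋀^n`; decompose `x` (`DirectSum.Decomposition`, `GradedAlgebra`).
(Any other proof is fine, e.g. with `Module.Basis.ExteriorAlgebra`.)
-/

namespace Pool.Agent.Work.MP_ffcd14_ag.Tr

open ExteriorAlgebra

variable {ι : Type} [Fintype ι] [DecidableEq ι]

/-- The standard scalar product on the generating space. -/
noncomputable def dot : VV ι →ₗ[ℝ] Module.Dual ℝ (VV ι) :=
  LinearMap.mk₂ ℝ (fun v w => v.1 ⬝ᵥ w.1 + v.2 ⬝ᵥ w.2)
    (fun a b c => by simp only [Prod.fst_add, Prod.snd_add, add_dotProduct]; ring)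
    (fun r a b => by simp only [Prod.smul_fst, Prod.smul_snd, smul_dotProduct, smul_add])
    (fun a b c => by simp only [Prod.fst_add, Prod.snd_add, dotProduct_add]; ring)
    (fun r a b => by simp only [Prod.smul_fst, Prod.smul_snd, dotProduct_smul, smul_add])

omit [DecidableEq ι] in
theorem L2_dot (v w : VV ι) : dot v w = v.1 ⬝ᵥ w.1 + v.2 ⬝ᵥ w.2 := rfl

omit [DecidableEq ι] in
theorem L2_dot_comm (v w : VV ι) : dot v w = dot w v := by
  rw [L2_dot, L2_dot, dotProduct_comm v.1, dotProduct_comm v.2]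

/-- Contraction with a vector. -/
noncomputable def ct : VV ι →ₗ[ℝ] Module.End ℝ (Ex ι) :=
  CliffordAlgebra.contractLeft ∘ₗ dot

theorem ct_e (i : ι) : ct ((Pi.single i 1, 0) : VV ι) = de i := by
  refine congrArg CliffordAlgebra.contractLeft (LinearMap.ext fun w => ?_)
  simp [L2_dot]

theorem ct_f (i : ι) : ct ((0, Pi.single i 1) : VV ι) = df i := by
  refine congrArg CliffordAlgebra.contractLeft (LinearMap.ext fun w => ?_)
  simp [L2_dot]

theorem ct_ι_mul (v w : VV ι) (y : Ex ι) :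
    ct v (ExteriorAlgebra.ι ℝ w * y) = dot v w • y - ExteriorAlgebra.ι ℝ w * ct v y := by
  exact CliffordAlgebra.contractLeft_ι_mul (d := dot v) w y

theorem ct_sq (v : VV ι) : ct v * ct v = 0 := by
  exact LinearMap.ext fun x => CliffordAlgebra.contractLeft_contractLeft _ x

theorem ct_comm (v w : VV ι) (y : Ex ι) : ct v (ct w y) = -ct w (ct v y) := by
  exact CliffordAlgebra.contractLeft_comm _ _ y

omit [DecidableEq ι] in
theorem L2_ct_alg (v : VV ι) (r : ℝ) : ct v (algebraMap ℝ (Ex ι) r) = 0 :=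
  CliffordAlgebra.contractLeft_algebraMap _ _ r

/-- For `x` even, `ct v` is a derivation. -/
theorem ct_evn_mul (v : VV ι) {x : Ex ι} (hx : x ∈ evn ι) (y : Ex ι) :
    ct v (x * y) = ct v x * y + x * ct v y := by
  have hx' : x ∈ CliffordAlgebra.evenOdd (0 : QuadraticForm ℝ (VV ι)) 0 := hx
  clear hx
  induction x, hx' using CliffordAlgebra.even_induction with
  | algebraMap r =>
    rw [L2_ct_alg, zero_mul, zero_add, ← Algebra.smul_def, ← Algebra.smul_def, map_smul]
  | add x z _ _ ihx ihz =>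
    rw [add_mul, map_add, map_add, ihx, ihz, add_mul, add_mul, add_add_add_comm]
  | ι_mul_ι_mul a b x _ ih =>
    change ct v (ExteriorAlgebra.ι ℝ a * ExteriorAlgebra.ι ℝ b * x * y) =
      ct v (ExteriorAlgebra.ι ℝ a * ExteriorAlgebra.ι ℝ b * x) * y +
        ExteriorAlgebra.ι ℝ a * ExteriorAlgebra.ι ℝ b * x * ct v y
    simp only [mul_assoc, ct_ι_mul, ih, sub_mul, mul_sub, mul_add, smul_mul_assoc]
    abel

/-- The action of the exterior algebra by contractions. -/
noncomputable def rho : Ex ι →ₐ[ℝ] Module.End ℝ (Ex ι) := ExteriorAlgebra.lift ℝ ⟨ct, ct_sq⟩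

theorem rho_ι (v : VV ι) : rho (ExteriorAlgebra.ι ℝ v) = ct v := by
  exact ExteriorAlgebra.lift_ι_apply _ _ _ v

/-- The scalar product. -/
noncomputable def ip : Ex ι →ₗ[ℝ] Ex ι →ₗ[ℝ] ℝ :=
  ((rho (ι := ι)).toLinearMap ∘ₗ CliffordAlgebra.reverse).compr₂ algebraMapInv.toLinearMap

theorem ip_apply (x y : Ex ι) :
    ip x y = algebraMapInv (rho (CliffordAlgebra.reverse x) y) := rfl

theorem ip_one (y : Ex ι) : ip 1 y = algebraMapInv y := by
  rw [ip_apply, CliffordAlgebra.reverse.map_one, map_one, Module.End.one_apply]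

theorem ip_ι_mul (v : VV ι) (x y : Ex ι) : ip (ExteriorAlgebra.ι ℝ v * x) y = ip x (ct v y) := by
  rw [ip_apply, ip_apply, CliffordAlgebra.reverse.map_mul, map_mul, Module.End.mul_apply, ← rho_ι]
  exact congrArg (fun z => algebraMapInv (rho _ (rho z y))) (CliffordAlgebra.reverse_ι v)

theorem ip_mul (z x y : Ex ι) : ip (z * x) y = ip x (rho (CliffordAlgebra.reverse z) y) := by
  rw [ip_apply, ip_apply, CliffordAlgebra.reverse.map_mul, map_mul, Module.End.mul_apply]

omit [Fintype ι] [DecidableEq ι] in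
theorem L2_eps (v : VV ι) (y : Ex ι) : algebraMapInv (ExteriorAlgebra.ι ℝ v * y) = 0 := by
  rw [map_mul, algebraMapInv, ExteriorAlgebra.lift_ι_apply, LinearMap.zero_apply, zero_mul]

theorem ip_ct (v : VV ι) (x y : Ex ι) : ip (ct v x) y = ip x (ExteriorAlgebra.ι ℝ v * y) := by
  induction x using CliffordAlgebra.left_induction generalizing y with
  | algebraMap r =>
    rw [L2_ct_alg, Algebra.algebraMap_eq_smul_one, map_smul, LinearMap.smul_apply, ip_one, L2_eps,
      map_zero, smul_zero, LinearMap.zero_apply]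
  | add x z ihx ihz => simp only [map_add, LinearMap.add_apply, ihx, ihz]
  | ι_mul x w ih =>
    change ip (ct v (ExteriorAlgebra.ι ℝ w * x)) y = ip (ExteriorAlgebra.ι ℝ w * x) _
    rw [ct_ι_mul, ip_ι_mul, ct_ι_mul, map_sub, map_sub, map_smul, map_smul, LinearMap.sub_apply,
      LinearMap.smul_apply, ip_ι_mul, ih, L2_dot_comm]

theorem L2_one (y : Ex ι) : ip y 1 = algebraMapInv y := by
  induction y using CliffordAlgebra.left_induction with
  | algebraMap r =>
    rw [Algebra.algebraMap_eq_smul_one, map_smul, map_smul, LinearMap.smul_apply, ip_one]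
  | add x z ihx ihz => simp only [map_add, LinearMap.add_apply, ihx, ihz]
  | ι_mul x w _ =>
    change ip (ExteriorAlgebra.ι ℝ w * x) 1 = algebraMapInv (ExteriorAlgebra.ι ℝ w * x)
    rw [ip_ι_mul, L2_eps, ← map_one (algebraMap ℝ (Ex ι)), L2_ct_alg, map_zero]

theorem ip_symm (x y : Ex ι) : ip x y = ip y x := by
  induction x using CliffordAlgebra.left_induction generalizing y with
  | algebraMap r =>
    rw [Algebra.algebraMap_eq_smul_one, map_smul, map_smul, LinearMap.smul_apply, ip_one, L2_one]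
  | add x z ihx ihz => simp only [map_add, LinearMap.add_apply, ihx, ihz]
  | ι_mul x w ih =>
    change ip (ExteriorAlgebra.ι ℝ w * x) y = ip y (ExteriorAlgebra.ι ℝ w * x)
    rw [ip_ι_mul, ih, ip_ct]

/-- The standard basis of the generating space. -/
noncomputable def L2_bas (ι : Type) [Fintype ι] : Module.Basis (ι ⊕ ι) ℝ (VV ι) :=
  (Pi.basisFun ℝ ι).prod (Pi.basisFun ℝ ι)

theorem L2_orth (u w : ι ⊕ ι) : dot (L2_bas ι u) (L2_bas ι w) = if u = w then 1 else 0 := by
  rcases u with u | u <;> rcases w with w | w <;>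
    simp [L2_bas, L2_dot, Module.Basis.prod_apply, Pi.single_apply, eq_comm]

theorem L2_sub (s : Finset (ι ⊕ ι)) : ∃ A : Submodule ℝ (Ex ι), 1 ∈ A ∧
    (∀ u ∈ s, ∀ x ∈ A, ExteriorAlgebra.ι ℝ (L2_bas ι u) * x ∈ A) ∧
    (∀ u ∉ s, ∀ x ∈ A, ct (L2_bas ι u) x = 0) ∧ ∀ x ∈ A, x ≠ 0 → 0 < ip x x := by
  induction s using Finset.induction_on with
  | empty =>
    refine ⟨1, Submodule.one_le.1 le_rfl, by simp, fun u _ x hx => ?_, fun x hx h => ?_⟩ <;>
      obtain ⟨r, rfl⟩ := Submodule.mem_one.1 hx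
    · exact L2_ct_alg _ r
    · rw [Algebra.algebraMap_eq_smul_one, map_smul, map_smul, LinearMap.smul_apply, ip_one, map_one,
        smul_eq_mul, smul_eq_mul, mul_one]
      exact mul_self_pos.2 fun e => h (by rw [e, map_zero])
  | insert u s hu ih =>
    obtain ⟨A, h1, h2, h3, h4⟩ := ih
    have m : ∀ x, x ∈ A ⊔ A.map (LinearMap.mulLeft ℝ (ExteriorAlgebra.ι ℝ (L2_bas ι u))) ↔
        ∃ a ∈ A, ∃ b ∈ A, a + ExteriorAlgebra.ι ℝ (L2_bas ι u) * b = x := fun x => by
      simp [Submodule.mem_sup]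
    refine ⟨_, (m 1).2 ⟨1, h1, 0, A.zero_mem, by rw [mul_zero, add_zero]⟩, fun w hw x hx => ?_,
      fun w hw x hx => ?_, fun x hx h => ?_⟩ <;> obtain ⟨a, ha, b, hb, rfl⟩ := (m x).1 hx
    · rcases Finset.mem_insert.1 hw with rfl | hw
      · exact (m _).2 ⟨0, A.zero_mem, a, ha, by
          rw [mul_add, ← mul_assoc, ι_sq_zero, zero_mul, zero_add, add_zero]⟩
      · exact (m _).2 ⟨_, h2 w hw a ha, _, A.neg_mem (h2 w hw b hb), by
          rw [mul_add, mul_neg, ← mul_assoc, ← mul_assoc, ← neg_mul,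
            neg_eq_of_add_eq_zero_right (ι_add_mul_swap _ _)]⟩
    · rw [Finset.mem_insert, not_or] at hw
      rw [map_add, ct_ι_mul, h3 w hw.2 a ha, h3 w hw.2 b hb, L2_orth, if_neg hw.1, zero_smul,
        mul_zero, sub_zero, add_zero]
    · have e : ip (ExteriorAlgebra.ι ℝ (L2_bas ι u) * b) a = 0 := by
        rw [ip_ι_mul, h3 u hu a ha, map_zero]
      have n : ∀ y ∈ A, 0 ≤ ip y y := fun y hy => by
        rcases eq_or_ne y 0 with rfl | k
        exacts [by rw [map_zero], (h4 y hy k).le]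
      rw [map_add, map_add, LinearMap.add_apply, LinearMap.add_apply, e, ip_symm a (_ * b), e,
        ip_ι_mul, ct_ι_mul, h3 u hu b hb, L2_orth, if_pos rfl, one_smul, mul_zero, sub_zero,
        add_zero, zero_add]
      rcases eq_or_ne a 0 with rfl | k
      · exact add_pos_of_nonneg_of_pos (n _ ha) (h4 b hb fun k => h (by rw [k, mul_zero, add_zero]))
      · exact add_pos_of_pos_of_nonneg (h4 a ha k) (n b hb)

theorem ip_pos {x : Ex ι} (hx : x ≠ 0) : 0 < ip x x := by
  obtain ⟨A, h1, h2, -, h3⟩ := L2_sub (ι := ι) Finset.univ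
  refine h3 x ?_ hx
  clear hx
  induction x using CliffordAlgebra.left_induction with
  | algebraMap r => exact Algebra.algebraMap_eq_smul_one (A := Ex ι) r ▸ A.smul_mem r h1
  | add x z ihx ihz => exact A.add_mem ihx ihz
  | ι_mul x w ih =>
    change ExteriorAlgebra.ι ℝ w * x ∈ A
    rw [← (L2_bas ι).sum_repr w, map_sum, Finset.sum_mul]
    refine A.sum_mem fun u hu => ?_
    rw [map_smul, smul_mul_assoc]
    exact A.smul_mem _ (h2 u hu x ih)

/-- `Lam` is the adjoint of the multiplication by `om`. -/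
theorem ip_om (x y : Ev ι) :
    ip (Ev.val (om ι * x)) (Ev.val y) = ip (Ev.val x) (Ev.val (Lam ι y)) := by
  rw [om, Lam, map_mul, map_sum, Finset.sum_mul, map_sum, LinearMap.sum_apply, LinearMap.sum_apply,
    map_sum, map_sum]
  refine Finset.sum_congr rfl fun i _ => ?_
  rw [sq, val_bb, mul_assoc, ip_ι_mul, ip_ι_mul, ct_e, ct_f, val_dd]

theorem int_eq_ip (z : Ev ι) :
    int ι z = ((Fintype.card ι).factorial : ℝ)⁻¹ *
      ip (Ev.val (om ι ^ Fintype.card ι)) (Ev.val z) := by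
  have h : ∀ (n : ℕ) (z : Ev ι), ip (Ev.val (om ι ^ n)) (Ev.val z) = eps ((Lam ι ^ n) z) := by
    intro n
    induction n with
    | zero => exact fun z => by rw [pow_zero, map_one, ip_one]; rfl
    | succ n ih => exact fun z => by rw [pow_succ', ip_om, ih, pow_succ, Module.End.mul_apply]
  rw [h]
  rfl

end Pool.Agent.Work.MP_ffcd14_ag.Tr
end

-- merged part: Pool.Agent.Work.MP_ffcd14_ag.Tr.L3
section
/-!
# The `sl₂` relations

Plan.  `Lam_om`: with `e_i`, `f_i` the generators, `de i`, `df i` are antiderivations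
(`ct_ι_mul`, `ct_evn_mul`), `de i om = f_i`, `df i om = - e_i`, so
`df i (de i (om x)) = x - f_i df i x - e_i de i x + om df i (de i x)`, and
`∑ e_i de i + f_i df i` is the multiplication by `n` on `⋀^n` (induction on `n`).
`Lam_om_pow`: induction on `k`.  `prim_van`: by `ip_om` and `Lam_om_pow` with `k = N - 2 a`,
`ip (om^(k+1) y) (om^(k+1) y) = ip (om^k y) (Lam (om^(k+1) y)) = 0`; `ip_pos`.
`lefschetz`: induction on `n`; write `Lam x = ∑ om^j y_j` with `y_j` primitive of degree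
`n - 1 - j`, put `x_(j+1) = c_j⁻¹ y_j` with `c_j = (j+1) (N - 2 (n-1-j) - j) > 0` and
`x_0 = x - ∑ om^(j+1) x_(j+1)`.
-/

namespace Pool.Agent.Work.MP_ffcd14_ag.Tr

variable {ι : Type} [Fintype ι] [DecidableEq ι]

omit [Fintype ι] [DecidableEq ι] in
theorem de_ι_mul (i : ι) (v : VV ι) (y : Ex ι) :
    de i (ExteriorAlgebra.ι ℝ v * y) = v.1 i • y - ExteriorAlgebra.ι ℝ v * de i y :=
  CliffordAlgebra.contractLeft_ι_mul _ v y

omit [Fintype ι] [DecidableEq ι] in
theorem df_ι_mul (i : ι) (v : VV ι) (y : Ex ι) :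
    df i (ExteriorAlgebra.ι ℝ v * y) = v.2 i • y - ExteriorAlgebra.ι ℝ v * df i y :=
  CliffordAlgebra.contractLeft_ι_mul _ v y

/-- The degree operator. -/
theorem deg_op {n : ℕ} {x : Ex ι} (hx : x ∈ ⋀[ℝ]^n (VV ι)) :
    ∑ i, (ExteriorAlgebra.ι ℝ ((Pi.single i 1, 0) : VV ι) * de i x +
      ExteriorAlgebra.ι ℝ ((0, Pi.single i 1) : VV ι) * df i x) = (n : ℝ) • x := by
  induction hx using Submodule.pow_induction_on_left' with
  | algebraMap r =>
    have h1 (i : ι) : de i (algebraMap ℝ (Ex ι) r) = 0 := CliffordAlgebra.contractLeft_algebraMap _ _ r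
    have h2 (i : ι) : df i (algebraMap ℝ (Ex ι) r) = 0 := CliffordAlgebra.contractLeft_algebraMap _ _ r
    simp [h1, h2]
  | add x y n _ _ ihx ihy =>
    rw [smul_add, ← ihx, ← ihy, ← Finset.sum_add_distrib]
    refine Finset.sum_congr rfl fun i _ => ?_
    simp only [map_add, mul_add]
    abel
  | mem_mul m hm n x _ ih =>
    obtain ⟨v, rfl⟩ := hm
    have sw (w : VV ι) (z : Ex ι) : ExteriorAlgebra.ι ℝ w * (ExteriorAlgebra.ι ℝ v * z) =
        -(ExteriorAlgebra.ι ℝ v * (ExteriorAlgebra.ι ℝ w * z)) := by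
      rw [← mul_assoc, eq_neg_of_add_eq_zero_left (ExteriorAlgebra.ι_add_mul_swap w v), neg_mul, mul_assoc]
    have hv : ∑ i, (v.1 i • ((Pi.single i 1, 0) : VV ι) + v.2 i • ((0, Pi.single i 1) : VV ι)) = v := by
      ext j <;> simp [Prod.fst_sum, Prod.snd_sum, Finset.sum_apply, Pi.single_apply]
    have e : ∀ i, ExteriorAlgebra.ι ℝ ((Pi.single i 1, 0) : VV ι) * de i (ExteriorAlgebra.ι ℝ v * x) +
        ExteriorAlgebra.ι ℝ ((0, Pi.single i 1) : VV ι) * df i (ExteriorAlgebra.ι ℝ v * x) =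
        ExteriorAlgebra.ι ℝ (v.1 i • ((Pi.single i 1, 0) : VV ι) + v.2 i • ((0, Pi.single i 1) : VV ι)) * x +
        ExteriorAlgebra.ι ℝ v * (ExteriorAlgebra.ι ℝ ((Pi.single i 1, 0) : VV ι) * de i x +
          ExteriorAlgebra.ι ℝ ((0, Pi.single i 1) : VV ι) * df i x) := fun i => by
      rw [de_ι_mul, df_ι_mul, mul_sub, mul_sub, sw, sw, map_add, map_smul, map_smul, add_mul, smul_mul_assoc,
        smul_mul_assoc, mul_smul_comm, mul_smul_comm, mul_add]
      abel
    simp only [e]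
    rw [Finset.sum_add_distrib, ← Finset.sum_mul, ← map_sum, hv, ← Finset.mul_sum, ih, mul_smul_comm,
      Nat.cast_succ, add_smul, one_smul, add_comm]

omit [Fintype ι] in
theorem dd_sq (i j : ι) (x : Ex ι) :
    df i (de i (ExteriorAlgebra.ι ℝ ((Pi.single j 1, 0) : VV ι) * ExteriorAlgebra.ι ℝ ((0, Pi.single j 1) : VV ι) * x))
      = ExteriorAlgebra.ι ℝ ((Pi.single j 1, 0) : VV ι) * ExteriorAlgebra.ι ℝ ((0, Pi.single j 1) : VV ι) *
        df i (de i x) + if j = i then x - (ExteriorAlgebra.ι ℝ ((Pi.single i 1, 0) : VV ι) * de i x +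
          ExteriorAlgebra.ι ℝ ((0, Pi.single i 1) : VV ι) * df i x) else 0 := by
  simp only [mul_assoc, de_ι_mul, df_ι_mul, map_sub, map_smul, mul_sub, Pi.zero_apply, zero_smul, zero_sub,
    mul_neg, map_neg, mul_smul_comm]
  split_ifs with h
  · subst h
    simp only [Pi.single_eq_same, one_smul]
    abel
  · simp [Pi.single_eq_of_ne' h]

theorem Lam_om {a : ℕ} {x : Ev ι} (hx : x ∈ dgr ι a) :
    Lam ι (om ι * x) = om ι * Lam ι x + ((Fintype.card ι : ℝ) - 2 * a) • x := by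
  have h := deg_op (x := Ev.val x) hx
  refine Ev.ext ?_
  simp only [Lam, om, LinearMap.sum_apply, map_sum, val_dd, map_add, map_mul, map_smul, Finset.sum_mul,
    Finset.mul_sum, sq, val_bb, dd_sq, Finset.sum_add_distrib, Finset.sum_ite_eq, Finset.mem_univ, if_true,
    Finset.sum_sub_distrib] at h ⊢
  rw [h, Finset.sum_const, Finset.card_univ, sub_smul, Nat.cast_mul, Nat.cast_ofNat, Nat.cast_smul_eq_nsmul,
    Finset.sum_comm]

theorem om_pow_Sy (k : ℕ) : om ι ^ k ∈ Sy ι k := by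
  induction k with
  | zero => rw [pow_zero]; exact mem_Sy.2 ⟨one_dgr, map_one _⟩
  | succ k ih => rw [pow_succ]; exact mul_Sy ih om_Sy

theorem Lam_om_pow {a : ℕ} {x : Ev ι} (hx : x ∈ dgr ι a) (k : ℕ) :
    Lam ι (om ι ^ (k + 1) * x) = om ι ^ (k + 1) * Lam ι x +
      (((k : ℝ) + 1) * ((Fintype.card ι : ℝ) - 2 * a - k)) • (om ι ^ k * x) := by
  induction k with
  | zero => simpa using Lam_om hx
  | succ k ih =>
    have h := Lam_om (mul_dgr (om_pow_Sy (k + 1)).1 hx)
    rw [pow_succ' (om ι) (k + 1), mul_assoc, h, ih, mul_add, mul_smul_comm, ← mul_assoc, ← mul_assoc,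
      ← pow_succ' (om ι) k, add_assoc, ← add_smul]
    congr 2
    push_cast
    ring

theorem prim_van {a : ℕ} {y : Ev ι} (hy : y ∈ dgr ι a) (h0 : Lam ι y = 0)
    (ha : 2 * a ≤ Fintype.card ι) : om ι ^ (Fintype.card ι - 2 * a + 1) * y = 0 := by
  have h := Lam_om_pow hy (Fintype.card ι - 2 * a)
  rw [h0, mul_zero, zero_add, Nat.cast_sub ha, Nat.cast_mul, Nat.cast_ofNat, sub_self, mul_zero, zero_smul] at h
  by_contra hc
  have h1 := ip_pos (x := Ev.val (om ι ^ (Fintype.card ι - 2 * a + 1) * y)) fun h2 =>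
    hc (Ev.ext (h2.trans (map_zero _).symm))
  have h2 := ip_om (om ι ^ (Fintype.card ι - 2 * a) * y) (om ι ^ (Fintype.card ι - 2 * a + 1) * y)
  rw [h, map_zero, map_zero, ← mul_assoc, ← pow_succ'] at h2
  exact h1.ne' h2

/-- The Lefschetz decomposition inside a subspace which is stable under the two operators. -/
theorem lefschetz (S : Submodule ℝ (Ev ι)) (h1 : ∀ y ∈ S, om ι * y ∈ S)
    (h2 : ∀ y ∈ S, Lam ι y ∈ S) (n : ℕ) (hn : 2 * n ≤ Fintype.card ι) {x : Ev ι}
    (hx : x ∈ Sy ι n) (hS : x ∈ S) : ∃ y : ℕ → Ev ι, x = ∑ j ∈ Finset.range (n + 1), om ι ^ j * y j ∧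
      ∀ j ≤ n, y j ∈ S ∧ y j ∈ Sy ι (n - j) ∧ Lam ι (y j) = 0 := by
  have hp : ∀ k, ∀ y ∈ S, om ι ^ k * y ∈ S := fun k y hy => by
    induction k with
    | zero => simpa using hy
    | succ k ih => rw [pow_succ', mul_assoc]; exact h1 _ ih
  induction n generalizing x with
  | zero =>
    refine ⟨fun _ => x, by simp, fun j hj => ?_⟩
    obtain rfl : j = 0 := by omega
    exact ⟨hS, hx, Lam_zero hx.1⟩
  | succ n ih =>
    obtain ⟨y, e, hy⟩ := ih (by omega) (Lam_Sy hx) (h2 x hS)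
    let c : ℕ → ℝ := fun j => ((j : ℝ) + 1) * ((Fintype.card ι : ℝ) - 2 * (n - j : ℕ) - j)
    have hc : ∀ j ≤ n, c j ≠ 0 := fun j hj => by
      have : ((2 * (n + 1) : ℕ) : ℝ) ≤ Fintype.card ι := Nat.cast_le.2 hn
      have h3 : (0 : ℝ) ≤ j := Nat.cast_nonneg j
      push_cast at this
      refine mul_ne_zero (by positivity) (ne_of_gt ?_)
      rw [Nat.cast_sub hj]
      linarith
    refine ⟨fun j => Nat.rec (x - ∑ j ∈ Finset.range (n + 1), om ι ^ (j + 1) * ((c j)⁻¹ • y j))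
      (fun j _ => (c j)⁻¹ • y j) j, ?_, fun j hj => ?_⟩
    · rw [Finset.sum_range_succ']
      simp
    · obtain _ | j := j
      · refine ⟨S.sub_mem hS (S.sum_mem fun j hj => hp _ _ (S.smul_mem _ (hy j ?_).1)),
          Submodule.sub_mem _ hx (Submodule.sum_mem _ fun j hj => ?_), ?_⟩
        · exact Nat.lt_succ_iff.1 (Finset.mem_range.1 hj)
        · have h3 := Nat.lt_succ_iff.1 (Finset.mem_range.1 hj)
          have := mul_Sy (om_pow_Sy (j + 1)) (Submodule.smul_mem _ (c j)⁻¹ (hy j h3).2.1)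
          rwa [show j + 1 + (n - j) = n + 1 - 0 by omega] at this
        · show Lam ι (x - ∑ j ∈ Finset.range (n + 1), om ι ^ (j + 1) * ((c j)⁻¹ • y j)) = 0
          rw [map_sub, e, map_sum, sub_eq_zero]
          refine Finset.sum_congr rfl fun j hj => ?_
          have h3 := Nat.lt_succ_iff.1 (Finset.mem_range.1 hj)
          rw [mul_smul_comm, map_smul, Lam_om_pow (hy j h3).2.1.1, (hy j h3).2.2, mul_zero, zero_add, smul_smul,
            inv_mul_cancel₀ (hc j h3), one_smul]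
      · have h3 := hy j (by omega)
        refine ⟨S.smul_mem _ h3.1, ?_, ?_⟩
        · rw [Nat.add_sub_add_right]
          exact Submodule.smul_mem _ _ h3.2.1
        · show Lam ι ((c j)⁻¹ • y j) = 0
          rw [map_smul, h3.2.2, smul_zero]

end Pool.Agent.Work.MP_ffcd14_ag.Tr
end

-- merged part: Pool.Agent.Work.MP_ffcd14_ag.Tr.L5X
section
/-!
# Helper lemmas for the integral: contractions on the exterior algebra
-/

namespace Pool.Agent.Work.MP_ffcd14_ag.Tr

open ExteriorAlgebra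

variable {ι ι' : Type}

theorem x5_ct_ι_mul (d : Module.Dual ℝ (VV ι)) (a : VV ι) (b : Ex ι) :
    CliffordAlgebra.contractLeft d (ExteriorAlgebra.ι ℝ a * b) =
      d a • b - ExteriorAlgebra.ι ℝ a * CliffordAlgebra.contractLeft d b :=
  CliffordAlgebra.contractLeft_ι_mul d a b

theorem x5_ct_one (d : Module.Dual ℝ (VV ι)) :
    CliffordAlgebra.contractLeft d (1 : Ex ι) = 0 :=
  CliffordAlgebra.contractLeft_one _ d

theorem x5_ct_ι (d : Module.Dual ℝ (VV ι)) (a : VV ι) :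
    CliffordAlgebra.contractLeft d (ExteriorAlgebra.ι ℝ a : Ex ι) = algebraMap ℝ (Ex ι) (d a) :=
  CliffordAlgebra.contractLeft_ι _ d a

/-- A contraction is a derivation when the left factor is even. -/
theorem x5_ct_evn_mul (d : Module.Dual ℝ (VV ι)) {x : Ex ι} (hx : x ∈ evn ι) (y : Ex ι) :
    CliffordAlgebra.contractLeft d (x * y) =
      CliffordAlgebra.contractLeft d x * y + x * CliffordAlgebra.contractLeft d y := by
  have hx' : x ∈ CliffordAlgebra.evenOdd (0 : QuadraticForm ℝ (VV ι)) 0 := hx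
  clear hx
  induction x, hx' using CliffordAlgebra.even_induction with
  | algebraMap r =>
    rw [CliffordAlgebra.contractLeft_algebraMap_mul, CliffordAlgebra.contractLeft_algebraMap,
      zero_mul, zero_add]
  | add x y _ _ ihx ihy =>
    rw [add_mul, map_add, map_add, ihx, ihy, add_mul, add_mul]
    abel
  | ι_mul_ι_mul a b x _ ih =>
    simp only [mul_assoc, CliffordAlgebra.contractLeft_ι_mul, ih, mul_add, sub_mul, mul_sub,
      smul_mul_assoc, mul_smul_comm]
    abel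

/-- Contraction after a pull-back. -/
theorem x5_ct_map (τ : VV ι →ₗ[ℝ] VV ι') (d : Module.Dual ℝ (VV ι')) (x : Ex ι) :
    CliffordAlgebra.contractLeft d (ExteriorAlgebra.map τ x) =
      ExteriorAlgebra.map τ (CliffordAlgebra.contractLeft (d ∘ₗ τ) x) := by
  induction x using CliffordAlgebra.left_induction with
  | algebraMap r =>
    rw [CliffordAlgebra.contractLeft_algebraMap, map_zero]
    erw [AlgHom.commutes]
    exact CliffordAlgebra.contractLeft_algebraMap _ _ _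
  | add x y hx hy => rw [map_add, map_add, map_add, map_add, hx, hy]
  | ι_mul x a hx =>
    have h1 : ExteriorAlgebra.map τ (ExteriorAlgebra.ι ℝ a * x) =
        ExteriorAlgebra.ι ℝ (τ a) * ExteriorAlgebra.map τ x := by
      rw [map_mul, ExteriorAlgebra.map_apply_ι]
    have h2 := x5_ct_ι_mul (d ∘ₗ τ) a x
    change CliffordAlgebra.contractLeft d (ExteriorAlgebra.map τ (ExteriorAlgebra.ι ℝ a * x)) =
      ExteriorAlgebra.map τ (CliffordAlgebra.contractLeft (d ∘ₗ τ) (ExteriorAlgebra.ι ℝ a * x))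
    rw [h1, h2, x5_ct_ι_mul, hx, map_sub, map_smul, map_mul, ExteriorAlgebra.map_apply_ι]
    rfl

theorem x5_ct_pow (d : Module.Dual ℝ (VV ι)) (n : ℕ) {x : Ex ι} (hx : x ∈ ⋀[ℝ]^n (VV ι)) :
    (n = 0 → CliffordAlgebra.contractLeft d x = 0) ∧
    (∀ m, n = m + 1 → CliffordAlgebra.contractLeft d x ∈ ⋀[ℝ]^m (VV ι)) := by
  induction hx using Submodule.pow_induction_on_left' with
  | algebraMap r =>
    refine ⟨fun _ => CliffordAlgebra.contractLeft_algebraMap _ _ _, fun m hm => by omega⟩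
  | add x y i _ _ ihx ihy =>
    refine ⟨fun h => by rw [map_add, ihx.1 h, ihy.1 h, add_zero], fun m hm => ?_⟩
    rw [map_add]
    exact add_mem (ihx.2 m hm) (ihy.2 m hm)
  | mem_mul a ha i x hx ih =>
    obtain ⟨a, rfl⟩ := ha
    refine ⟨fun h => by omega, fun m hm => ?_⟩
    obtain rfl : i = m := by omega
    rw [x5_ct_ι_mul]
    refine sub_mem (Submodule.smul_mem _ _ hx) ?_
    rcases i with _ | i
    · rw [ih.1 rfl, mul_zero]
      exact zero_mem _
    · have := ih.2 i rfl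
      change _ ∈ LinearMap.range (ExteriorAlgebra.ι ℝ (M := VV ι)) ^ (i + 1)
      rw [pow_succ' (LinearMap.range (ExteriorAlgebra.ι ℝ (M := VV ι)))]
      exact Submodule.mul_mem_mul (LinearMap.mem_range_self _ a) this

theorem x5_inv_pow (n : ℕ) {x : Ex ι} (hx : x ∈ ⋀[ℝ]^n (VV ι)) (hn : n ≠ 0) :
    ExteriorAlgebra.algebraMapInv x = 0 := by
  induction hx using Submodule.pow_induction_on_left' with
  | algebraMap r => exact absurd rfl hn
  | add x y i _ _ ihx ihy => rw [map_add, ihx hn, ihy hn, add_zero]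
  | mem_mul a ha i x hx ih =>
    obtain ⟨a, rfl⟩ := ha
    rw [map_mul]
    have : ExteriorAlgebra.algebraMapInv (ExteriorAlgebra.ι ℝ a : Ex ι) = 0 := by
      simp [ExteriorAlgebra.algebraMapInv]
    rw [this, zero_mul]

theorem x5_inv_map (τ : VV ι →ₗ[ℝ] VV ι') (x : Ex ι) :
    ExteriorAlgebra.algebraMapInv (ExteriorAlgebra.map τ x) = ExteriorAlgebra.algebraMapInv x := by
  have : (ExteriorAlgebra.algebraMapInv : Ex ι' →ₐ[ℝ] ℝ).comp (ExteriorAlgebra.map τ) =
      ExteriorAlgebra.algebraMapInv := by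
    refine ExteriorAlgebra.hom_ext (LinearMap.ext fun a => ?_)
    simp [ExteriorAlgebra.algebraMapInv]
  exact DFunLike.congr_fun this x

theorem x5_eps_mapV (τ : VV ι →ₗ[ℝ] VV ι') (x : Ev ι) : eps (mapV τ x) = eps x :=
  x5_inv_map τ (Ev.val x)

section Fin

variable [Fintype ι]

/-- The operator `Lam` on the whole exterior algebra. -/
noncomputable def x5L (ι : Type) [Fintype ι] : Ex ι →ₗ[ℝ] Ex ι := ∑ i, df i ∘ₗ de i

theorem x5_val_Lam (x : Ev ι) : Ev.val (Lam ι x) = x5L ι (Ev.val x) := by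
  simp only [Lam, x5L, LinearMap.sum_apply, map_sum, val_dd, LinearMap.comp_apply]

theorem x5_val_Lam_pow (k : ℕ) (x : Ev ι) : Ev.val ((Lam ι ^ k) x) = (x5L ι ^ k) (Ev.val x) := by
  induction k with
  | zero => simp
  | succ k ih => rw [pow_succ', pow_succ', Module.End.mul_apply, Module.End.mul_apply,
      x5_val_Lam, ih]

theorem x5L_pow (n : ℕ) {x : Ex ι} (hx : x ∈ ⋀[ℝ]^n (VV ι)) :
    (n < 2 → x5L ι x = 0) ∧ (∀ m, n = m + 2 → x5L ι x ∈ ⋀[ℝ]^m (VV ι)) := by
  simp only [x5L, LinearMap.sum_apply, LinearMap.comp_apply]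
  constructor
  · intro hn
    refine Finset.sum_eq_zero fun i _ => ?_
    rcases n with _ | n
    · rw [de, (x5_ct_pow _ _ hx).1 rfl, map_zero]
    · obtain rfl : n = 0 := by omega
      exact (x5_ct_pow _ _ ((x5_ct_pow _ _ hx).2 0 rfl)).1 rfl
  · rintro m rfl
    refine Submodule.sum_mem _ fun i _ => ?_
    exact (x5_ct_pow _ _ ((x5_ct_pow _ _ hx).2 (m + 1) rfl)).2 m rfl

theorem x5L_pow_inv (k n : ℕ) {x : Ex ι} (hx : x ∈ ⋀[ℝ]^n (VV ι)) (hn : n ≠ 2 * k) :
    ExteriorAlgebra.algebraMapInv ((x5L ι ^ k) x) = 0 := by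
  induction k generalizing n x with
  | zero => exact x5_inv_pow n hx hn
  | succ k ih =>
    rw [pow_succ, Module.End.mul_apply]
    by_cases h : n < 2
    · rw [(x5L_pow n hx).1 h, map_zero, map_zero]
    · obtain ⟨m, rfl⟩ : ∃ m, n = m + 2 := ⟨n - 2, by omega⟩
      exact ih m ((x5L_pow _ hx).2 m rfl) (by omega)

/-- The integral on the whole exterior algebra. -/
noncomputable def x5I (ι : Type) [Fintype ι] : Ex ι →ₗ[ℝ] ℝ :=
  ((Fintype.card ι).factorial : ℝ)⁻¹ •
    ((ExteriorAlgebra.algebraMapInv : Ex ι →ₐ[ℝ] ℝ).toLinearMap ∘ₗ x5L ι ^ Fintype.card ι)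

theorem x5_int_apply (x : Ev ι) :
    int ι x = ((Fintype.card ι).factorial : ℝ)⁻¹ * eps ((Lam ι ^ Fintype.card ι) x) := rfl

theorem x5_int_eq (x : Ev ι) : int ι x = x5I ι (Ev.val x) := by
  rw [x5_int_apply, x5I, LinearMap.smul_apply, LinearMap.comp_apply, ← x5_val_Lam_pow]
  rfl

theorem x5I_pow (n : ℕ) {x : Ex ι} (hx : x ∈ ⋀[ℝ]^n (VV ι)) (hn : n ≠ 2 * Fintype.card ι) :
    x5I ι x = 0 := by
  rw [x5I, LinearMap.smul_apply, LinearMap.comp_apply, AlgHom.toLinearMap_apply,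
    x5L_pow_inv _ n hx hn, smul_zero]

theorem x5I_map (τ : VV ι →ₗ[ℝ] VV ι) (x : Ex ι) :
    x5I ι (ExteriorAlgebra.map τ x) = LinearMap.det τ * x5I ι x := by
  have : x5I ι ∘ₗ (ExteriorAlgebra.map τ).toLinearMap = LinearMap.det τ • x5I ι := by
    refine ExteriorAlgebra.lhom_ext fun n => AlternatingMap.ext fun v => ?_
    simp only [LinearMap.compAlternatingMap_apply, LinearMap.comp_apply, AlgHom.toLinearMap_apply,
      ExteriorAlgebra.map_apply_ιMulti, LinearMap.smul_apply, smul_eq_mul]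
    by_cases hn : n = 2 * Fintype.card ι
    · have hr : Module.finrank ℝ (VV ι) = n := by
        rw [hn, Module.finrank_prod, Module.finrank_fintype_fun_eq_card, two_mul]
      let b := Module.finBasisOfFinrankEq ℝ (VV ι) hr
      have h := AlternatingMap.eq_smul_basis_det b
        ((x5I ι).compAlternatingMap (ExteriorAlgebra.ιMulti ℝ n))
      have h1 := DFunLike.congr_fun h (τ ∘ v)
      have h2 := DFunLike.congr_fun h v
      simp only [LinearMap.compAlternatingMap_apply, AlternatingMap.smul_apply, smul_eq_mul,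
        Module.Basis.det_comp] at h1 h2
      rw [h1, h2]
      ring
    · rw [x5I_pow n (ExteriorAlgebra.ιMulti_range ℝ n ⟨_, rfl⟩) hn,
        x5I_pow n (ExteriorAlgebra.ιMulti_range ℝ n ⟨_, rfl⟩) hn, mul_zero]
  exact DFunLike.congr_fun this x

end Fin

/-- `y` does not involve the variable `i`. -/
def x5Fr (i : ι) (y : Ev ι) : Prop := de i (Ev.val y) = 0 ∧ df i (Ev.val y) = 0

theorem x5Fr_one (i : ι) : x5Fr i (1 : Ev ι) := by
  rw [x5Fr, map_one]
  exact ⟨x5_ct_one _, x5_ct_one _⟩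

theorem x5Fr_mul {i : ι} {x y : Ev ι} (hx : x5Fr i x) (hy : x5Fr i y) : x5Fr i (x * y) := by
  obtain ⟨h1, h2⟩ := hx
  obtain ⟨h3, h4⟩ := hy
  rw [de] at h1 h3
  rw [df] at h2 h4
  constructor
  · rw [map_mul, de, x5_ct_evn_mul _ x.mem, h1, h3, zero_mul, mul_zero, add_zero]
  · rw [map_mul, df, x5_ct_evn_mul _ x.mem, h2, h4, zero_mul, mul_zero, add_zero]

theorem x5Fr_bb {i : ι} {n n' : ι → ℝ} (h : n i = 0) (h' : n' i = 0) : x5Fr i (bb n n') := by
  constructor
  · rw [val_bb, de, x5_ct_ι_mul, x5_ct_ι]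
    simp [h]
  · rw [val_bb, df, x5_ct_ι_mul, x5_ct_ι]
    simp [h']

theorem x5_dd_mul {i : ι} {x : Ev ι} (hx : x5Fr i x) (y : Ev ι) : dd i (x * y) = x * dd i y := by
  obtain ⟨h1, h2⟩ := hx
  rw [de] at h1
  rw [df] at h2
  refine Ev.ext ?_
  rw [val_dd, map_mul Ev.val, map_mul Ev.val, val_dd, de, df, x5_ct_evn_mul _ x.mem, h1, zero_mul, zero_add,
    x5_ct_evn_mul _ x.mem, h2, zero_mul, zero_add]

theorem x5_dd_Fr {i : ι} {x : Ev ι} (hx : x5Fr i x) : dd i x = 0 := by
  refine Ev.ext ?_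
  rw [val_dd, hx.1, map_zero, map_zero]

theorem x5_dd_bb (i : ι) (n n' : ι → ℝ) : dd i (bb n n') = algebraMap ℝ _ (n i * n' i) := by
  refine Ev.ext ?_
  rw [val_dd, val_bb, de, df, x5_ct_ι_mul, x5_ct_ι, AlgHom.commutes, map_sub, map_smul, x5_ct_ι]
  simp [Algebra.smul_def]

theorem x5_dd_comm (i j : ι) : Commute (dd i : Module.End ℝ (Ev ι)) (dd j) := by
  refine LinearMap.ext fun x => Ev.ext ?_
  simp only [Module.End.mul_apply, val_dd, de, df]
  generalize Ev.val x = y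
  generalize (LinearMap.proj i).comp (LinearMap.fst ℝ (ι → ℝ) (ι → ℝ)) = a
  generalize (LinearMap.proj j).comp (LinearMap.fst ℝ (ι → ℝ) (ι → ℝ)) = b
  generalize (LinearMap.proj i).comp (LinearMap.snd ℝ (ι → ℝ) (ι → ℝ)) = c
  generalize (LinearMap.proj j).comp (LinearMap.snd ℝ (ι → ℝ) (ι → ℝ)) = d
  rw [CliffordAlgebra.contractLeft_comm a d, map_neg, CliffordAlgebra.contractLeft_comm c d,
    CliffordAlgebra.contractLeft_comm b c, CliffordAlgebra.contractLeft_comm a b]
  simp only [map_neg, neg_neg]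

theorem x5_dd_sq (i : ι) : (dd i : Module.End ℝ (Ev ι)) ^ 2 = 0 := by
  refine LinearMap.ext fun x => Ev.ext ?_
  simp only [pow_two, Module.End.mul_apply, val_dd, de, df, LinearMap.zero_apply, map_zero]
  rw [CliffordAlgebra.contractLeft_comm ((LinearMap.proj i).comp (LinearMap.fst ℝ (ι → ℝ) (ι → ℝ)))
    ((LinearMap.proj i).comp (LinearMap.snd ℝ (ι → ℝ) (ι → ℝ))), map_neg,
    CliffordAlgebra.contractLeft_contractLeft, neg_zero]

theorem x5_sum_dd_pow [DecidableEq ι] (s : Finset ι) :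
    (∑ i ∈ s, dd i : Module.End ℝ (Ev ι)) ^ (s.card + 1) = 0 := by
  induction s using Finset.induction_on with
  | empty => simp
  | insert i s hi ih =>
    rw [Finset.sum_insert hi, Finset.card_insert_of_notMem hi]
    exact Commute.add_pow_eq_zero_of_add_le_succ_of_pow_eq_zero
      (Commute.sum_right _ _ _ fun j _ => x5_dd_comm i j) (x5_dd_sq i) ih (by omega)

theorem x5_Lam_pow_zero [Fintype ι] {k : ℕ} (hk : Fintype.card ι < k) : Lam ι ^ k = 0 := by
  classical
  exact pow_eq_zero_of_le hk (x5_sum_dd_pow Finset.univ)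

/-- Powers of a sum of elements of square zero. -/
theorem x5_sum_pow {R κ : Type} [CommRing R] [DecidableEq κ] (x : κ → R) (hx : ∀ i, x i * x i = 0)
    (s : Finset κ) : (∑ i ∈ s, x i) ^ s.card = (s.card.factorial : R) * ∏ i ∈ s, x i ∧
      (∑ i ∈ s, x i) ^ (s.card + 1) = 0 := by
  have key (a b : R) (ha : a * a = 0) (k : ℕ) :
      (a + b) ^ (k + 1) = b ^ (k + 1) + (k + 1 : ℕ) * a * b ^ k := by
    induction k with
    | zero => simp [add_comm]
    | succ k ih =>
      rw [pow_succ (a + b), ih]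
      push_cast
      linear_combination ((k : R) + 1) * b ^ k * ha
  induction s using Finset.induction_on with
  | empty => simp
  | insert i s hi ih =>
    rw [Finset.sum_insert hi, Finset.card_insert_of_notMem hi, Finset.prod_insert hi, key _ _ (hx i),
      key _ _ (hx i), pow_succ _ (s.card + 1), ih.1, ih.2, Nat.factorial_succ]
    push_cast
    constructor <;> ring

section Up

variable [Fintype ι] [DecidableEq ι']

theorem x5_pb_apply (r : ι → ι') (v : ι → ℝ) (j : ι') :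
    pb r v j = ∑ i, if r i = j then v i else 0 := by
  simp only [pb, LinearMap.sum_apply, LinearMap.comp_apply, LinearMap.proj_apply,
    LinearMap.single_apply, Finset.sum_apply, Pi.single_apply, eq_comm]

theorem x5_pb_inj {r : ι → ι'} (hr : Function.Injective r) (v : ι → ℝ) (i : ι) :
    pb r v (r i) = v i := by
  classical
  rw [x5_pb_apply, Finset.sum_eq_single i]
  · rw [if_pos rfl]
  · intro j _ hj
    rw [if_neg fun h => hj (hr h)]
  · intro h
    exact absurd (Finset.mem_univ i) h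

theorem x5_pb_out {r : ι → ι'} {j : ι'} (hj : ∀ i, r i ≠ j) (v : ι → ℝ) : pb r v j = 0 := by
  rw [x5_pb_apply]
  exact Finset.sum_eq_zero fun i _ => if_neg (hj i)

theorem x5_val_up (r : ι → ι') (x : Ev ι) :
    Ev.val (up r x) = ExteriorAlgebra.map ((pb r).prodMap (pb r)) (Ev.val x) := rfl

theorem x5_dd_up {r : ι → ι'} (hr : Function.Injective r) (i : ι) (x : Ev ι) :
    dd (r i) (up r x) = up r (dd i x) := by
  refine Ev.ext ?_
  have h1 : ((LinearMap.proj (r i)).comp (LinearMap.fst ℝ (ι' → ℝ) (ι' → ℝ))) ∘ₗ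
      (pb r).prodMap (pb r) = (LinearMap.proj i).comp (LinearMap.fst ℝ (ι → ℝ) (ι → ℝ)) :=
    LinearMap.ext fun v => x5_pb_inj hr v.1 i
  have h2 : ((LinearMap.proj (r i)).comp (LinearMap.snd ℝ (ι' → ℝ) (ι' → ℝ))) ∘ₗ
      (pb r).prodMap (pb r) = (LinearMap.proj i).comp (LinearMap.snd ℝ (ι → ℝ) (ι → ℝ)) :=
    LinearMap.ext fun v => x5_pb_inj hr v.2 i
  rw [val_dd, x5_val_up, x5_val_up, val_dd, de, df, de, df, x5_ct_map, x5_ct_map, h1, h2]

theorem x5Fr_up {r : ι → ι'} {j : ι'} (hj : ∀ i, r i ≠ j) (x : Ev ι) : x5Fr j (up r x) := by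
  have h1 : ((LinearMap.proj j).comp (LinearMap.fst ℝ (ι' → ℝ) (ι' → ℝ))) ∘ₗ
      (pb r).prodMap (pb r) = 0 := LinearMap.ext fun v => x5_pb_out hj v.1
  have h2 : ((LinearMap.proj j).comp (LinearMap.snd ℝ (ι' → ℝ) (ι' → ℝ))) ∘ₗ
      (pb r).prodMap (pb r) = 0 := LinearMap.ext fun v => x5_pb_out hj v.2
  constructor
  · rw [x5_val_up, de, x5_ct_map, h1, map_zero, LinearMap.zero_apply, map_zero]
  · rw [x5_val_up, df, x5_ct_map, h2, map_zero, LinearMap.zero_apply, map_zero]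

theorem x5_eps_up (r : ι → ι') (x : Ev ι) : eps (up r x) = eps x := x5_eps_mapV _ x

end Up

end Pool.Agent.Work.MP_ffcd14_ag.Tr
end

-- merged part: Pool.Agent.Work.MP_ffcd14_ag.Tr.L5
section
/-!
# The integral

Plan.  `int_dgr`: `Lam` lowers the degree (`dd_dgr`, `dd_dgr_zero`), `eps` kills positive degrees.
`int_std`: `dd i (∏_(j ∈ s) sq δ_j) = if i ∈ s then ∏_(s.erase i) else 0`, induction on `card s`.
`int_mapV`: extend `int` to a linear form `I` on `Ex ι` (same formula).  `I ∘ ιMulti` is an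
alternating map in `m` variables; it vanishes unless `m = 2 N`, and then it is a multiple of the
determinant in a basis of `VV ι` indexed by `Fin (2 N)` (`AlternatingMap.eq_smul_basis_det`,
`Module.Basis.det_comp`); conclude by `ExteriorAlgebra.lhom_ext` or `ιMulti_span`.
`int_mp`: `LinearMap.det_prodMap`.  `int_prod_bb`: the product is the image of `∏ sq δ_i` under
`mapV (σ.prodMap σ')`, `σ δ_i = n (e.symm i)`.  `int_up_equiv`: `up e` intertwines `dd i` and
`dd (e i)`.  `int_up_mul` (Fubini): `dd (f i)` commutes with the multiplication by `up f' b` and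
`dd (f i) (up f a) = up f (dd i a)`; so `Lam'' = L₁ + L₂` on such products, use the binomial
formula and `Lam^(N+1) = 0`; or use that `Lam^N = N! ∏ dd i`.  `int_Mon`: `exists_of_Mon`, then
`int_dgr` or `int_prod_bb`.
-/

namespace Pool.Agent.Work.MP_ffcd14_ag.Tr

variable {ι ι' ι'' : Type} [Fintype ι] [DecidableEq ι] [Fintype ι'] [DecidableEq ι']
  [Fintype ι''] [DecidableEq ι'']

set_option linter.unusedSectionVars false

theorem int_dgr {a : ℕ} {x : Ev ι} (hx : x ∈ dgr ι a) (ha : a ≠ Fintype.card ι) :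
    int ι x = 0 := by
  rw [x5_int_eq]
  exact x5I_pow (2 * a) hx (by omega)

theorem x5Fr_prod {i : ι} {s : Finset ι} (hi : i ∉ s) :
    x5Fr i (∏ j ∈ s, sq (Pi.single j 1) : Ev ι) := by
  refine Finset.prod_induction _ (x5Fr i) (fun _ _ => x5Fr_mul) (x5Fr_one i) fun j hj => ?_
  have h : (Pi.single j 1 : ι → ℝ) i = 0 :=
    Pi.single_eq_of_ne (fun h : i = j => hi (h ▸ hj)) _
  exact x5Fr_bb h h

theorem x5_Lam_prod (s : Finset ι) : Lam ι (∏ j ∈ s, sq (Pi.single j 1)) =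
    ∑ i ∈ s, ∏ j ∈ s.erase i, sq (Pi.single j 1) := by
  rw [Lam, LinearMap.sum_apply, ← Finset.sum_subset (Finset.subset_univ s)]
  · refine Finset.sum_congr rfl fun i hi => ?_
    rw [← Finset.prod_erase_mul _ _ hi, x5_dd_mul (x5Fr_prod (Finset.notMem_erase i s)), sq,
      x5_dd_bb]
    simp
  · intro i _ hi
    exact x5_dd_Fr (x5Fr_prod hi)

theorem x5_Lam_pow_prod (k : ℕ) (s : Finset ι) (hs : s.card = k) :
    eps ((Lam ι ^ k) (∏ j ∈ s, sq (Pi.single j 1))) = k.factorial := by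
  induction k generalizing s with
  | zero =>
    obtain rfl := Finset.card_eq_zero.mp hs
    simp
  | succ k ih =>
    rw [pow_succ, Module.End.mul_apply, x5_Lam_prod, map_sum, map_sum,
      Finset.sum_congr rfl fun i hi => ih (s.erase i) (by rw [Finset.card_erase_of_mem hi, hs]; rfl),
      Finset.sum_const, hs, Nat.factorial_succ]
    simp

theorem int_std : int ι (∏ i, sq (Pi.single i 1)) = 1 := by
  rw [x5_int_apply, x5_Lam_pow_prod _ _ Finset.card_univ]
  exact inv_mul_cancel₀ (Nat.cast_ne_zero.mpr (Nat.factorial_ne_zero _))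

theorem int_mapV (τ : VV ι →ₗ[ℝ] VV ι) (x : Ev ι) :
    int ι (mapV τ x) = LinearMap.det τ * int ι x := by
  rw [x5_int_eq, x5_int_eq, val_mapV, x5I_map]

theorem int_mp (σ : (ι → ℝ) →ₗ[ℝ] (ι → ℝ)) (x : Ev ι) :
    int ι (mp σ x) = LinearMap.det σ ^ 2 * int ι x := by
  rw [mp, int_mapV, LinearMap.det_prodMap, pow_two]

theorem x5_mapV_bb (σ σ' : (ι → ℝ) →ₗ[ℝ] (ι → ℝ)) (n n' : ι → ℝ) :
    mapV (σ.prodMap σ') (bb n n') = bb (σ n) (σ' n') := by
  refine Ev.ext ?_
  rw [val_mapV, val_bb, val_bb, map_mul, ExteriorAlgebra.map_apply_ι, ExteriorAlgebra.map_apply_ι]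
  simp

theorem int_prod_bb {κ : Type} [Fintype κ] (e : κ ≃ ι) (n n' : κ → ι → ℝ) :
    int ι (∏ k, bb (n k) (n' k)) =
      (Matrix.of fun i j => n (e.symm i) j).det * (Matrix.of fun i j => n' (e.symm i) j).det := by
  have h (m : κ → ι → ℝ) (i : ι) :
      Matrix.toLin' (Matrix.of fun i j => m (e.symm i) j).transpose (Pi.single i 1) =
        m (e.symm i) := by
    funext j
    simp
  have h1 : (∏ k, bb (n k) (n' k)) =
      mapV ((Matrix.toLin' (Matrix.of fun i j => n (e.symm i) j).transpose).prodMap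
        (Matrix.toLin' (Matrix.of fun i j => n' (e.symm i) j).transpose))
        (∏ i, sq (Pi.single i 1)) := by
    rw [map_prod, ← e.symm.prod_comp]
    refine Finset.prod_congr rfl fun i _ => ?_
    rw [sq, x5_mapV_bb, h, h]
  rw [h1, int_mapV, int_std, mul_one, LinearMap.det_prodMap, LinearMap.det_toLin',
    LinearMap.det_toLin', Matrix.det_transpose, Matrix.det_transpose]

theorem int_prod_sq {κ : Type} [Fintype κ] (e : κ ≃ ι) (n : κ → ι → ℝ) :
    int ι (∏ k, sq (n k)) = (Matrix.of fun i j => n (e.symm i) j).det ^ 2 := by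
  rw [pow_two]
  exact int_prod_bb e n n

theorem int_up_equiv (e : ι ≃ ι') (x : Ev ι) : int ι' (up e x) = int ι x := by
  have h1 (y : Ev ι) : Lam ι' (up e y) = up e (Lam ι y) := by
    rw [Lam, Lam, LinearMap.sum_apply, LinearMap.sum_apply, map_sum, ← e.sum_comp]
    exact Finset.sum_congr rfl fun i _ => x5_dd_up e.injective i y
  have h2 (k : ℕ) : (Lam ι' ^ k) (up e x) = up e ((Lam ι ^ k) x) := by
    induction k with
    | zero => rfl
    | succ k ih => rw [pow_succ', pow_succ', Module.End.mul_apply, Module.End.mul_apply, ih, h1]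
  rw [x5_int_apply, x5_int_apply, h2, x5_eps_up, Fintype.card_congr e]

theorem x5_sum_mul {κ : Type} (s : Finset κ) (g : κ → Ev ι) (b : Ev ι) :
    (∑ x ∈ s, g x) * b = ∑ x ∈ s, g x * b := Finset.sum_mul _ _ _

theorem x5_Lam_up_mul {f : ι → ι''} {f' : ι' → ι''} (h : Function.Bijective (Sum.elim f f'))
    (a : Ev ι) (b : Ev ι') : Lam ι'' (up f a * up f' b) =
      up f (Lam ι a) * up f' b + up f a * up f' (Lam ι' b) := by
  have hf : Function.Injective f := fun i j hij =>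
    Sum.inl_injective (h.1 (show Sum.elim f f' (Sum.inl i) = Sum.elim f f' (Sum.inl j) from hij))
  have hf' : Function.Injective f' := fun i j hij =>
    Sum.inr_injective (h.1 (show Sum.elim f f' (Sum.inr i) = Sum.elim f f' (Sum.inr j) from hij))
  have hne (i : ι) (j : ι') : f i ≠ f' j := fun hij =>
    Sum.inl_ne_inr (h.1 (show Sum.elim f f' (Sum.inl i) = Sum.elim f f' (Sum.inr j) from hij))
  rw [Lam, Lam, Lam, LinearMap.sum_apply, LinearMap.sum_apply, LinearMap.sum_apply,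
    ← (Equiv.ofBijective _ h).sum_comp, Fintype.sum_sum_type, map_sum, map_sum, x5_sum_mul,
    mul_comm (up f a) (∑ _, _), x5_sum_mul]
  congr 1
  · refine Finset.sum_congr rfl fun i _ => ?_
    change dd (f i) _ = _
    rw [mul_comm, x5_dd_mul (x5Fr_up (fun j => (hne i j).symm) b), x5_dd_up hf, mul_comm]
  · refine Finset.sum_congr rfl fun j _ => ?_
    change dd (f' j) _ = _
    rw [x5_dd_mul (x5Fr_up (fun i => hne i j) a), x5_dd_up hf', mul_comm]

theorem x5_Lam_pow_up_mul {f : ι → ι''} {f' : ι' → ι''} (h : Function.Bijective (Sum.elim f f'))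
    (a : Ev ι) (b : Ev ι') (n : ℕ) : (Lam ι'' ^ n) (up f a * up f' b) =
      ∑ p ∈ Finset.HasAntidiagonal.antidiagonal n,
        n.choose p.1 • (up f ((Lam ι ^ p.1) a) * up f' ((Lam ι' ^ p.2) b)) := by
  induction n with
  | zero => simp
  | succ n ih =>
    rw [Finset.sum_antidiagonal_choose_succ_nsmul
      (fun i j => up f ((Lam ι ^ i) a) * up f' ((Lam ι' ^ j) b)) n]
    simp only [pow_succ', Module.End.mul_apply, ih, map_sum, map_nsmul, x5_Lam_up_mul h,
      nsmul_add, Finset.sum_add_distrib]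
    rw [add_comm, add_right_inj]
    refine Finset.sum_congr rfl fun p hp => ?_
    rw [n.choose_symm_of_eq_add (Finset.HasAntidiagonal.mem_antidiagonal.1 hp).symm]

theorem int_up_mul {f : ι → ι''} {f' : ι' → ι''} (h : Function.Bijective (Sum.elim f f'))
    (a : Ev ι) (b : Ev ι') : int ι'' (up f a * up f' b) = int ι a * int ι' b := by
  have hc : Fintype.card ι'' = Fintype.card ι + Fintype.card ι' := by
    rw [← Fintype.card_sum]
    exact (Fintype.card_congr (Equiv.ofBijective _ h)).symm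
  rw [x5_int_apply, x5_int_apply, x5_int_apply, hc, x5_Lam_pow_up_mul h, map_sum,
    Finset.sum_eq_single (Fintype.card ι, Fintype.card ι')]
  · rw [map_nsmul, map_mul, x5_eps_up, x5_eps_up, nsmul_eq_mul,
      ← Nat.add_choose_mul_factorial_mul_factorial, Nat.choose_symm_add]
    have h1 : ((Fintype.card ι).factorial : ℝ) ≠ 0 :=
      Nat.cast_ne_zero.mpr (Nat.factorial_ne_zero _)
    have h2 : ((Fintype.card ι').factorial : ℝ) ≠ 0 :=
      Nat.cast_ne_zero.mpr (Nat.factorial_ne_zero _)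
    have h3 : (((Fintype.card ι + Fintype.card ι').choose (Fintype.card ι') : ℕ) : ℝ) ≠ 0 :=
      Nat.cast_ne_zero.mpr (Nat.choose_pos (Nat.le_add_left _ _)).ne'
    push_cast
    field_simp
  · intro p hp hne
    have hp' := Finset.HasAntidiagonal.mem_antidiagonal.1 hp
    by_cases h1 : Fintype.card ι < p.1
    · rw [x5_Lam_pow_zero h1]
      simp
    · have h2 : Fintype.card ι' < p.2 := by
        by_contra h2
        exact hne (Prod.ext (by simp only; omega) (by simp only; omega))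
      rw [x5_Lam_pow_zero h2]
      simp
  · intro hn
    exact (hn (by simp)).elim

theorem int_Mon {x : Ev ι} (hx : x ∈ Mon ι) : 0 ≤ int ι x := by
  obtain ⟨m, n, rfl⟩ := exists_of_Mon hx
  by_cases hm : m = Fintype.card ι
  · rw [int_prod_sq (Fintype.equivFinOfCardEq hm.symm).symm]
    exact sq_nonneg _
  · refine (int_dgr (prod_sq_Sy Finset.univ n).1 ?_).ge
    rwa [Finset.card_univ, Fintype.card_fin]

theorem int_om_pow : int ι (om ι ^ Fintype.card ι) = (Fintype.card ι).factorial := by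
  have h := (x5_sum_pow (fun i : ι => (sq (Pi.single i 1) : Ev ι)) (fun i => sq_mul_sq _)
    Finset.univ).1
  rw [Finset.card_univ] at h
  rw [om, h, ← nsmul_eq_mul, map_nsmul, int_std, nsmul_eq_mul, mul_one]

end Pool.Agent.Work.MP_ffcd14_ag.Tr
end

-- merged part: Pool.Agent.Work.MP_ffcd14_ag.Tr.L8
section
/-!
# Classes of linear spaces

Plan.  `int_up_nn`: `up r (nn E μ)` is the product of the squares of the covectors
`pb r (nrm E μ i)`, `i ∉ range μ`; `int_prod_sq` with a bijection of the complement of the range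
of `μ` with `τ` (cardinalities).  Multiply the matrix `(-R | E)`, `R i t = if r i = t then 1 else 0`,
on the left by the matrix `Q` whose rows are `δ_(μ k)` for `i = μ k` and `nrm E μ i` otherwise;
`det Q = 1` (`Q = 1 - ν`, `ν ^ 2 = 0`, or block triangular) and `Q (-R | E)` is block triangular
after reindexing (`Matrix.det_fromBlocks_zero₂₁`, `Matrix.det_permute`,
`Matrix.det_submatrix_equiv_self`, `Matrix.abs_det_submatrix_equiv_equiv`).
`nn_prod`, `nn_gam`, `nn_top`: compute the covectors; `Finset.prod_nbij` or `Finset.prod_image`.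
-/

namespace Pool.Agent.Work.MP_ffcd14_ag.Tr

variable {ι ι' ι'' κ κ' τ : Type} [Fintype ι] [DecidableEq ι] [Fintype ι'] [DecidableEq ι']
  [Fintype ι''] [DecidableEq ι''] [Fintype κ] [DecidableEq κ] [Fintype κ'] [DecidableEq κ']
  [Fintype τ] [DecidableEq τ]

omit [DecidableEq κ] in
theorem card_compl {μ : κ → ι} (hμ : Function.Injective μ) :
    (Finset.univ \ Finset.univ.image μ).card + Fintype.card κ = Fintype.card ι := by
  rw [← Finset.card_univ (α := κ), ← Finset.card_image_of_injective _ hμ,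
    Finset.card_sdiff_add_card_eq_card (Finset.subset_univ _), Finset.card_univ]

omit [Fintype ι] [DecidableEq ι] [Fintype κ] in
theorem inj_of_id {E : Matrix ι κ ℝ} {μ : κ → ι}
    (h : ∀ k k', E (μ k) k' = if k = k' then 1 else 0) : Function.Injective μ := by
  intro k k' e
  by_contra hne
  have h1 := h k k'
  have h2 := h k' k'
  rw [if_neg hne, e] at h1
  rw [if_pos rfl, h1] at h2
  exact zero_ne_one h2

omit [DecidableEq κ] in
theorem l8_pb_nrm (r : ι → ι') (E : Matrix ι κ ℝ) (μ : κ → ι) (i : ι) :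
    pb r (nrm E μ i) = Pi.single (r i) 1 - ∑ k, E i k • Pi.single (r (μ k)) 1 := by
  simp only [nrm, map_sub, map_sum, map_smul, pb_single]

omit [Fintype ι'] [DecidableEq κ] in
theorem l8_up_nn (r : ι → ι') (E : Matrix ι κ ℝ) (μ : κ → ι) :
    up r (nn E μ) = ∏ i ∈ Finset.univ \ Finset.univ.image μ, sq (pb r (nrm E μ i)) := by
  simp only [up, nn, map_prod, mp_sq]

omit [DecidableEq κ] [DecidableEq τ] in
theorem l8_equiv {μ : κ → ι} (hμ : Function.Injective μ) (e : τ ⊕ κ ≃ ι) :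
    ∃ (b : τ ≃ ↥(Finset.univ \ Finset.univ.image μ)) (g : τ ⊕ κ ≃ ι),
      (∀ t, g (Sum.inl t) = (b t).1) ∧ ∀ k, g (Sum.inr k) = μ k := by
  have h1 := card_compl hμ
  have h2 := Fintype.card_congr e
  rw [Fintype.card_sum] at h2
  have h3 : Fintype.card τ = Fintype.card ↥(Finset.univ \ Finset.univ.image μ) := by
    rw [Fintype.card_coe]
    omega
  let b := Fintype.equivOfCardEq h3
  have hb : ∀ t k, (b t).1 ≠ μ k := fun t k e =>
    (Finset.mem_sdiff.1 (b t).2).2 (Finset.mem_image.2 ⟨k, Finset.mem_univ _, e.symm⟩)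
  have hi : Function.Injective (Sum.elim (fun t => (b t).1) μ) :=
    Function.Injective.sumElim (fun t t' e => b.injective (Subtype.ext e)) hμ hb
  have hc : Fintype.card (τ ⊕ κ) = Fintype.card ι := Fintype.card_congr e
  exact ⟨b, Equiv.ofBijective _ ((Fintype.bijective_iff_injective_and_card _).2 ⟨hi, hc⟩),
    fun _ => rfl, fun _ => rfl⟩

theorem int_up_nn {E : Matrix ι κ ℝ} {μ : κ → ι}
    (h : ∀ k k', E (μ k) k' = if k = k' then 1 else 0) (r : ι → τ) (e : τ ⊕ κ ≃ ι) :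
    int τ (up r (nn E μ)) = (Matrix.of fun i j : ι =>
      Sum.elim (fun t => if r i = t then (-1 : ℝ) else 0) (E i) (e.symm j)).det ^ 2 := by
  obtain ⟨b, g, hg1, hg2⟩ := l8_equiv (inj_of_id h) e
  rw [l8_up_nn, ← Finset.prod_coe_sort,
    int_prod_sq b.symm fun i => pb r (nrm E μ i.1), ← sq_abs (Matrix.det (Matrix.of fun i j : ι =>
      Sum.elim (fun t => if r i = t then (-1 : ℝ) else 0) (E i) (e.symm j))),
    ← Matrix.abs_det_submatrix_equiv_equiv g e, sq_abs]
  have hM : (Matrix.of fun i j : ι =>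
      Sum.elim (fun t => if r i = t then (-1 : ℝ) else 0) (E i) (e.symm j)).submatrix g e =
      Matrix.fromBlocks (Matrix.of fun t t' => if r (b t).1 = t' then (-1 : ℝ) else 0)
        (Matrix.of fun t k => E (b t).1 k)
        (Matrix.of fun k t' => if r (μ k) = t' then (-1 : ℝ) else 0) 1 := by
    ext (t | k) (t' | k') <;>
      simp [hg1, hg2, h, Matrix.one_apply]
  have hN : (Matrix.of fun t t' => if r (b t).1 = t' then (-1 : ℝ) else 0) -
      (Matrix.of fun t k => E (b t).1 k) *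
        (Matrix.of fun k t' => if r (μ k) = t' then (-1 : ℝ) else 0) =
      -Matrix.of fun i j => pb r (nrm E μ (b.symm.symm i).1) j := by
    ext t t'
    simp only [Matrix.sub_apply, Matrix.mul_apply, Matrix.of_apply, Matrix.neg_apply, l8_pb_nrm,
      Equiv.symm_symm, Pi.sub_apply, Finset.sum_apply, Pi.smul_apply, Pi.single_apply,
      smul_eq_mul, neg_sub, eq_comm (a := t')]
    rw [sub_eq_neg_add, ← Finset.sum_neg_distrib, sub_eq_add_neg]
    congr 1
    · exact Finset.sum_congr rfl fun k _ => by split_ifs <;> simp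
    · split_ifs <;> simp
  rw [hM, Matrix.det_fromBlocks_one₂₂, hN, Matrix.det_neg, mul_pow, ← pow_mul, mul_comm _ 2,
    pow_mul]
  simp

omit [DecidableEq κ] [DecidableEq κ'] in
theorem nn_prod (e : ι ⊕ ι' ≃ ι'') (E : Matrix ι κ ℝ) (μ : κ → ι) (E' : Matrix ι' κ' ℝ)
    (μ' : κ' → ι') :
    nn (Matrix.of fun i => Matrix.fromBlocks E 0 0 E' (e.symm i))
        (fun k => e (Sum.map μ μ' k)) =
      up (fun i => e (Sum.inl i)) (nn E μ) * up (fun i => e (Sum.inr i)) (nn E' μ') := by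
  rw [l8_up_nn, l8_up_nn, ← Finset.prod_sumElim, nn]
  symm
  refine Finset.prod_equiv e ?_ ?_
  · rintro (i | i) <;> simp
  · rintro (i | i) - <;> simp [nrm, pb_single, Fintype.sum_sum_type]

theorem nn_top (E : Matrix ι ι ℝ) : nn E id = 1 := by
  rw [nn, Finset.image_id, Finset.sdiff_self, Finset.prod_empty]

/-- The matrix of `(y₀, y₁) ↦ (y₀, y₁, y₀ - y₁)`. -/
def gE (R G : Type) [Ring R] [DecidableEq G] :
    Matrix (((Unit ⊕ Unit) ⊕ Unit) × G) ((Unit ⊕ Unit) × G) R
  | (Sum.inl a, i), k => if (a, i) = k then 1 else 0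
  | (Sum.inr _, i), k => if (Sum.inl (), i) = k then 1 else if (Sum.inr (), i) = k then -1 else 0

theorem nn_gam (G : Type) [Fintype G] [DecidableEq G] :
    nn (gE ℝ G) (Prod.map Sum.inl id) =
      gam (Sum.inl (Sum.inl ())) (Sum.inl (Sum.inr ())) (Sum.inr ()) := by
  have hs : (Finset.univ \ Finset.univ.image (Prod.map Sum.inl id) :
      Finset (((Unit ⊕ Unit) ⊕ Unit) × G)) = Finset.univ.image fun i => (Sum.inr (), i) := by
    ext ⟨a | a, i⟩ <;> simp
  rw [nn, hs, Finset.prod_image fun i _ j _ e => (Prod.ext_iff.1 e).2, gam]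
  refine Finset.prod_congr rfl fun i _ => ?_
  rw [← sq_neg]
  congr 1
  have h1 : ∑ k : (Unit ⊕ Unit) × G, gE ℝ G (Sum.inr (), i) k •
      (Pi.single (Prod.map Sum.inl id k) 1 : ((Unit ⊕ Unit) ⊕ Unit) × G → ℝ) =
      Pi.single (Sum.inl (Sum.inl ()), i) 1 - Pi.single (Sum.inl (Sum.inr ()), i) 1 := by
    simp [gE, Fintype.sum_prod_type, Fintype.sum_sum_type, sub_eq_add_neg, ite_smul]
  rw [nrm, h1]
  abel

end Pool.Agent.Work.MP_ffcd14_ag.Tr
end

-- merged part: Pool.Agent.Work.MP_ffcd14_ag.Ry.T1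
section
/-!
# The Fourier form of a real torus

`i1`, `i2` are the two copies of `ι` in `ι2`.  For `ω = ∑ sq (n j)` one has `PT ω = -(A + A')`,
`A = ∑ bb (pb i1 (n j)) (pb i2 (n j))`, `A' = ∑ bb (pb i2 (n j)) (pb i1 (n j))` (`mp_sq`,
bilinearity of `bb`).
Plan.  `BT_wt`: for `s t : ℝ` nonzero let `τ` be the endomorphism of `VV ι2` which multiplies the
coordinates `(i1 i, first factor)`, `(i1 i, second)`, `(i2 i, first)`, `(i2 i, second)` by
`s₁, s₂, s₃, s₄`; `int_mapV` gives the factor `(s₁ s₂ s₃ s₄) ^ card ι`, while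
`up i1 e * up i2 e' * A ^ i * A' ^ i'` is multiplied by
`(s₁ s₂) ^ a (s₃ s₄) ^ a' (s₁ s₄) ^ i (s₃ s₂) ^ i'`.  So the term vanishes unless
`a + i = a + i' = a' + i = a' + i' = card ι` (`int_term`).  `BT_gram`: with `m = card ι - a` only
the term `choose (2 m) m * A ^ m * A' ^ m` remains; expand the powers over `J J' : Fin m → index`
(`Finset.prod_univ_sum`), and `bb_mul_bb` gives `(-1) ^ m * up i1 (β J J') * up i2 (β J' J)` with
`β J J' = ∏ k, bb (n (J k)) (n (J' k))`; `int_up_mul`, and `int (e * β J' J) = int (e * β J J')` by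
the transposition `J` (`J_bb`; `int_mapV`, the determinant is `1`; or `int_prod_bb`).
`int_mp_nn`: copy `int_up_nn`.  `psd_real`: density of `ℚ` in `ℝ`.
-/

namespace Pool.Agent.Work.MP_ffcd14_ag.Ry

open Tr

set_option linter.unusedSectionVars false

variable {ι ι2 κ τ : Type} [Fintype ι] [DecidableEq ι] [Fintype ι2] [DecidableEq ι2] [Fintype κ]
  [DecidableEq κ] [Fintype τ] [DecidableEq τ]

/-- Products of `a` squares. -/
def Mn (ι : Type) (a : ℕ) : Set (Ev ι) := {e | ∃ n : Fin a → ι → ℝ, e = ∏ j, sq (n j)}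

/-- Sums of squares. -/
noncomputable def Om (ι : Type) : AddSubmonoid (Ev ι) := AddSubmonoid.closure (Set.range sq)

/-- The Poincaré class. -/
noncomputable def PT (i1 i2 : ι → ι2) (ω : Ev ι) : Ev ι2 :=
  mp (pb i1 - pb i2) ω - up i1 ω - up i2 ω

/-- The bilinear form. -/
noncomputable def BT (i1 i2 : ι → ι2) (ω : Ev ι) (j : ℕ) (e e' : Ev ι) : ℝ :=
  int ι2 (up i1 e * up i2 e' * PT i1 i2 ω ^ j)

theorem Om_smul {ω : Ev ι} (h : ω ∈ Om ι) {r : ℝ} (hr : 0 ≤ r) : r • ω ∈ Om ι := by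
  induction h using AddSubmonoid.closure_induction with
  | mem x hx =>
    obtain ⟨n, rfl⟩ := hx
    refine AddSubmonoid.subset_closure ⟨√r • n, ?_⟩
    rw [Tr.sq, Tr.sq, bb_smul_left, bb_smul_right, smul_smul, Real.mul_self_sqrt hr]
  | zero =>
    rw [smul_zero]
    exact zero_mem _
  | add x y _ _ hx hy =>
    rw [smul_add]
    exact add_mem hx hy

theorem int_Om_pow {ω : Ev ι} (h : ω ∈ Om ι) {j : ℕ} (hj : j ≠ Fintype.card ι) :
    int ι (ω ^ j) = 0 := by
  have h1 : ω ∈ dgr ι 1 := by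
    induction h using AddSubmonoid.closure_induction with
    | mem x hx =>
      obtain ⟨n, rfl⟩ := hx
      exact bb_dgr n n
    | zero => exact zero_mem _
    | add x y _ _ hx hy => exact add_mem hx hy
  have h2 : ∀ k, ω ^ k ∈ dgr ι k := fun k => by
    induction k with
    | zero =>
      rw [pow_zero]
      exact one_dgr
    | succ k ih =>
      rw [pow_succ]
      exact mul_dgr ih h1
  exact int_dgr (h2 j) hj

theorem nn_Mn {E : Matrix ι κ ℝ} {μ : κ → ι} (hμ : Function.Injective μ) {a : ℕ}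
    (ha : a + Fintype.card κ = Fintype.card ι) : nn E μ ∈ Mn ι a := by
  have h := card_compl hμ
  let b := Finset.equivFinOfCardEq (s := Finset.univ \ Finset.univ.image μ) (n := a) (by omega)
  refine ⟨fun j => nrm E μ (b.symm j).1, ?_⟩
  rw [nn, ← Finset.prod_coe_sort, ← b.symm.prod_comp]

theorem T1_rep {ω : Ev ι} (h : ω ∈ Om ι) :
    ∃ (K : Type) (_ : Fintype K) (n : K → ι → ℝ), ω = ∑ k, sq (n k) := by
  induction h using AddSubmonoid.closure_induction with
  | mem x hx =>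
    obtain ⟨n, rfl⟩ := hx
    exact ⟨Unit, inferInstance, fun _ => n, (Fintype.sum_unique fun _ : Unit => sq n).symm⟩
  | zero => exact ⟨Empty, inferInstance, fun k => k.elim, (Fintype.sum_empty _).symm⟩
  | add x y _ _ hx hy =>
    obtain ⟨K, _, n, rfl⟩ := hx
    obtain ⟨K', _, n', rfl⟩ := hy
    exact ⟨K ⊕ K', inferInstance, Sum.elim n n', by rw [Fintype.sum_sum_type]; rfl⟩

/-- One half of the Poincaré class. -/
noncomputable def T1_A {K : Type} [Fintype K] (r r' : ι → ι2) (n : K → ι → ℝ) : Ev ι2 :=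
  ∑ k, bb (pb r (n k)) (pb r' (n k))

theorem T1_PT {K : Type} [Fintype K] (i1 i2 : ι → ι2) (n : K → ι → ℝ) :
    PT i1 i2 (∑ k, sq (n k)) = -(T1_A i1 i2 n + T1_A i2 i1 n) := by
  rw [PT, up, up, map_sum, map_sum, map_sum, T1_A, T1_A, ← Finset.sum_sub_distrib,
    ← Finset.sum_sub_distrib, ← Finset.sum_add_distrib, ← Finset.sum_neg_distrib]
  refine Finset.sum_congr rfl fun k _ => ?_
  rw [mp_sq, mp_sq, mp_sq, LinearMap.sub_apply]
  simp only [Tr.sq, ← bbL_apply, map_sub, LinearMap.sub_apply]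
  abel

theorem T1_BT {K : Type} [Fintype K] (i1 i2 : ι → ι2) (n : K → ι → ℝ) (j : ℕ) (e e' : Ev ι) :
    BT i1 i2 (∑ k, sq (n k)) j e e' = (-1) ^ j * ∑ i ∈ Finset.range (j + 1), (j.choose i : ℝ) *
      int ι2 (up i1 e * up i2 e' * (T1_A i1 i2 n ^ i * T1_A i2 i1 n ^ (j - i))) := by
  rw [BT, T1_PT, ← neg_one_smul ℝ (T1_A i1 i2 n + _), smul_pow, mul_smul_comm, map_smul, smul_eq_mul,
    add_pow, Finset.mul_sum, map_sum]
  refine congrArg _ (Finset.sum_congr rfl fun i _ => ?_)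
  rw [← mul_assoc, mul_comm _ (j.choose i : Ev ι2), ← nsmul_eq_mul, map_nsmul, nsmul_eq_mul]

section

variable {r r' : ι → ι2} {σ σ' : (ι2 → ℝ) →ₗ[ℝ] (ι2 → ℝ)} {s s' : ℝ}

theorem T1_bb (h : ∀ x, σ (pb r x) = s • pb r x) (h' : ∀ x, σ' (pb r' x) = s' • pb r' x)
    (x y : ι → ℝ) : mapV (σ.prodMap σ') (bb (pb r x) (pb r' y)) =
      (s * s') • bb (pb r x) (pb r' y) := by
  rw [x5_mapV_bb, h, h', bb_smul_left, bb_smul_right, smul_smul]

theorem T1_up (h : ∀ x, σ (pb r x) = s • pb r x) (h' : ∀ x, σ' (pb r x) = s' • pb r x)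
    {a : ℕ} {e : Ev ι} (he : e ∈ Mn ι a) :
    mapV (σ.prodMap σ') (up r e) = (s * s') ^ a • up r e := by
  obtain ⟨n, rfl⟩ := he
  simp only [up, map_prod, Tr.sq, mp_bb, T1_bb h h', Finset.prod_smul, Finset.prod_const,
    Finset.card_univ, Fintype.card_fin]

theorem T1_mA {K : Type} [Fintype K] (h : ∀ x, σ (pb r x) = s • pb r x)
    (h' : ∀ x, σ' (pb r' x) = s' • pb r' x) (n : K → ι → ℝ) :
    mapV (σ.prodMap σ') (T1_A r r' n) = (s * s') • T1_A r r' n := by
  simp only [T1_A, map_sum, T1_bb h h', Finset.smul_sum]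

end

theorem T1_diag {i1 i2 : ι → ι2} (hb : Function.Bijective (Sum.elim i1 i2)) (s t : ℝ) :
    ∃ σ : (ι2 → ℝ) →ₗ[ℝ] (ι2 → ℝ),
      LinearMap.det σ = s ^ Fintype.card ι * t ^ Fintype.card ι ∧
      (∀ x, σ (pb i1 x) = s • pb i1 x) ∧ ∀ x, σ (pb i2 x) = t • pb i2 x := by
  let E := Equiv.ofBijective _ hb
  let w : ι2 → ℝ := fun j => Sum.elim (fun _ => s) (fun _ => t) (E.symm j)
  have k : ∀ (r : ι → ι2) (u : ℝ), (∀ i, w (r i) = u) →
      ∀ x, Matrix.toLin' (Matrix.diagonal w) (pb r x) = u • pb r x := fun r u h x => by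
    have k1 : Matrix.toLin' (Matrix.diagonal w) ∘ₗ pb r = u • pb r := pi_ext fun i => by
      rw [LinearMap.comp_apply, LinearMap.smul_apply, pb_single, Matrix.toLin'_apply,
        Matrix.diagonal_mulVec_single, h, ← Pi.single_smul', smul_eq_mul]
    exact LinearMap.congr_fun k1 x
  refine ⟨Matrix.toLin' (Matrix.diagonal w), ?_, k i1 s fun i => ?_, k i2 t fun i => ?_⟩
  · rw [LinearMap.det_toLin', Matrix.det_diagonal, ← E.prod_comp, Fintype.prod_sum_type]
    simp only [w, Equiv.symm_apply_apply, Sum.elim_inl, Sum.elim_inr, Finset.prod_const,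
      Finset.card_univ]
  · exact congrArg (Sum.elim (fun _ => s) fun _ => t) (E.symm_apply_apply (Sum.inl i))
  · exact congrArg (Sum.elim (fun _ => s) fun _ => t) (E.symm_apply_apply (Sum.inr i))

theorem T1_term {i1 i2 : ι → ι2} (hb : Function.Bijective (Sum.elim i1 i2)) {K : Type} [Fintype K]
    {n : K → ι → ℝ} {a a' i i' : ℕ} {e e' : Ev ι} (he : e ∈ Mn ι a) (he' : e' ∈ Mn ι a')
    (h : int ι2 (up i1 e * up i2 e' * (T1_A i1 i2 n ^ i * T1_A i2 i1 n ^ i')) ≠ 0) :
    a + i = Fintype.card ι ∧ a + i' = Fintype.card ι ∧ a' + i' = Fintype.card ι ∧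
      a' + i = Fintype.card ι := by
  have k : ∀ s₁ s₂ s₃ s₄ : ℝ, (s₁ * s₂) ^ a * (s₃ * s₄) ^ a' * ((s₁ * s₄) ^ i * (s₃ * s₂) ^ i') =
      s₁ ^ Fintype.card ι * s₃ ^ Fintype.card ι * (s₂ ^ Fintype.card ι * s₄ ^ Fintype.card ι) :=
    fun s₁ s₂ s₃ s₄ => by
      obtain ⟨σ, d, h1, h3⟩ := T1_diag hb s₁ s₃
      obtain ⟨σ', d', h2, h4⟩ := T1_diag hb s₂ s₄
      have k1 := int_mapV (σ.prodMap σ')
        (up i1 e * up i2 e' * (T1_A i1 i2 n ^ i * T1_A i2 i1 n ^ i'))
      rw [map_mul (mapV _), map_mul (mapV _), map_mul (mapV _), map_pow (mapV _), map_pow (mapV _),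
        T1_up h1 h2 he, T1_up h3 h4 he',
        T1_mA h1 h4, T1_mA h3 h2, smul_pow, smul_pow, smul_mul_smul_comm, smul_mul_smul_comm,
        smul_mul_smul_comm, map_smul, smul_eq_mul, LinearMap.det_prodMap, d, d'] at k1
      exact mul_right_cancel₀ h k1
  have k2 : ∀ {u v : ℕ}, (2 : ℝ) ^ u = 2 ^ v → u = v := fun h =>
    pow_right_injective₀ two_pos (by norm_num) h
  refine ⟨k2 ?_, k2 ?_, k2 ?_, k2 ?_⟩
  · simpa [pow_add] using k 2 1 1 1
  · simpa [pow_add] using k 1 2 1 1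
  · simpa [pow_add] using k 1 1 2 1
  · simpa [pow_add] using k 1 1 1 2

theorem T1_swap {a m : ℕ} (h : a + m = Fintype.card ι) {e : Ev ι} (he : e ∈ Mn ι a)
    (u v : Fin m → ι → ℝ) :
    int ι (e * ∏ k, bb (u k) (v k)) = int ι (e * ∏ k, bb (v k) (u k)) := by
  obtain ⟨n, rfl⟩ := he
  have b : Fin a ⊕ Fin m ≃ ι := Fintype.equivOfCardEq (by
    rw [Fintype.card_sum, Fintype.card_fin, Fintype.card_fin, h])
  have k : ∀ u v : Fin m → ι → ℝ, (∏ j, sq (n j)) * ∏ k, bb (u k) (v k) =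
      ∏ k, bb (Sum.elim n u k) (Sum.elim n v k) := fun u v => by
    rw [Fintype.prod_sum_type]
    rfl
  rw [k, k, int_prod_bb b, int_prod_bb b, mul_comm]

theorem T1_AA {K : Type} [Fintype K] (i1 i2 : ι → ι2) (n : K → ι → ℝ) (m : ℕ) :
    T1_A i1 i2 n ^ m * T1_A i2 i1 n ^ m = ∑ p : (Fin m → K) × (Fin m → K), (-1 : ℝ) ^ m •
      (up i1 (∏ k, bb (n (p.1 k)) (n (p.2 k))) * up i2 (∏ k, bb (n (p.2 k)) (n (p.1 k)))) := by
  rw [T1_A, T1_A, Fintype.sum_pow, Fintype.sum_pow, Finset.sum_mul_sum, Fintype.sum_prod_type]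
  refine Finset.sum_congr rfl fun p _ => Finset.sum_congr rfl fun q _ => ?_
  rw [← Finset.prod_mul_distrib, up, up, map_prod, map_prod, ← Finset.prod_mul_distrib,
    Finset.prod_congr rfl fun k _ => (bb_mul_bb _ _ _ _).trans (neg_one_smul ℝ _).symm,
    Finset.prod_smul, Finset.prod_const, Finset.card_univ, Fintype.card_fin]
  simp only [mp_bb]

variable {i1 i2 : ι → ι2} (hb : Function.Bijective (Sum.elim i1 i2)) {ω : Ev ι} (hω : ω ∈ Om ι)

include hb hω in
theorem BT_wt {a a' j : ℕ} {e e' : Ev ι} (he : e ∈ Mn ι a) (he' : e' ∈ Mn ι a')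
    (h : BT i1 i2 ω j e e' ≠ 0) : a = a' ∧ j + 2 * a = 2 * Fintype.card ι := by
  obtain ⟨K, _, n, rfl⟩ := T1_rep hω
  rw [T1_BT] at h
  obtain ⟨i, hi, h1⟩ := Finset.exists_ne_zero_of_sum_ne_zero (right_ne_zero_of_mul h)
  have h2 := T1_term hb he he' (right_ne_zero_of_mul h1)
  have h3 := Finset.mem_range.1 hi
  omega

include hb hω in
theorem BT_gram {a : ℕ} (ha : a ≤ Fintype.card ι) :
    ∃ (I : Type) (_ : Fintype I) (φ : I → Ev ι → ℝ), ∀ e ∈ Mn ι a, ∀ e' ∈ Mn ι a,
      (-1) ^ (Fintype.card ι - a) * BT i1 i2 ω (2 * (Fintype.card ι - a)) e e' =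
        ∑ i, φ i e * φ i e' := by
  obtain ⟨K, _, n, rfl⟩ := T1_rep hω
  obtain ⟨m, hm⟩ := Nat.exists_eq_add_of_le ha
  rw [show Fintype.card ι - a = m by omega]
  refine ⟨(Fin m → K) × (Fin m → K), inferInstance, fun p e => √((2 * m).choose m) *
    int ι (e * ∏ k, bb (n (p.1 k)) (n (p.2 k))), fun e he e' he' => ?_⟩
  rw [T1_BT, Finset.sum_eq_single m (fun i _ hi => mul_eq_zero_of_right _ (by
      by_contra h
      have h2 := T1_term hb he he' h
      omega)) fun h => (h (Finset.mem_range.2 (by omega))).elim,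
    show 2 * m - m = m by omega, T1_AA, Finset.mul_sum, map_sum, Finset.mul_sum, Finset.mul_sum,
    Finset.mul_sum]
  refine Finset.sum_congr rfl fun p _ => ?_
  have k : (-1 : ℝ) ^ m * (-1) ^ m = 1 := by rw [← mul_pow, neg_mul_neg, one_mul, one_pow]
  rw [mul_smul_comm, map_smul, mul_mul_mul_comm, ← map_mul, ← map_mul, int_up_mul hb,
    T1_swap hm.symm he' (fun k => n (p.2 k)), mul_mul_mul_comm (√_),
    Real.mul_self_sqrt (Nat.cast_nonneg _), smul_eq_mul, pow_mul, neg_one_sq, one_pow, one_mul,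
    mul_left_comm, ← mul_assoc ((-1 : ℝ) ^ m), k, one_mul]

theorem int_mp_nn {E : Matrix ι κ ℝ} {μ : κ → ι}
    (h : ∀ k k', E (μ k) k' = if k = k' then 1 else 0) (L : Matrix ι τ ℝ) (e : τ ⊕ κ ≃ ι) :
    int τ (mp (Matrix.vecMulLinear L) (nn E μ)) = (Matrix.of fun i j : ι =>
      Sum.elim (L i) (fun k => -E i k) (e.symm j)).det ^ 2 := by
  obtain ⟨b, g, hg1, hg2⟩ := l8_equiv (inj_of_id h) e
  have h0 : mp (Matrix.vecMulLinear L) (nn E μ) = ∏ i ∈ Finset.univ \ Finset.univ.image μ,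
      sq (Matrix.vecMulLinear L (nrm E μ i)) := by
    simp only [nn, map_prod, mp_sq]
  rw [h0, ← Finset.prod_coe_sort,
    int_prod_sq b.symm fun i => Matrix.vecMulLinear L (nrm E μ i.1),
    ← sq_abs (Matrix.det (Matrix.of fun i j : ι =>
      Sum.elim (L i) (fun k => -E i k) (e.symm j))),
    ← Matrix.abs_det_submatrix_equiv_equiv g e, sq_abs]
  have hM : (Matrix.of fun i j : ι => Sum.elim (L i) (fun k => -E i k) (e.symm j)).submatrix g e =
      -Matrix.fromBlocks (Matrix.of fun t t' => -L (b t).1 t') (Matrix.of fun t k => E (b t).1 k)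
        (Matrix.of fun k t' => -L (μ k) t') 1 := by
    ext (t | k) (t' | k') <;>
      simp [hg1, hg2, h, Matrix.one_apply]
  have hN : (Matrix.of fun t t' => -L (b t).1 t') -
      (Matrix.of fun t k => E (b t).1 k) * (Matrix.of fun k t' => -L (μ k) t') =
      -Matrix.of fun i j => Matrix.vecMulLinear L (nrm E μ (b.symm.symm i).1) j := by
    ext t t'
    simp only [Matrix.sub_apply, Matrix.mul_apply, Matrix.of_apply, Matrix.neg_apply, nrm, map_sub,
      map_sum, map_smul, Matrix.vecMulLinear_apply, Matrix.single_one_vecMul, Equiv.symm_symm,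
      Pi.sub_apply, Finset.sum_apply, Pi.smul_apply, smul_eq_mul, mul_neg, Finset.sum_neg_distrib,
      Matrix.row_apply]
    ring
  rw [hM, Matrix.det_neg, Matrix.det_fromBlocks_one₂₂, hN, Matrix.det_neg, mul_pow, mul_pow,
    ← pow_mul, ← pow_mul, mul_comm _ 2, mul_comm _ 2, pow_mul, pow_mul]
  simp

theorem int_mp_nn_zero {E : Matrix ι κ ℝ} {μ : κ → ι} (hμ : Function.Injective μ)
    (σ : (ι → ℝ) →ₗ[ℝ] (τ → ℝ)) (h : Fintype.card τ + Fintype.card κ ≠ Fintype.card ι) :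
    int τ (mp σ (nn E μ)) = 0 := by
  have h1 := card_compl hμ
  exact int_dgr (mapV_dgr _ (mem_Sy.1 (prod_sq_Sy _ _)).1) (by omega)

theorem psd_real {I : Type*} [Fintype I] (M : I → I → ℚ)
    (h : ∀ x : I → ℚ, 0 ≤ ∑ i, ∑ j, x i * x j * M i j) (x : I → ℝ) :
    0 ≤ ∑ i, ∑ j, x i * x j * (M i j : ℝ) := by
  refine (DenseRange.piMap fun _ : I => Rat.denseRange_cast (𝕜 := ℝ)).induction_on x
    (isClosed_le continuous_const (by fun_prop)) fun y => ?_
  have k := (Rat.cast_nonneg (K := ℝ)).2 (h y)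
  push_cast at k
  exact k

end Pool.Agent.Work.MP_ffcd14_ag.Ry
end
end

-- merged part: Pool.Agent.Work.MP_ffcd14_ag.Tr.L4
section
/-!
# The Hodge-Riemann relation for primitive forms

Plan.  Let `N = card ι`, `k = 2 a`, `m = N - k`, `LamX = ∑ df i ∘ de i` on `Ex ι`, `JX` the algebra
map induced by `τ (u, v) = (-v, u)`.  By `int_eq_ip`, `ip_symm`, `ip_om`, `ip_mul`:
`int (x y om^m) = N!⁻¹ ip y (rho (reverse x) (Lam^m om^N))`, and `Lam^m om^N =
N! m! / k! • om^k` (`Lam_om_pow` for `x = 1`).  Key formula (`rho_om`): for `x ∈ ⋀^k` with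
`LamX x = 0`, `rho x (om^k) = k! • JX x`.  Proof: with `E = ∑ om^j / j!` (a finite sum, `om` is
nilpotent; `IsNilpotent.exp`), `ct v E = ι (τ v) * E` since `ct v om = ι (τ v)`, hence
`ct v (E z) = E (ι (τ v) z + ct v z)`.  `[LamX, ι v] = ct (τ v)`, which commutes with `LamX`, and
`JX (ct w z) = ct (τ w) (JX z)`, `τ τ = -1`; so `W = JX ∘ exp (- LamX)` satisfies
`W (ι v * x) = ι (τ v) * W x + ct v (W x)` and `rho x E = E * W x` by left induction on `x`.  Take
the component of degree `k`.  (Alternatively prove by induction on `k` the graded formula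
`rho x (om^M / M!) = ∑ j, (-1)^j om^(M-k+j) / (M-k+j)! * JX (LamX^j x / j!)`.)  Finally
`reverse x = (-1)^(k (k-1) / 2) x = (-1)^a x` on `⋀^k`, it commutes with `LamX` up to this sign.
`hodge_std`: `lefschetz`; test the hypothesis with `om^(j-1) y_j` for `j ≥ 1`; the mixed terms
vanish by `prim_van`, so `hr` and `ip_pos` give `y_j = 0`; then `x = y_0` and `hr`.
-/

namespace Pool.Agent.Work.MP_ffcd14_ag.Tr

variable {ι : Type} [Fintype ι] [DecidableEq ι]

set_option linter.unusedSectionVars false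

/-- The rotation `(u, v) ↦ (-v, u)`. -/
noncomputable def L4tau : VV ι →ₗ[ℝ] VV ι :=
  (-LinearMap.snd ℝ (ι → ℝ) (ι → ℝ)).prod (LinearMap.fst ℝ (ι → ℝ) (ι → ℝ))

/-- `Lam` on the whole exterior algebra. -/
noncomputable def L4Lam : Module.End ℝ (Ex ι) := ∑ i, df i * de i

/-- The divided powers of `om`. -/
noncomputable def L4e (n : ℕ) : Ex ι := (n.factorial : ℝ)⁻¹ • Ev.val (om ι) ^ n

/-- The terms of `J ∘ exp (- Lam)`. -/
noncomputable def L4B (j : ℕ) : Module.End ℝ (Ex ι) :=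
  ((-1) ^ j * (j.factorial : ℝ)⁻¹) •
    ((ExteriorAlgebra.map (L4tau (ι := ι))).toLinearMap ∘ₗ (L4Lam (ι := ι) ^ j))

theorem L4_dot (v w : VV ι) : dot v w = v.1 ⬝ᵥ w.1 + v.2 ⬝ᵥ w.2 := rfl

theorem L4_ct_alg (v : VV ι) (r : ℝ) : ct v (algebraMap ℝ (Ex ι) r) = 0 :=
  CliffordAlgebra.contractLeft_algebraMap _ _ r

theorem L4_tau_sum (v : VV ι) : L4tau v =
    ∑ i, (v.1 i • ((0, Pi.single i 1) : VV ι) - v.2 i • ((Pi.single i 1, 0) : VV ι)) := by
  refine Prod.ext ?_ ?_ <;> ext j <;>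
    simp [L4tau, Prod.fst_sum, Prod.snd_sum, Finset.sum_apply, Pi.single_apply]

theorem L4_val_Lam (x : Ev ι) : Ev.val (Lam ι x) = L4Lam (Ev.val x) := by
  simp [Lam, L4Lam, val_dd]

theorem L4_Lam_ι (v : VV ι) (x : Ex ι) : L4Lam (ExteriorAlgebra.ι ℝ v * x) =
    ExteriorAlgebra.ι ℝ v * L4Lam x + ct (L4tau v) x := by
  rw [L4_tau_sum]
  simp only [L4Lam, map_sum, LinearMap.sum_apply, Finset.mul_sum, ← Finset.sum_add_distrib,
    Module.End.mul_apply, map_sub, map_smul, LinearMap.sub_apply, LinearMap.smul_apply, ← ct_e,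
    ← ct_f, ct_ι_mul, L4_dot]
  refine Finset.sum_congr rfl fun i _ => ?_
  simp only [single_dotProduct, one_mul, zero_dotProduct, add_zero, zero_add]
  abel

theorem L4_Lam_ct (v : VV ι) : Commute (L4Lam (ι := ι)) (ct v) := by
  refine Commute.sum_left _ _ _ fun i _ => LinearMap.ext fun x => ?_
  simp only [Module.End.mul_apply, ← ct_e, ← ct_f]
  rw [ct_comm v, ct_comm v, map_neg, neg_neg]

theorem L4_pow_ι (v : VV ι) (j : ℕ) (x : Ex ι) :
    (L4Lam (ι := ι) ^ (j + 1)) (ExteriorAlgebra.ι ℝ v * x) =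
    ExteriorAlgebra.ι ℝ v * (L4Lam (ι := ι) ^ (j + 1)) x +
      ((j : ℝ) + 1) • ct (L4tau v) ((L4Lam (ι := ι) ^ j) x) := by
  induction j with
  | zero => simpa using L4_Lam_ι v x
  | succ j ih =>
    have h := fun y => LinearMap.congr_fun (L4_Lam_ct (L4tau v)).eq y
    simp only [Module.End.mul_apply] at h
    rw [pow_succ' _ (j + 1), Module.End.mul_apply, Module.End.mul_apply, ih, map_add, map_smul,
      L4_Lam_ι, h, ← Module.End.mul_apply (L4Lam (ι := ι)) (_ ^ j), ← pow_succ']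
    push_cast
    module

theorem L4_J_ct (u : VV ι) (z : Ex ι) : ExteriorAlgebra.map L4tau (ct u z) =
    ct (L4tau u) (ExteriorAlgebra.map L4tau z) := by
  refine CliffordAlgebra.left_induction _ (P := fun z : Ex ι => ExteriorAlgebra.map L4tau (ct u z) =
    ct (L4tau u) (ExteriorAlgebra.map L4tau z)) (fun r => ?_) (fun x y hx hy => ?_)
    (fun x m hx => ?_) z
  · rw [L4_ct_alg, AlgHom.commutes, L4_ct_alg, map_zero]
  · simp only [map_add, hx, hy]
  · change ExteriorAlgebra.map L4tau (ct u (ExteriorAlgebra.ι ℝ m * x)) =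
      ct (L4tau u) (ExteriorAlgebra.map L4tau (ExteriorAlgebra.ι ℝ m * x))
    rw [ct_ι_mul, map_sub, map_smul, map_mul, map_mul, ExteriorAlgebra.map_apply_ι, ct_ι_mul, hx]
    congr 2
    simp [L4_dot, L4tau, add_comm]

theorem L4_B_zero (x : Ex ι) : L4B 0 x = ExteriorAlgebra.map L4tau x := by
  simp [L4B]

theorem L4_B_van {x : Ex ι} (h : L4Lam x = 0) (j : ℕ) : L4B (j + 1) x = 0 := by
  simp [L4B, pow_succ, h]

theorem L4_B_ι (v : VV ι) (j : ℕ) (x : Ex ι) : L4B (j + 1) (ExteriorAlgebra.ι ℝ v * x) =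
    ExteriorAlgebra.ι ℝ (L4tau v) * L4B (j + 1) x + ct v (L4B j x) := by
  have h1 : L4tau (L4tau v) = -v := by simp [L4tau, Prod.ext_iff]
  have h2 : ((j : ℝ) + 1) ≠ 0 := by positivity
  have h3 : (j.factorial : ℝ) ≠ 0 := by positivity
  simp only [L4B, LinearMap.smul_apply, LinearMap.comp_apply, AlgHom.toLinearMap_apply, L4_pow_ι,
    map_add, map_smul, map_mul, ExteriorAlgebra.map_apply_ι, L4_J_ct, h1, map_neg,
    LinearMap.neg_apply, mul_smul_comm, smul_add, smul_neg, smul_smul, ← neg_smul]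
  congr 2
  rw [Nat.factorial_succ]
  push_cast
  field_simp
  ring

theorem L4_ct_om (v : VV ι) : ct v (Ev.val (om ι)) = ExteriorAlgebra.ι ℝ (L4tau v) := by
  have h (w : VV ι) : ct v (ExteriorAlgebra.ι ℝ w) = dot v w • 1 := by
    have h := ct_ι_mul v w 1
    rwa [mul_one, ← map_one (algebraMap ℝ (Ex ι)), L4_ct_alg, mul_zero, sub_zero] at h
  rw [L4_tau_sum]
  simp only [om, sq, val_bb, ct_ι_mul, h, L4_dot, map_sum, map_sub, map_smul, dotProduct_single,
    mul_one, dotProduct_zero, add_zero, zero_add, mul_smul_comm]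

theorem L4_ct_e (v : VV ι) (n : ℕ) :
    ct v (L4e (n + 1)) = ExteriorAlgebra.ι ℝ (L4tau v) * L4e n := by
  have h : ∀ n : ℕ, ct v (Ev.val (om ι) ^ (n + 1)) =
      ((n : ℝ) + 1) • (ExteriorAlgebra.ι ℝ (L4tau v) * Ev.val (om ι) ^ n) := by
    intro n
    induction n with
    | zero => simp [L4_ct_om]
    | succ n ih =>
      rw [pow_succ' _ (n + 1), ct_evn_mul v (om ι).mem, ih, L4_ct_om, mul_smul_comm, ← mul_assoc,
        evn_ι (om ι).mem, mul_assoc, ← pow_succ']
      push_cast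
      module
  have h2 : ((n : ℝ) + 1) ≠ 0 := by positivity
  rw [L4e, L4e, map_smul, h, smul_smul, mul_smul_comm, Nat.factorial_succ]
  congr 1
  push_cast
  field_simp

theorem L4_e_evn (n : ℕ) : L4e n ∈ evn ι := Subalgebra.smul_mem _ (pow_mem (om ι).mem n) _

theorem L4_key {k : ℕ} {x : Ex ι} (hx : x ∈ ⋀[ℝ]^k (VV ι)) :
    (∀ j, L4B (k + 1 + j) x = 0) ∧
      ∀ r, rho x (L4e (k + r)) = ∑ j ∈ Finset.range (k + 1), L4e (r + j) * L4B j x := by
  induction hx using Submodule.pow_induction_on_left' with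
  | algebraMap c =>
    refine ⟨fun j => ?_, fun r => ?_⟩
    · rw [add_comm]
      exact L4_B_van (by simp [L4Lam, ← ct_e, L4_ct_alg]) j
    · simp [L4_B_zero, Algebra.algebraMap_eq_smul_one]
  | add x y i _ _ hx hy =>
    refine ⟨fun j => by rw [map_add, hx.1, hy.1, add_zero], fun r => ?_⟩
    simp only [map_add, LinearMap.add_apply, hx.2, hy.2, mul_add, Finset.sum_add_distrib]
  | mem_mul m hm k x _ ih =>
    obtain ⟨v, rfl⟩ := hm
    refine ⟨fun j => ?_, fun r => ?_⟩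
    · have h := ih.1 (j + 1)
      rw [show k.succ + 1 + j = k + 1 + j + 1 by omega, L4_B_ι, ih.1, add_assoc _ j, h]
      simp
    · have h0 : L4B (k + 1) x = 0 := ih.1 0
      have h1 : ∑ j ∈ Finset.range (k + 1 + 1), L4e (r + j) * (ExteriorAlgebra.ι ℝ (L4tau v) *
          L4B j x) = ∑ j ∈ Finset.range (k + 1), ExteriorAlgebra.ι ℝ (L4tau v) * L4e (r + j) *
          L4B j x := by
        rw [Finset.sum_range_succ, h0, mul_zero, mul_zero, add_zero]
        exact Finset.sum_congr rfl fun j _ => by rw [← mul_assoc, evn_ι (L4_e_evn _)]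
      rw [map_mul, rho_ι, Module.End.mul_apply, show k.succ + r = k + (r + 1) by omega, ih.2,
        map_sum, Finset.sum_range_succ' _ k.succ]
      rw [Finset.sum_range_succ'] at h1
      simp only [L4_B_ι, mul_add, Finset.sum_add_distrib, L4_B_zero, map_mul,
        ExteriorAlgebra.map_apply_ι, Nat.succ_eq_add_one] at h1 ⊢
      rw [add_right_comm, h1, ← Finset.sum_add_distrib]
      refine Finset.sum_congr rfl fun j _ => ?_
      rw [ct_evn_mul v (L4_e_evn _), add_right_comm r 1 j, L4_ct_e, add_assoc r]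

theorem L4_rho {k : ℕ} {x : Ex ι} (hx : x ∈ ⋀[ℝ]^k (VV ι)) (h0 : L4Lam x = 0) :
    rho x (Ev.val (om ι) ^ k) = (k.factorial : ℝ) • ExteriorAlgebra.map L4tau x := by
  have h := (L4_key hx).2 0
  have h3 : (k.factorial : ℝ) ≠ 0 := by positivity
  rw [Finset.sum_range_succ'] at h
  simp only [L4_B_van h0, mul_zero, Finset.sum_const_zero, zero_add, add_zero, L4e, map_smul,
    L4_B_zero, Nat.factorial_zero, Nat.cast_one, inv_one, pow_zero, one_smul, one_mul] at h
  rw [← h, smul_inv_smul₀ h3]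

omit [Fintype ι] [DecidableEq ι] in
theorem L4_rev {a : ℕ} {x : Ex ι} (hx : x ∈ ⋀[ℝ]^(2 * a) (VV ι)) :
    CliffordAlgebra.reverse (Q := 0) x = (-1 : ℝ) ^ a • x := by
  have hx' : x ∈ (LinearMap.range (ExteriorAlgebra.ι ℝ : VV ι →ₗ[ℝ] Ex ι) *
      LinearMap.range (ExteriorAlgebra.ι ℝ : VV ι →ₗ[ℝ] Ex ι)) ^ a := by
    rwa [← pow_two, ← pow_mul]
  clear hx
  induction hx' using Submodule.pow_induction_on_left' with
  | algebraMap c =>
    rw [pow_zero, one_smul]
    exact CliffordAlgebra.reverse.commutes c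
  | add x y i _ _ hx hy => rw [map_add, hx, hy, smul_add]
  | mem_mul m hm k x _ ih =>
    have h : m ∈ evn ι ∧ CliffordAlgebra.reverse (Q := 0) m = -m := by
      refine Submodule.mul_induction_on hm ?_ fun y z hy hz =>
        ⟨add_mem hy.1 hz.1, by rw [map_add, hy.2, hz.2, neg_add]⟩
      rintro _ ⟨u, rfl⟩ _ ⟨v, rfl⟩
      refine ⟨CliffordAlgebra.ι_mul_ι_mem_evenOdd_zero _ _ _, ?_⟩
      refine (CliffordAlgebra.reverse.map_mul _ _).trans ?_
      refine (congrArg₂ (· * ·) (CliffordAlgebra.reverse_ι v) (CliffordAlgebra.reverse_ι u)).trans ?_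
      exact eq_neg_of_add_eq_zero_left (ExteriorAlgebra.ι_add_mul_swap v u)
    refine (CliffordAlgebra.reverse.map_mul _ _).trans ?_
    rw [ih, h.2, evn_comm h.1 x, pow_succ]
    simp

omit [Fintype ι] [DecidableEq ι] in
theorem L4_sum (a b : Ev ι) (s : Finset ℕ) (f : ℕ → Ev ι) :
    a * (∑ j ∈ s, f j) * b = ∑ j ∈ s, a * f j * b :=
  (congrArg (· * b) (Finset.mul_sum _ _ _)).trans (Finset.sum_mul _ _ _)

theorem L4_ip (k m : ℕ) (h : k + m ≤ Fintype.card ι) (z : Ev ι) :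
    ((k.factorial : ℝ) * ((Fintype.card ι - (k + m)).factorial : ℝ)) *
      ip (Ev.val (om ι ^ m * z)) (Ev.val (om ι ^ (k + m))) =
    (((k + m).factorial : ℝ) * ((Fintype.card ι - k).factorial : ℝ)) *
      ip (Ev.val z) (Ev.val (om ι ^ k)) := by
  induction m with
  | zero => simp
  | succ m ih =>
    have h1 := Lam_om_pow (one_dgr (ι := ι)) (k + m)
    rw [Lam_zero one_dgr, mul_zero, zero_add, mul_one, mul_one] at h1
    obtain ⟨r, hr⟩ := Nat.exists_eq_add_of_le h
    have h2 := ih (by omega)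
    rw [show Fintype.card ι - (k + m) = r + 1 by omega, Nat.factorial_succ] at h2
    rw [pow_succ', mul_assoc (om ι), ip_om, ← add_assoc, h1, map_smul, map_smul,
      show Fintype.card ι - (k + m + 1) = r by omega, Nat.factorial_succ, smul_eq_mul, hr]
    rw [hr] at h2
    push_cast at h2 ⊢
    linear_combination ((k : ℝ) + m + 1) * h2

theorem hr {a : ℕ} {x : Ev ι} (hx : x ∈ Sy ι a) (h0 : Lam ι x = 0)
    (ha : 2 * a ≤ Fintype.card ι) (y : Ev ι) :
    int ι (x * y * om ι ^ (Fintype.card ι - 2 * a)) =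
      (-1) ^ a * ((Fintype.card ι - 2 * a).factorial : ℝ) * ip (Ev.val x) (Ev.val y) := by
  obtain ⟨m, hm⟩ := Nat.exists_eq_add_of_le ha
  have h1 := L4_ip (2 * a) m hm.ge (x * y)
  have hx1 : Ev.val x ∈ ⋀[ℝ]^(2 * a) (VV ι) := hx.1
  have h2 := L4_rho hx1 (by rw [← L4_val_Lam, h0, map_zero])
  have h3 : ExteriorAlgebra.map L4tau (Ev.val x) = Ev.val x := congrArg Ev.val hx.2
  have h4 : ((2 * a).factorial : ℝ) ≠ 0 := by positivity
  have h5 : ((Fintype.card ι).factorial : ℝ) ≠ 0 := by positivity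
  rw [map_mul Ev.val x y, ip_mul, L4_rev hx1, map_smul, LinearMap.smul_apply, map_pow _ _ (2 * a),
    h2, h3, map_smul, map_smul, ← hm, Nat.sub_self, Nat.factorial_zero, ip_symm (Ev.val y)] at h1
  rw [show Fintype.card ι - 2 * a = m by omega] at h1 ⊢
  simp only [smul_eq_mul, Nat.cast_one, mul_one] at h1
  rw [int_eq_ip, ip_symm, mul_comm (x * y), inv_mul_eq_iff_eq_mul₀ h5]
  refine mul_left_cancel₀ h4 ?_
  linear_combination h1

theorem hodge_std (S : Submodule ℝ (Ev ι)) (h1 : ∀ y ∈ S, om ι * y ∈ S)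
    (h2 : ∀ y ∈ S, Lam ι y ∈ S) (n : ℕ) (hn : 2 * n ≤ Fintype.card ι) {x : Ev ι}
    (hx : x ∈ Sy ι n) (hS : x ∈ S)
    (hp : ∀ y ∈ S, int ι (om ι ^ (Fintype.card ι - 2 * n + 1) * x * y) = 0) (h0 : x ≠ 0) :
    0 < (-1) ^ n * int ι (x * x * om ι ^ (Fintype.card ι - 2 * n)) := by
  obtain ⟨y, e, hy⟩ := lefschetz S h1 h2 n hn hx hS
  have hv : ∀ i ≤ n, ∀ j, i < j → om ι ^ (Fintype.card ι - 2 * n + i + j) * y i = 0 := by
    intro i hi j hij
    have h := prim_van (hy i hi).2.1.1 (hy i hi).2.2 (by omega)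
    rw [show Fintype.card ι - 2 * n + i + j = (j - i - 1) + (Fintype.card ι - 2 * (n - i) + 1) by
      omega, pow_add, mul_assoc, h, mul_zero]
  have hs : ∀ j, ∀ z ∈ S, om ι ^ j * z ∈ S := by
    intro j z hz
    induction j with
    | zero => rwa [pow_zero, one_mul]
    | succ j ih => rw [pow_succ', mul_assoc]; exact h1 _ ih
  have hz : ∀ j, j + 1 ≤ n → y (j + 1) = 0 := by
    intro j hj
    have h := hp _ (hs j _ (hy _ hj).1)
    have h3 := hr (hy _ hj).2.1 (hy _ hj).2.2 (by omega) (y (j + 1))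
    rw [e, L4_sum, Finset.sum_eq_single (j + 1)] at h
    · rw [show Fintype.card ι - 2 * (n - (j + 1)) = Fintype.card ι - 2 * n + 1 + (j + 1) + j by
        omega] at h3
      by_contra hne
      have h4 := ip_pos (x := Ev.val (y (j + 1))) fun k => hne (Ev.ext (k.trans (map_zero _).symm))
      refine absurd (h3.symm.trans ((congrArg _ (by ring)).trans h)) ?_
      positivity
    · intro i hi hne
      have hi' : i ≤ n := Nat.lt_succ_iff.1 (Finset.mem_range.1 hi)
      rcases lt_or_gt_of_ne hne with k | k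
      · linear_combination y (j + 1) * hv i hi' _ k
      · linear_combination y i * hv _ hj _ k
    · exact fun k => absurd (Finset.mem_range.2 (Nat.lt_succ_of_le hj)) k
  have e0 : x = y 0 := by
    rw [e, Finset.sum_range_succ', Finset.sum_eq_zero fun j hj => by
      rw [hz j (Finset.mem_range.1 hj), mul_zero]]
    simp
  have h4 := ip_pos (x := Ev.val x) fun k => h0 (Ev.ext (k.trans (map_zero _).symm))
  rw [hr hx (e0 ▸ (hy 0 n.zero_le).2.2) hn, ← mul_assoc, ← mul_assoc, ← mul_pow]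
  simp only [mul_neg, mul_one, neg_neg, one_pow, one_mul]
  positivity

end Pool.Agent.Work.MP_ffcd14_ag.Tr
end
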