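import Pool.Agent.Work.MP_ffcd14_ag.Tr.A3
import Pool.Agent.Work.MP_ffcd14_ag.Tr.G3
import Pool.Agent.Work.MP_ffcd14_ag.Tr.I3

/-!
# Series which represent cycle classes

Plan.  `pre_base`: `univ_base`, `cyC_gr`, `up_id`.  `pre_one`: `W = M.Z.tp`, `cyC_top`, `chart_top`,
`SW_top`, `mass_top`, `volume_Dom`, `nn_top`, `Mod.dim`.  `Pre.mul`: `U ⊕ U'`, `Univ.mul`,
`chart_prod`, `mass_prod` (`tv_SW`, `SW_xp`, `mem_Dom_sum`), `Par.cls_prod`, `up_up`,
`Bij.sdim_xp`, `Mod.prod_dim'`; `ENNReal.mul_div_mul_comm` or `div_eq_mul_inv`, `vol_pos`.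
`Pre.pull`: `Univ.pull`, `Mod.pull_gr`.  `Pre.tau`: if `d ≠ M.Z.dim` both sides vanish (`tauC_gr`,
`Par.cls_Sy`, `mp_Sy`, `int_dgr`).  Otherwise `tau_univ`, `tau_dif` (`exists_grp`), then
`int_formula` for `xp M.Z.tp W`, with the chart `(Par.top).prod (h x)` indexed by `Unit × H`
(`chart_prod`, `chart_top`), `degS`, `det_dch`, `mass_prod`, `mass_top`.
-/

namespace Pool.Agent.Work.MP_ffcd14_ag.Tr

open MvPolynomial Filter Topology MP_10f4af_ag MP_10f4af_ag.Nu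
open scoped ENNReal

set_option linter.unusedSectionVars false

universe u

variable {K : Type u} [NontriviallyNormedField K] [IsUltrametricDist K] [CompleteSpace K]
  [IsAlgClosed K] {P : Amb} {X : SV K P} (A : Unif X) {T T' U U' V : Type}

variable [Fintype T] [DecidableEq T] [Fintype T'] [DecidableEq T'] {H H' : Type}

theorem A4_ind : LinearIndependent ℝ (lg A.lam) := A.ind

theorem A4_card (M : Mod X T) : Fintype.card (T × Fin X.dim) = sdim M.Z.tp := by
  rw [SV.sdim_tp, M.dim, Fintype.card_prod, Fintype.card_fin, Nat.card_eq_fintype_card]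

theorem A4_top (hΓ : (Gam K : Set ℝ).Countable) (M : Mod X T) :
    mass (SW A M M.Z.tp) (Dom (lg A.lam) T) (Par.top K _) = vol A ^ Fintype.card T := by
  rw [show SW A M M.Z.tp = Set.univ from SW_top A M, mass_top hΓ (measurableSet_Dom (A4_ind A)),
    volume_Dom]
  rfl

theorem pre_base (M : Mod X T) (W : Sub K M.S) (hW : (W : Set (M.S.Pt K)) ⊆ M.Z.pts) {κ : Type}
    [Fintype κ] [DecidableEq κ] (hκ : Fintype.card κ = sdim W) [Countable H]
    {h : H → Par K (T × Fin X.dim) κ} (hc : Chart (Pt.trop '' SW A M W) h) :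
    Pre A M (cyC M.Z W)
      (fun x => mass (SW A M W) (Dom (lg A.lam) T) (h x) / vol A ^ Fintype.card T)
      fun x => (h x).cls := by
  obtain ⟨d, hd⟩ := Nat.exists_eq_add_of_le (M.Z.toVar.sdim_le M.Z.irr hW)
  refine ⟨T, inferInstance, inferInstance, M, id, W, κ, inferInstance, inferInstance, h, d,
    inferInstance, hW, hκ, hd.symm, hc, univ_base M W, cyC_gr hW hd.symm, fun _ => rfl,
    fun x => ?_⟩
  rw [Prod.map_id, up_id]

theorem pre_one (hΓ : (Gam K : Set ℝ).Countable) (M : Mod X T) :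
    Pre A M 1 (fun _ : Unit => 1) fun _ => 1 := by
  have h := pre_base A M M.Z.tp subset_rfl (A4_card M) (chart_top _)
  rw [cyC_top] at h
  convert h using 2
  · rw [A4_top A hΓ M]
    exact (ENNReal.div_self (pow_ne_zero _ (vol_pos A).1)
      (ENNReal.pow_ne_top (vol_pos A).2)).symm
  · exact (nn_top _).symm

variable {A}

section

variable (M : Mod X T) (M' : Mod X T') {W : Sub K M.S} {W' : Sub K M'.S} {κ κ' : Type} [Fintype κ]
  [DecidableEq κ] [Fintype κ'] [DecidableEq κ'] (t : TV (SW A M W) (Fintype.card κ))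
  (t' : TV (SW A M' W') (Fintype.card κ'))

include t t'

theorem A4_chart {g : H → Par K (T × Fin X.dim) κ} {g' : H' → Par K (T' × Fin X.dim) κ'}
    (hc : Chart (Pt.trop '' SW A M W) g) (hc' : Chart (Pt.trop '' SW A M' W') g') :
    Chart (Pt.trop '' SW A (M.prod M')
      ((bij_sum (k := K) (P := M.S) (Q := M'.S)).xp W W' : Set ((M.S.sum M'.S).Pt K)))
      fun x : H × H' => (g x.1).prod (Equiv.sumProdDistrib T T' _).symm (g' x.2) := by
  refine chart_prod _ hc hc' ?_ ?_ ?_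
  · rintro _ ⟨ξ, hξ, rfl⟩
    exact t.rnk_le ξ hξ
  · rintro _ ⟨ξ, hξ, rfl⟩
    exact t'.rnk_le ξ hξ
  · rintro _ ⟨ξ, hξ, rfl⟩
    have := (SW_xp A M M' W W' ξ).1 hξ
    exact ⟨⟨_, this.1, rfl⟩, ⟨_, this.2, rfl⟩⟩

theorem A4_mass (p : ℕ) [Fact p.Prime] [CharP K p] (hΓ : (Gam K : Set ℝ).Countable)
    (g : Par K (T × Fin X.dim) κ) (g' : Par K (T' × Fin X.dim) κ') :
    mass (SW A (M.prod M')
      ((bij_sum (k := K) (P := M.S) (Q := M'.S)).xp W W' : Set ((M.S.sum M'.S).Pt K)))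
      (Dom (lg A.lam) (T ⊕ T')) (g.prod (Equiv.sumProdDistrib T T' _).symm g') =
      mass (SW A M W) (Dom (lg A.lam) T) g * mass (SW A M' W') (Dom (lg A.lam) T') g' :=
  mass_prod p hΓ _ t t' (SW_xp A M M' W W') (measurableSet_Dom (A4_ind A)) (measurableSet_Dom (A4_ind A))
    (fun _ => mem_Dom_sum) g g'

end

theorem Pre.mon {M : Mod X T} {c : CR M.Z} {a : H → ℝ≥0∞} {v : H → Ev (T × Fin X.dim)}
    (h : Pre A M c a v) (x : H) : v x ∈ Mon _ := by
  obtain ⟨U, _, _, MU, r, W, κ, _, _, g, d, -, -, -, -, -, -, -, -, hv⟩ := h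
  rw [hv]
  exact mp_Mon _ (g x).cls_Mon

theorem Pre.pull {M : Mod X T} {c : CR M.Z} {a : H → ℝ≥0∞} {v : H → Ev (T × Fin X.dim)}
    (h : Pre A M c a v) (M' : Mod X T') (f : T ↪ T') :
    Pre A M' (M.pull M' f c) a fun x => up (Prod.map f id) (v x) := by
  obtain ⟨U, _, _, MU, r, W, κ, _, _, g, d, hH, hW, hκ, hd, hc, hu, hg, ha, hv⟩ := h
  refine ⟨U, inferInstance, inferInstance, MU, f ∘ r, W, κ, inferInstance, inferInstance, g, d,
    hH, hW, hκ, hd, hc, hu.pull M' f, M.pull_gr M' f hg, ha, fun x => ?_⟩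
  beta_reduce
  rw [hv, up_up]
  rfl

variable (p : ℕ) [Fact p.Prime] [CharP K p] (hΓ : (Gam K : Set ℝ).Countable)

include p hΓ

theorem Pre.mul {M : Mod X T} {c c' : CR M.Z} {a : H → ℝ≥0∞} {v : H → Ev (T × Fin X.dim)}
    {a' : H' → ℝ≥0∞} {v' : H' → Ev (T × Fin X.dim)} (h : Pre A M c a v) (h' : Pre A M c' a' v') :
    Pre A M (c * c') (fun x : H × H' => a x.1 * a' x.2) fun x => v x.1 * v' x.2 := by
  obtain ⟨U, _, _, MU, r, W, κ, _, _, g, d, hH, hW, hκ, hd, hc, hu, hg, ha, hv⟩ := h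
  obtain ⟨U', _, _, MU', r', W', κ', _, _, g', d', hH', hW', hκ', hd', hc', hu', hg', ha', hv'⟩ :=
    h'
  have t : TV (SW A MU W) (Fintype.card κ) := hκ ▸ tv_SW A p MU W hW
  have t' : TV (SW A MU' W') (Fintype.card κ') := hκ' ▸ tv_SW A p MU' W' hW'
  refine ⟨U ⊕ U', inferInstance, inferInstance, MU.prod MU', Sum.elim r r',
    (bij_sum (k := K) (P := MU.S) (Q := MU'.S)).xp W W', κ ⊕ κ', inferInstance, inferInstance,
    fun x => (g x.1).prod (Equiv.sumProdDistrib U U' _).symm (g' x.2), d + d', inferInstance,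
    xp_sub MU MU' hW hW', ?_, ?_, A4_chart MU MU' t t' hc hc', hu.mul hu' hW hW',
    CR.mul_gr hg hg', fun x => ?_, fun x => ?_⟩
  · rw [Fintype.card_sum, hκ, hκ']
    exact (Bij.sdim_xp _ W W').symm
  · have := (bij_sum (k := K) (P := MU.S) (Q := MU'.S)).sdim_xp W W'
    rw [Mod.prod_dim', ← hd, ← hd', add_add_add_comm, ← this]
    rfl
  · refine Eq.trans ?_ (congrArg (· / _) (A4_mass MU MU' t t' p hΓ _ _)).symm
    beta_reduce
    rw [ha, ha', Fintype.card_sum, pow_add,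
      ENNReal.mul_div_mul_comm (Or.inl (pow_ne_zero _ (vol_pos A).1))
        (Or.inl (ENNReal.pow_ne_top (vol_pos A).2))]
  · beta_reduce
    rw [Par.cls_prod, map_mul, up_up, up_up, hv, hv']
    rfl

theorem Pre.tau {M : Mod X T} {c : CR M.Z} {a : H → ℝ≥0∞} {v : H → Ev (T × Fin X.dim)}
    (h : Pre A M c a v) : 0 ≤ tauC M.Z c ∧ ENNReal.ofReal (tauC M.Z c) =
      vol A ^ Fintype.card T * ∑' x, a x * ENNReal.ofReal (int _ (v x)) := by
  obtain ⟨U, _, _, MU, r, W, κ, _, _, g, d, hH, hW, hκ, hd, hc, hu, hg, ha, hv⟩ := h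
  have hU := (A4_card MU).trans MU.Z.sdim_tp
  have hT := (A4_card M).trans M.Z.sdim_tp
  by_cases e : d = M.Z.dim
  swap
  · have h0 (x : H) : int _ (v x) = 0 := by
      rw [hv]
      exact int_dgr (mp_Sy _ ((g x).cls_Sy (c := d) (by omega))).1 (by omega)
    simp [tauC_gr hg e, h0]
  obtain ⟨o, ho⟩ := exists_grp A
  have hW' := xp_sub M MU (W := M.Z.tp) subset_rfl hW
  have hs : sdim ((bij_sum (k := K) (P := M.S) (Q := MU.S)).xp M.Z.tp W) = MU.Z.dim := by
    rw [Bij.sdim_xp, SV.sdim_tp]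
    omega
  have t : TV (SW A M M.Z.tp) (Fintype.card (T × Fin X.dim)) :=
    A4_card M ▸ tv_SW A p M M.Z.tp subset_rfl
  have t' : TV (SW A MU W) (Fintype.card κ) := hκ ▸ tv_SW A p MU W hW
  have hk : Fintype.card ((T × Fin X.dim) ⊕ κ) = MU.Z.dim := by
    rw [Fintype.card_sum]
    omega
  have t'' := (congrArg (TV _) (hs.trans hk.symm)).mp (tv_SW A p (M.prod MU) _ hW')
  have h1 := int_formula p hΓ t'' (A4_chart M MU t t' (chart_top _) hc)
    (Fintype.equivOfCardEq (hk.trans hU.symm)) (measurableSet_Dom (A4_ind A)) (lat_mem A.ne)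
    (measurableSet_Dom (A4_ind A)) (exists_dom_lat (A4_ind A))
    (degS A p (M.prod MU) Sum.inr (fun u => Sum.inl (r u)) _ hW'
      (by rw [← Nat.card_eq_fintype_card, ← MU.dim]; exact hs))
  rw [volume_Dom] at h1
  refine (tau_univ hu hW).trans (tau_dif ho M MU r _ hW' hs) ▸ ⟨Nat.cast_nonneg _, ?_⟩
  have v0 : vol A ^ Fintype.card U ≠ 0 := pow_ne_zero _ (vol_pos A).1
  have v1 : vol A ^ Fintype.card U ≠ ⊤ := ENNReal.pow_ne_top (vol_pos A).2
  rw [Rat.cast_natCast, ENNReal.ofReal_natCast, ← ENNReal.mul_left_inj v0 v1,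
    ← ENNReal.tsum_mul_left, ← ENNReal.tsum_mul_right, ← (Equiv.punitProd H).tsum_eq]
  refine h1.trans (tsum_congr fun x => ?_)
  rw [det_dch, ← hv]
  refine (congrArg (· * _) (A4_mass M MU t t' p hΓ _ _)).trans ?_
  rw [A4_top A hΓ M, ha, mul_assoc, mul_assoc, mul_right_comm (_ / _),
    ENNReal.div_mul_cancel v0 v1]
  rfl

end Pool.Agent.Work.MP_ffcd14_ag.Tr
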