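import Pool.Agent.Work.MP_ffcd14_ag.Tr.L5

/-!
# Sums of series of forms

Plan.  `PSum.mem`: a linear form which vanishes on `S` vanishes at `s` (apply the definition to
`φ` and `-φ`); `Subspace.forall_mem_dualAnnihilator_apply_eq_zero_iff` or
`Submodule.exists_dual_map_eq_bot_of_notMem`.  `PSum.mul`: apply the definition first to
`z ↦ φ (B (v h) z)` and then to `z ↦ φ (B z s')`; `ENNReal.tsum_prod`, `ENNReal.tsum_mul_left`.
`exists_psum`: take a finite basis `b` of `V` and `s = ∑ j, (∑' h, (a h).toReal * b.coord j (v h)) • b j`.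
For every `φ` the series `(a h).toReal * φ (v h)` is summable (comparison with the `ψ I`), with sum
`φ s`.  If `a h = ⊤` then all `ψ I (v h)` vanish, so that `φ (v h) = 0`.
`ENNReal.ofReal_tsum_of_nonneg`.
`bound`: replace `x` by `mp σ x` to assume `n i = δ_i` (`int_mp`).  The map
`(m, m') ↦ φ (∏ bb (m k) (m' k))` is alternating multilinear in `m` and in `m'` (`bb_mul_bb`).  For
an alternating map `F` in `c` variables, `c! F m = ∑_(I : Fin c → ι) det (m k (I l)) F (δ ∘ I)`
(`MultilinearMap.map_sum`, `AlternatingMap.map_perm`, `Matrix.det_apply`).  So `φ (∏ sq (m k))` is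
a combination with bounded coefficients of the products `det_I det_J`, bounded by
`det_I ^ 2 + det_J ^ 2`, and for `I` injective `det_I ^ 2` is the integral of
`∏ sq (m k) * ∏_(i ∉ range I) sq δ_i` (`int_prod_sq`); all terms are nonnegative (`int_Mon`).
-/

namespace Pool.Agent.Work.MP_ffcd14_ag.Tr

open scoped ENNReal

section

variable {H H' V V' V'' : Type} [AddCommGroup V] [Module ℝ V] [AddCommGroup V'] [Module ℝ V']
  [AddCommGroup V''] [Module ℝ V'']

theorem PSum.mem {a : H → ℝ≥0∞} {v : H → V} {s : V} (h : PSum a v s) {S : Submodule ℝ V}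
    (hv : ∀ x, v x ∈ S) : s ∈ S := by
  by_contra hs
  obtain ⟨φ, h1, h2⟩ := Submodule.exists_dual_map_eq_bot_of_notMem hs inferInstance
  have h3 (x : H) : φ (v x) = 0 := by
    have : φ (v x) ∈ S.map φ := Submodule.mem_map_of_mem (hv x)
    rwa [h2, Submodule.mem_bot] at this
  obtain ⟨h4, h5⟩ := h φ fun x => (h3 x).ge
  simp only [h3, ENNReal.ofReal_zero, mul_zero, tsum_zero, ENNReal.ofReal_eq_zero] at h5
  exact h1 (le_antisymm h5 h4)

theorem PSum.map {a : H → ℝ≥0∞} {v : H → V} {s : V} (h : PSum a v s) (f : V →ₗ[ℝ] V') :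
    PSum a (fun x => f (v x)) (f s) := by
  intro φ hφ
  exact h (φ ∘ₗ f) hφ

theorem PSum.mul {a : H → ℝ≥0∞} {v : H → V} {s : V} (h : PSum a v s) {a' : H' → ℝ≥0∞}
    {v' : H' → V'} {s' : V'} (h' : PSum a' v' s') (B : V →ₗ[ℝ] V' →ₗ[ℝ] V'') :
    PSum (fun x : H × H' => a x.1 * a' x.2) (fun x => B (v x.1) (v' x.2)) (B s s') := by
  intro φ hφ
  have h1 (x : H) := h' (φ ∘ₗ B (v x)) fun y => hφ (x, y)
  obtain ⟨h2, h3⟩ := h (φ ∘ₗ B.flip s') fun x => (h1 x).1
  refine ⟨h2, h3.trans ?_⟩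
  rw [ENNReal.tsum_prod']
  refine tsum_congr fun x => ?_
  have h4 := (h1 x).2
  simp only [LinearMap.comp_apply, LinearMap.flip_apply] at h4 ⊢
  rw [h4, ← ENNReal.tsum_mul_left]
  simp only [mul_assoc]

theorem psum_const {a : H → ℝ≥0∞} (ha : ∑' x, a x ≠ ⊤) (v : V) :
    PSum a (fun _ => v) ((∑' x, a x).toReal • v) := by
  intro φ hφ
  rw [map_smul, smul_eq_mul, ENNReal.ofReal_mul ENNReal.toReal_nonneg, ENNReal.ofReal_toReal ha,
    ENNReal.tsum_mul_right]
  refine ⟨?_, rfl⟩
  cases isEmpty_or_nonempty H with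
  | inl h => simp
  | inr h => exact mul_nonneg ENNReal.toReal_nonneg (hφ h.some)

theorem exists_psum [Module.Finite ℝ V] (a : H → ℝ≥0∞) (v : H → V) {F : Type} (s : Finset F)
    (ψ : F → V →ₗ[ℝ] ℝ) (h0 : ∀ I ∈ s, ∀ x, 0 ≤ ψ I (v x))
    (h1 : ∀ I ∈ s, ∑' x, a x * ENNReal.ofReal (ψ I (v x)) ≠ ⊤)
    (h2 : ∀ φ : V →ₗ[ℝ] ℝ, ∃ C : ℝ, ∀ x, |φ (v x)| ≤ C * ∑ I ∈ s, ψ I (v x)) :
    ∃ z, PSum a v z := by
  have hs (φ : V →ₗ[ℝ] ℝ) : Summable fun x => (a x).toReal * φ (v x) := by
    obtain ⟨C, hC⟩ := h2 φ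
    have h3 : Summable fun x => C * ∑ I ∈ s, (a x).toReal * ψ I (v x) := by
      refine Summable.mul_left C (summable_sum fun I hI => ?_)
      refine (ENNReal.summable_toReal (h1 I hI)).congr fun x => ?_
      rw [ENNReal.toReal_mul, ENNReal.toReal_ofReal (h0 I hI x)]
    refine h3.of_norm_bounded fun x => ?_
    rw [Real.norm_eq_abs, abs_mul, abs_of_nonneg ENNReal.toReal_nonneg, ← Finset.mul_sum,
      mul_left_comm]
    exact mul_le_mul_of_nonneg_left (hC x) ENNReal.toReal_nonneg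
  let T : Module.Dual ℝ (Module.Dual ℝ V) :=
    { toFun := fun φ => ∑' x, (a x).toReal * φ (v x)
      map_add' := fun φ φ' => by
        rw [← (hs φ).tsum_add (hs φ')]
        simp only [LinearMap.add_apply, mul_add]
      map_smul' := fun c φ => by
        rw [RingHom.id_apply, smul_eq_mul, ← (hs φ).tsum_mul_left]
        simp only [LinearMap.smul_apply, smul_eq_mul, mul_left_comm] }
  refine ⟨(Module.evalEquiv ℝ V).symm T, fun φ hφ => ?_⟩
  have h4 : φ ((Module.evalEquiv ℝ V).symm T) = ∑' x, (a x).toReal * φ (v x) :=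
    Module.apply_evalEquiv_symm_apply ℝ V φ T
  have h5 (x : H) : 0 ≤ (a x).toReal * φ (v x) := mul_nonneg ENNReal.toReal_nonneg (hφ x)
  rw [h4, ENNReal.ofReal_tsum_of_nonneg h5 (hs φ)]
  refine ⟨tsum_nonneg h5, tsum_congr fun x => ?_⟩
  by_cases hx : a x = ⊤
  · obtain ⟨C, hC⟩ := h2 φ
    have h6 : ∑ I ∈ s, ψ I (v x) = 0 := by
      refine Finset.sum_eq_zero fun I hI => ?_
      have h7 := ENNReal.ne_top_of_tsum_ne_top (h1 I hI) x
      rw [hx] at h7
      by_contra h8
      exact h7 (ENNReal.top_mul (by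
        rw [Ne, ENNReal.ofReal_eq_zero]
        exact fun h9 => h8 (le_antisymm h9 (h0 I hI x))))
    have h7 := hC x
    rw [h6, mul_zero, abs_nonpos_iff] at h7
    simp [h7]
  · rw [ENNReal.ofReal_mul ENNReal.toReal_nonneg, ENNReal.ofReal_toReal hx]

end

section

variable {V R ι κ : Type} [AddCommGroup V] [Module ℝ V] [CommRing R] [Algebra ℝ R] [Fintype κ]
  [DecidableEq κ]

/-- A product of values of a bilinear map with the exchange rule is alternating. -/
noncomputable def l9Alt (B : V →ₗ[ℝ] V →ₗ[ℝ] R)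
    (hB : ∀ a b c d, B a b * B c d = -(B a d * B c b)) (m' : κ → V) : V [⋀^κ]→ₗ[ℝ] R where
  toMultilinearMap := (MultilinearMap.mkPiAlgebra ℝ κ R).compLinearMap fun k => B.flip (m' k)
  map_eq_zero_of_eq' m i j h hij := by
    change ∏ k, B (m k) (m' k) = 0
    have h1 : B (m i) (m' i) * B (m j) (m' j) = 0 := by
      have h2 := hB (m i) (m' i) (m j) (m' j)
      rw [← h] at h2 ⊢
      have h3 : (2 : ℝ) • (B (m i) (m' i) * B (m i) (m' j)) = 0 := by
        rw [two_smul]
        nth_rewrite 1 [h2]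
        rw [mul_comm, neg_add_cancel]
      exact (smul_eq_zero.1 h3).resolve_left two_ne_zero
    rw [← Finset.mul_prod_erase _ _ (Finset.mem_univ i),
      ← Finset.mul_prod_erase _ _ (Finset.mem_erase.2 ⟨hij.symm, Finset.mem_univ j⟩),
      ← mul_assoc, h1, zero_mul]

/-- The minor with columns `I`. -/
noncomputable def l9D (A : Matrix κ ι ℝ) (I : κ → ι) : ℝ := (Matrix.of fun l k => A k (I l)).det

theorem l9_expand [Fintype ι] {N : Type} [AddCommGroup N] [Module ℝ N] (F : V [⋀^κ]→ₗ[ℝ] N)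
    (A : Matrix κ ι ℝ) (n : ι → V) :
    ((Fintype.card κ).factorial : ℝ) • F (fun k => ∑ i, A k i • n i) =
      ∑ I : κ → ι, l9D A I • F (fun k => n (I k)) := by
  have h1 : F (fun k => ∑ i, A k i • n i) =
      ∑ I : κ → ι, (∏ k, A k (I k)) • F (fun k => n (I k)) := by
    refine (F.toMultilinearMap.map_sum fun k i => A k i • n i).trans ?_
    exact Finset.sum_congr rfl fun I _ => F.map_smul_univ _ _
  have h2 (σ : Equiv.Perm κ) : F (fun k => ∑ i, A k i • n i) =
      ∑ I : κ → ι, (Equiv.Perm.sign σ • ∏ k, A k (I (σ k))) • F (fun k => n (I k)) := by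
    rw [h1, ← (Equiv.arrowCongr σ (Equiv.refl ι)).symm.sum_comp]
    refine Finset.sum_congr rfl fun I _ => ?_
    have h3 := F.map_perm (fun k => n (I k)) σ
    have h4 : F (fun k => n ((Equiv.arrowCongr σ (Equiv.refl ι)).symm I k)) =
        Equiv.Perm.sign σ • F (fun k => n (I k)) := h3
    rw [h4, smul_comm, smul_assoc]
    rfl
  calc ((Fintype.card κ).factorial : ℝ) • F (fun k => ∑ i, A k i • n i)
      = ∑ _σ : Equiv.Perm κ, F (fun k => ∑ i, A k i • n i) := by
        rw [Finset.sum_const, Finset.card_univ, Fintype.card_perm, Nat.cast_smul_eq_nsmul]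
    _ = ∑ σ : Equiv.Perm κ, ∑ I : κ → ι,
        (Equiv.Perm.sign σ • ∏ k, A k (I (σ k))) • F (fun k => n (I k)) :=
        Finset.sum_congr rfl fun σ _ => h2 σ
    _ = _ := by
        rw [Finset.sum_comm]
        refine Finset.sum_congr rfl fun I _ => ?_
        rw [← Finset.sum_smul, l9D, Matrix.det_apply]
        rfl

theorem l9_expand2 [Fintype ι] (B : V →ₗ[ℝ] V →ₗ[ℝ] R)
    (hB : ∀ a b c d, B a b * B c d = -(B a d * B c b)) (A : Matrix κ ι ℝ) (n : ι → V) :
    (((Fintype.card κ).factorial : ℝ) * (Fintype.card κ).factorial) •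
      ∏ k, B (∑ i, A k i • n i) (∑ i, A k i • n i) =
      ∑ I : κ → ι, ∑ I' : κ → ι, (l9D A I * l9D A I') • ∏ k, B (n (I k)) (n (I' k)) := by
  have hB' : ∀ a b c d, B.flip a b * B.flip c d = -(B.flip a d * B.flip c b) := by
    intro a b c d
    simp only [LinearMap.flip_apply]
    rw [hB, mul_comm]
  have h1 : ((Fintype.card κ).factorial : ℝ) • ∏ k, B (∑ i, A k i • n i) (∑ i, A k i • n i) =
      ∑ I : κ → ι, l9D A I • ∏ k, B (n (I k)) (∑ i, A k i • n i) :=
    l9_expand (l9Alt B hB fun k => ∑ i, A k i • n i) A n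
  have h2 (I : κ → ι) : ((Fintype.card κ).factorial : ℝ) • ∏ k, B (n (I k)) (∑ i, A k i • n i) =
      ∑ I' : κ → ι, l9D A I' • ∏ k, B (n (I k)) (n (I' k)) :=
    l9_expand (l9Alt B.flip hB' fun k => n (I k)) A n
  rw [mul_smul, h1, Finset.smul_sum]
  refine Finset.sum_congr rfl fun I _ => ?_
  rw [smul_comm, h2, Finset.smul_sum]
  simp only [mul_smul]

theorem l9D_zero (A : Matrix κ ι ℝ) {I : κ → ι} (hI : ¬Function.Injective I) : l9D A I = 0 := by
  obtain ⟨a, b, h1, h2⟩ := Function.not_injective_iff.1 hI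
  exact Matrix.det_zero_of_row_eq h2 (funext fun k => by simp [h1])

theorem l9_det_inst {m : Type} (i₁ i₂ : DecidableEq m) (f₁ f₂ : Fintype m) (M : Matrix m m ℝ) :
    @Matrix.det m i₁ f₁ ℝ _ M = @Matrix.det m i₂ f₂ ℝ _ M := by
  cases Subsingleton.elim i₁ i₂
  cases Subsingleton.elim f₁ f₂
  rfl

theorem l9D_ext [Fintype ι] [DecidableEq ι] (A : Matrix κ ι ℝ) {I : κ → ι}
    (hI : Function.Injective I) :
    (Matrix.of (Function.extend I A fun i => Pi.single i 1)).det = l9D A I := by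
  classical
  rw [Matrix.twoBlockTriangular_det _ fun i => i ∈ Set.range I]
  · have h1 : (Matrix.of (Function.extend I A fun i => Pi.single i 1)).toSquareBlockProp
        (fun i => ¬i ∈ Set.range I) = 1 := by
      ext i j
      simp only [Matrix.toSquareBlockProp_def, Matrix.of_apply]
      rw [Function.extend_apply' _ _ _ i.2, Matrix.one_apply, Pi.single_apply]
      simp only [Subtype.ext_iff, eq_comm]
    rw [h1, Matrix.det_one, mul_one]
    have h2 := Matrix.det_submatrix_equiv_self (Equiv.ofInjective I hI)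
      ((Matrix.of (Function.extend I A fun i => Pi.single i 1)).toSquareBlockProp
        fun i => i ∈ Set.range I)
    refine Eq.trans (Eq.trans (l9_det_inst _ _ _ _ _) h2.symm) ?_
    rw [l9D, ← Matrix.det_transpose]
    congr 1
    ext k l
    simp [Matrix.toSquareBlockProp_def, hI.extend_apply]
  · intro i hi j hj
    rw [Matrix.of_apply, Function.extend_apply' _ _ _ hi, Pi.single_apply, if_neg]
    rintro rfl
    exact hi hj

end

variable {ι : Type} [Fintype ι] [DecidableEq ι]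

theorem l9_int {κ : Type} [Fintype κ] [DecidableEq κ] (n : ι → ι → ℝ) (A : Matrix κ ι ℝ)
    {I : κ → ι} (hI : Function.Injective I) :
    int ι ((∏ k, sq (∑ i, A k i • n i)) * ∏ i ∈ Finset.univ \ Finset.univ.image I, sq (n i)) =
      l9D A I ^ 2 * (Matrix.of n).det ^ 2 := by
  set A' : Matrix ι ι ℝ := Matrix.of (Function.extend I A fun i => Pi.single i 1) with hA'
  have h1 := int_prod_sq (Equiv.refl ι) fun i => ∑ j, A' i j • n j
  have h2 : (Matrix.of fun i j => (∑ j, A' ((Equiv.refl ι).symm i) j • n j) j) =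
      A' * Matrix.of n := by
    ext i j
    simp [Matrix.mul_apply, Finset.sum_apply]
  rw [h2, Matrix.det_mul, hA', l9D_ext A hI, mul_pow] at h1
  rw [← h1, ← Finset.prod_sdiff (Finset.subset_univ (Finset.univ.image I)), mul_comm,
    Finset.prod_image fun a _ b _ h => hI h]
  congr 2
  · refine Finset.prod_congr rfl fun i hi => ?_
    have h3 : ¬∃ a, I a = i := by simpa using hi
    simp only [Matrix.of_apply, Function.extend_apply' _ _ _ h3, Pi.single_apply, ite_smul,
      one_smul, zero_smul, Finset.sum_ite_eq', Finset.mem_univ, if_true]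
  · simp only [Matrix.of_apply, hI.extend_apply]

theorem bound (n : ι → ι → ℝ) (hn : int ι (∏ i, sq (n i)) ≠ 0) (c d : ℕ)
    (hcd : c + d = Fintype.card ι) (φ : Ev ι →ₗ[ℝ] ℝ) :
    ∃ C : ℝ, ∀ (s : Finset ι) (m : ι → ι → ℝ), s.card = c →
      |φ (∏ k ∈ s, sq (m k))| ≤ C * ∑ I ∈ Finset.univ.powersetCard d,
        int ι ((∏ k ∈ s, sq (m k)) * ∏ i ∈ I, sq (n i)) := by
  have hN : (Matrix.of n).det ≠ 0 := by
    rw [int_prod_sq (Equiv.refl ι)] at hn
    intro h
    have h1 : (Matrix.of fun i j => n ((Equiv.refl ι).symm i) j).det = 0 := h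
    exact hn (by rw [h1, zero_pow two_ne_zero])
  have hN2 : 0 < (Matrix.of n).det ^ 2 := by positivity
  refine ⟨(∑ I : Fin c → ι, ∑ I' : Fin c → ι, |φ (∏ k, bb (n (I k)) (n (I' k)))|) /
    (Matrix.of n).det ^ 2, fun s m hs => ?_⟩
  let e := (Finset.equivFinOfCardEq hs).symm
  let A : Matrix (Fin c) ι ℝ := (Matrix.of fun k => m (e k)) * (Matrix.of n)⁻¹
  have hA (k : Fin c) : m (e k) = ∑ i, A k i • n i := by
    have h1 : A * Matrix.of n = Matrix.of fun k => m (e k) := by
      rw [Matrix.mul_assoc, Matrix.nonsing_inv_mul _ (Ne.isUnit hN), Matrix.mul_one]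
    funext j
    have h2 := congrFun (congrFun h1 k) j
    rw [Matrix.mul_apply] at h2
    simpa [Finset.sum_apply] using h2.symm
  have hx : ∏ k ∈ s, sq (m k) = ∏ k, sq (∑ i, A k i • n i) := by
    rw [← Finset.prod_coe_sort, ← e.prod_comp]
    exact Finset.prod_congr rfl fun k _ => by rw [hA]
  rw [hx]
  set S := ∑ I ∈ Finset.univ.powersetCard d,
    int ι ((∏ k, sq (∑ i, A k i • n i)) * ∏ i ∈ I, sq (n i)) with hS
  have hp (I : Finset ι) : 0 ≤ int ι ((∏ k, sq (∑ i, A k i • n i)) * ∏ i ∈ I, sq (n i)) :=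
    int_Mon (mul_mem (prod_sq_Mon _ _) (prod_sq_Mon _ _))
  have hD (I : Fin c → ι) : l9D A I ^ 2 ≤ S / (Matrix.of n).det ^ 2 := by
    rw [le_div_iff₀ hN2]
    by_cases hI : Function.Injective I
    · rw [← l9_int n A hI]
      refine Finset.single_le_sum (fun I _ => hp I) ?_
      rw [Finset.mem_powersetCard_univ, Finset.card_sdiff_of_subset (Finset.subset_univ _),
        Finset.card_image_of_injective _ hI, Finset.card_univ, Finset.card_univ, Fintype.card_fin]
      omega
    · rw [l9D_zero A hI, zero_pow two_ne_zero, zero_mul]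
      exact Finset.sum_nonneg fun I _ => hp I
  have hD2 (I I' : Fin c → ι) : |l9D A I * l9D A I'| ≤ S / (Matrix.of n).det ^ 2 := by
    have h1 := hD I
    have h2 := hD I'
    rw [abs_le]
    constructor <;> nlinarith [sq_nonneg (l9D A I + l9D A I'), sq_nonneg (l9D A I - l9D A I')]
  have h1 := congrArg φ (l9_expand2 bbL bb_mul_bb A n)
  simp only [map_smul, map_sum φ, smul_eq_mul, bbL_apply] at h1
  have h2 : (1 : ℝ) ≤ ((Fintype.card (Fin c)).factorial : ℝ) * (Fintype.card (Fin c)).factorial :=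
    one_le_mul_of_one_le_of_one_le (Nat.one_le_cast.2 (Nat.factorial_pos _))
      (Nat.one_le_cast.2 (Nat.factorial_pos _))
  calc |φ (∏ k, sq (∑ i, A k i • n i))|
      ≤ |((Fintype.card (Fin c)).factorial : ℝ) * (Fintype.card (Fin c)).factorial *
        φ (∏ k, sq (∑ i, A k i • n i))| := by
        rw [abs_mul, abs_of_nonneg (zero_le_one.trans h2)]
        exact le_mul_of_one_le_left (abs_nonneg _) h2
    _ = |∑ I : Fin c → ι, ∑ I' : Fin c → ι,
        l9D A I * l9D A I' * φ (∏ k, bb (n (I k)) (n (I' k)))| := congrArg _ h1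
    _ ≤ ∑ I : Fin c → ι, ∑ I' : Fin c → ι,
        S / (Matrix.of n).det ^ 2 * |φ (∏ k, bb (n (I k)) (n (I' k)))| := by
        refine (Finset.abs_sum_le_sum_abs _ _).trans (Finset.sum_le_sum fun I _ => ?_)
        refine (Finset.abs_sum_le_sum_abs _ _).trans (Finset.sum_le_sum fun I' _ => ?_)
        rw [abs_mul]
        exact mul_le_mul_of_nonneg_right (hD2 I I') (abs_nonneg _)
    _ = _ := by
        simp only [← Finset.mul_sum]
        ring

end Pool.Agent.Work.MP_ffcd14_ag.Tr
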