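import Pool.Agent.Work.MP_ffcd14_ag.Tr.A4
import Pool.Agent.Work.MP_ffcd14_ag.Tr.G4
import Pool.Agent.Work.MP_ffcd14_ag.Tr.L9

/-!
# The tropical data of a uniformised abelian variety

Write `ι = Unit × Fin X.dim`.  Plan.  `exists_pre`: `exists_chart` (`tv_SW`, `TV.rnk_le`),
`pre_base`, `Par.cls_eq`.  `exists_basis`: `X` has a form of positive multidegree which does not
vanish identically (a product of coordinates, `Nu.crd`, `not_van_prod`); by `tau_l_pos`,
`exists_div` and the expansion of the power (`Finset.sum_pow'` or `Finset.prod_univ_sum`) there are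
prime divisors `Z i`, `i : ι`, with `tauC (∏ cyC (Z i)) ≠ 0`.  By induction on a finite set `I`
(`Pre.mul`, `pre_one`) the class `∏ i ∈ I, cyC (Z i)` has a series all of whose terms with `a x ≠ 0`
are products `∏ i ∈ I, sq (n i)` with `Term (cyC (Z i)) (sq (n i))`; `Pre.tau` gives a term with
a nonzero integral.  `Term.mul`, `term_one` give `Term` for the subproducts.
`exists_good`: `exists_psum` with the forms `z ↦ int (z * ∏ i ∈ I, sq (n i))`, `bound`, `int_Mon`;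
the finiteness comes from `Pre.tau` for the product series, restricted to the terms `(x, x₀)`
(`ENNReal.tsum_prod`, `ENNReal.le_tsum`).  `PSum.mem`, `prod_sq_Sy`.  `good_gam`: `pre_base` with
`chart_gam`, `SW_gam`, `cls_gch`, `psum_const`, `sum_mass_gam`.  `exists_td`: `R = RelT A`,
`κ = cov (lg A.lam)`; induction on `RelT`; `PSum.mul` with `LinearMap.mul`, `PSum.map`; for `cyc`
take `e = up Prod.snd e₁` (`up_up`, `up_id`, `mp_Sy`, `mp_sq`, `mp_mp`).
-/

namespace Pool.Agent.Work.MP_ffcd14_ag.Tr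

open MvPolynomial Filter Topology MP_10f4af_ag MP_10f4af_ag.Nu
open scoped ENNReal

set_option linter.unusedSectionVars false

universe u

variable {K : Type u} [NontriviallyNormedField K] [IsUltrametricDist K] [CompleteSpace K]
  [IsAlgClosed K] {P : Amb} {X : SV K P} (A : Unif X) {T T' U U' V : Type}

variable (p : ℕ) [Fact p.Prime] [CharP K p] (hΓ : (Gam K : Set ℝ).Countable)

/-- `w` is a term with a nonzero coefficient of a series which represents `c`. -/
def Term (c : CR X) (w : Ev (Unit × Fin X.dim)) : Prop :=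
  ∃ (H : Type) (a : H → ℝ≥0∞) (v : H → Ev (Unit × Fin X.dim)) (x : H),
    Pre A (Mod.one X) c a v ∧ a x ≠ 0 ∧ v x = w

include p hΓ

theorem exists_pre {Z : Sub K P} {c : ℕ} (hZ : (Z : Set (P.Pt K)) ⊆ X.pts)
    (hc : sdim Z + c = X.dim) : ∃ (H : Type) (a : H → ℝ≥0∞) (v : H → Ev (Unit × Fin X.dim)),
      Pre A (Mod.one X) (cyC X Z) a v ∧ ∀ x, ∃ (s : Finset (Unit × Fin X.dim))
        (m : Unit × Fin X.dim → Unit × Fin X.dim → ℝ), s.card = c ∧ v x = ∏ k ∈ s, sq (m k) := by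
  obtain ⟨H, _, h, hh⟩ := exists_chart hΓ (sdim Z) 
    (Y := Pt.trop '' SW A (Mod.one X) (Z : Set (P.Pt K))) (by
    rintro _ ⟨ξ, hξ, rfl⟩
    exact (tv_SW A p (Mod.one X) Z hZ).rnk_le ξ hξ)
  exact ⟨H, _, _, pre_base A (Mod.one X) Z hZ (Fintype.card_fin _) hh, fun x =>
    (h x).cls_eq (by simp; omega)⟩

theorem exists_basis : ∃ n : Unit × Fin X.dim → Unit × Fin X.dim → ℝ,
    int _ (∏ i, sq (n i)) ≠ 0 ∧ ∀ I : Finset (Unit × Fin X.dim), ∃ c, Term A c (∏ i ∈ I, sq (n i)) := by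
  obtain ⟨f, hf, hv⟩ := exists_form_deg (Set.finite_singleton X.tp)
    (Finsupp.equivFunOnFinite.symm fun _ => 1)
  obtain ⟨s, m, hs, e⟩ := exists_div X hf (hv _ rfl)
  have h0 := (tau_l_pos X (a := Finsupp.equivFunOnFinite.symm fun _ => 1) fun _ => one_pos).ne'
  have h1 : ∀ y : CR X, y ^ X.dim = ∏ _i : Unit × Fin X.dim, y := fun y => by simp
  rw [e, h1, Finset.prod_univ_sum, map_sum] at h0
  obtain ⟨Z, hZ, h0⟩ := Finset.exists_ne_zero_of_sum_ne_zero h0
  replace hZ := fun i => hs _ (Fintype.mem_piFinset.1 hZ i)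
  rw [Finset.prod_smul, map_smul] at h0
  have key : ∀ I : Finset (Unit × Fin X.dim), ∃ (H : Type) (a : H → ℝ≥0∞)
      (v : H → Ev (Unit × Fin X.dim)), Pre A (Mod.one X) (∏ i ∈ I, cyC X (Z i) : CR X) a v ∧
      ∀ x, a x ≠ 0 → ∃ n : Unit × Fin X.dim → Unit × Fin X.dim → ℝ,
        v x = ∏ i ∈ I, sq (n i) ∧ ∀ i ∈ I, Term A (cyC X (Z i)) (sq (n i)) := by
    intro I
    induction I using Finset.induction_on with
    | empty => exact ⟨_, _, _, pre_one A hΓ _, fun _ _ => ⟨0, rfl, by simp⟩⟩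
    | insert j I hj ih =>
      obtain ⟨H, a, v, h2, h3⟩ := ih
      obtain ⟨H', a', v', h4, h5⟩ := exists_pre A p hΓ (hZ j).1 (hZ j).2
      rw [Finset.prod_insert hj]
      refine ⟨_, _, _, h4.mul p hΓ h2, fun x hx => ?_⟩
      obtain ⟨n, e1, e2⟩ := h3 x.2 (right_ne_zero_of_mul hx)
      obtain ⟨t, m, e3, e4⟩ := h5 x.1
      obtain ⟨k, rfl⟩ := Finset.card_eq_one.1 e3
      rw [Finset.prod_singleton] at e4
      have e5 : ∀ i ∈ I, Function.update n j (m k) i = n i := fun i hi =>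
        Function.update_of_ne (ne_of_mem_of_not_mem hi hj) _ _
      refine ⟨Function.update n j (m k), ?_, Finset.forall_mem_insert _ _ _ |>.2 ⟨?_, fun i hi => ?_⟩⟩
      · rw [Finset.prod_insert hj, Function.update_self, e1, e4,
          Finset.prod_congr rfl fun i hi => congrArg sq (e5 i hi)]
      · rw [Function.update_self]
        exact ⟨_, _, _, x.1, h4, left_ne_zero_of_mul hx, e4⟩
      · rw [e5 i hi]
        exact e2 i hi
  obtain ⟨H, a, v, h2, h3⟩ := key Finset.univ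
  obtain ⟨h4, h5⟩ := h2.tau p hΓ
  obtain ⟨x, hx⟩ : ∃ x, a x * ENNReal.ofReal (int _ (v x)) ≠ 0 := by
    by_contra! k
    rw [ENNReal.tsum_eq_zero.2 k, mul_zero, ENNReal.ofReal_eq_zero, Rat.cast_nonpos] at h5
    exact right_ne_zero_of_smul h0 (h5.antisymm h4)
  obtain ⟨n, e1, e2⟩ := h3 x (left_ne_zero_of_mul hx)
  refine ⟨n, fun k => right_ne_zero_of_mul hx (by rw [e1, k, ENNReal.ofReal_zero]), fun I =>
    ⟨∏ i ∈ I, cyC X (Z i), Finset.prod_hom_rel (r := Term A)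
      ⟨_, _, _, (), pre_one A hΓ _, one_ne_zero, rfl⟩ fun i b c k => ?_⟩⟩
  obtain ⟨H, a, v, x, k1, k2, k3⟩ := e2 i (Finset.mem_univ i)
  obtain ⟨H', a', v', x', l1, l2, l3⟩ := k
  exact ⟨_, _, _, (x, x'), k1.mul p hΓ l1, mul_ne_zero k2 l2, congrArg₂ (· * ·) k3 l3⟩

theorem exists_good {Z : Sub K P} {c : ℕ} (hZ : (Z : Set (P.Pt K)) ⊆ X.pts)
    (hc : sdim Z + c = X.dim) : ∃ e ∈ Sy (Unit × Fin X.dim) c, Good A (Mod.one X) (cyC X Z) e ∧
      (c = 1 → e ∈ Submodule.span ℝ (Set.range sq) ∧ Psd e) := by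
  obtain ⟨n, hn, hT⟩ := exists_basis A p hΓ
  obtain ⟨H, a, v, hP, hv⟩ := exists_pre A p hΓ hZ hc
  have h1 : ∀ I : Finset (Unit × Fin X.dim),
      ∑' x, a x * ENNReal.ofReal (int _ (v x * ∏ i ∈ I, sq (n i))) ≠ ⊤ := fun I k => by
    obtain ⟨c', H', a', v', y, h1, h2, h3⟩ := hT I
    have h4 := ((hP.mul p hΓ h1).tau p hΓ).2
    have h5 := ENNReal.tsum_comp_le_tsum_of_injective (Prod.mk_left_injective y)
      fun x : H × H' => a x.1 * a' x.2 * ENNReal.ofReal (int _ (v x.1 * v' x.2))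
    simp only [h3, mul_right_comm _ (a' y), ENNReal.tsum_mul_right] at h5
    rw [k, ENNReal.top_mul h2, top_le_iff] at h5
    rw [h5, ENNReal.mul_top (pow_ne_zero _ (vol_pos A).1)] at h4
    exact ENNReal.ofReal_ne_top h4
  have h2 : ∀ φ : Ev (Unit × Fin X.dim) →ₗ[ℝ] ℝ, ∃ C : ℝ, ∀ x, |φ (v x)| ≤
      C * ∑ I ∈ Finset.univ.powersetCard (sdim Z), int _ (v x * ∏ i ∈ I, sq (n i)) := fun φ => by
    obtain ⟨C, hC⟩ := bound n hn c (sdim Z) (by simp; omega) φ
    refine ⟨C, fun x => ?_⟩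
    obtain ⟨s, m, h1, h2⟩ := hv x
    rw [h2]
    exact hC s m h1
  obtain ⟨z, hz⟩ := exists_psum a v (Finset.univ.powersetCard (sdim Z))
    (fun I => int _ ∘ₗ LinearMap.mulRight ℝ (∏ i ∈ I, sq (n i)))
    (fun I _ x => int_Mon (mul_mem (hP.mon x) (prod_sq_Mon I n))) (fun I _ => h1 I) h2
  refine ⟨z, hz.mem fun x => ?_, ⟨H, a, v, hP, hz⟩, fun h1 => ⟨hz.mem fun x => ?_, fun σ => ?_⟩⟩
  · obtain ⟨s, m, e, h2⟩ := hv x
    rw [h2, ← e]
    exact prod_sq_Sy s m
  · obtain ⟨s, m, e, h2⟩ := hv x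
    obtain ⟨k, rfl⟩ := Finset.card_eq_one.1 (e.trans h1)
    rw [h2, Finset.prod_singleton]
    exact Submodule.subset_span ⟨_, rfl⟩
  · exact (hz.map (mp σ).toLinearMap (int Unit) fun x => int_Mon (mp_Mon σ (hP.mon x))).1

theorem good_gam : ∃ c : ℝ, 0 < c ∧ Good A (M3 X) (cyC (M3 X).Z (gW A))
    (c • gam (Sum.inl (Sum.inl ())) (Sum.inl (Sum.inr ())) (Sum.inr ())) := by
  have hP := pre_base A (M3 X) (gW A) (gW_sub A) (κ := (Unit ⊕ Unit) × Fin X.dim)
    (by simp [sdim_gW, two_mul]) (h := gch A.ne) (by rw [SW_gam]; exact chart_gam A.ne A.ind)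
  simp only [cls_gch] at hP
  obtain ⟨v0, v1⟩ := vol_pos A
  have e : ∑' n, mass (SW A (M3 X) (gW A)) (Dom (lg A.lam) _) (gch A.ne n) /
      vol A ^ Fintype.card ((Unit ⊕ Unit) ⊕ Unit) =
      vol A ^ 2 / vol A ^ Fintype.card ((Unit ⊕ Unit) ⊕ Unit) := by
    simp only [div_eq_mul_inv, ENNReal.tsum_mul_right]
    rw [SW_gam, sum_mass_gam hΓ A.ne A.ind, vol]
  have h1 := (e.trans_ne (ENNReal.div_ne_top (ENNReal.pow_ne_top v1) (pow_ne_zero _ v0)))
  exact ⟨_, ENNReal.toReal_pos (e.trans_ne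
    (ENNReal.div_ne_zero.2 ⟨pow_ne_zero _ v0, ENNReal.pow_ne_top v1⟩)) h1, _, _, _, hP,
    psum_const h1 _⟩

include A in
theorem exists_td : Nonempty (TD X) := by
  refine ⟨⟨cov (lg A.lam), cov_pos A.ind, fun M => RelT A M, fun M => .zero, fun M => .good
    ⟨_, _, _, pre_one A hΓ M, by simpa using psum_const (a := fun _ : Unit => 1) (by simp) 1⟩,
    .add, .smul, fun h h' => ?_, fun M' f _ _ h => ?_, fun h => ?_, fun Z c hZ hc => ?_,
    (good_gam A p hΓ).elim fun c h => ⟨_, c, h.1, .good h.2⟩⟩⟩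
  · induction h with
    | good h =>
      obtain ⟨H, a, v, h1, h2⟩ := h
      induction h' with
      | good h' =>
        obtain ⟨H', a', v', h3, h4⟩ := h'
        exact .good ⟨_, _, _, h1.mul p hΓ h3, h2.mul h4 (LinearMap.mul ℝ _)⟩
      | zero => simpa only [mul_zero] using RelT.zero
      | add _ _ k k' => simpa only [mul_add] using k.add k'
      | smul q _ k => simpa only [mul_smul_comm] using k.smul q
    | zero => simpa only [zero_mul] using RelT.zero
    | add _ _ k k' => simpa only [add_mul] using k.add k'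
    | smul q _ k => simpa only [smul_mul_assoc] using k.smul q
  · induction h with
    | good h =>
      obtain ⟨H, a, v, h1, h2⟩ := h
      exact .good ⟨_, _, _, h1.pull M' f, h2.map (up (Prod.map f id)).toLinearMap⟩
    | zero => simpa only [map_zero] using RelT.zero
    | add _ _ k k' => simpa only [map_add] using k.add k'
    | smul q _ k => simpa only [map_smul] using k.smul q
  · induction h with
    | good h =>
      obtain ⟨H, a, v, h1, h2⟩ := h
      obtain ⟨h3, h4⟩ := h1.tau p hΓ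
      obtain ⟨h5, h6⟩ := h2 (int _) fun x => int_Mon (h1.mon x)
      have h7 : 0 ≤ cov (lg A.lam) := (cov_pos A.ind).le
      rwa [← h6, vol, ← ENNReal.ofReal_pow h7, ← ENNReal.ofReal_mul (pow_nonneg h7 _),
        ENNReal.ofReal_eq_ofReal_iff (Rat.cast_nonneg.2 h3)
          (mul_nonneg (pow_nonneg h7 _) h5)] at h4
    | zero => simp only [map_zero, Rat.cast_zero, mul_zero]
    | add _ _ k k' => rw [map_add, map_add, Rat.cast_add, k, k', mul_add]
    | smul q _ k => rw [map_smul, map_smul, smul_eq_mul, Rat.cast_mul, k, smul_eq_mul, mul_left_comm]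
  · obtain ⟨e, h1, h2, h3⟩ := exists_good A p hΓ hZ hc
    refine ⟨up Prod.snd e, mp_Sy _ h1, ?_, fun k => ⟨?_, fun σ => ?_⟩⟩
    · rw [up_up]
      exact (up_id e).symm ▸ .good h2
    · refine Submodule.span_mono ?_
        (Submodule.apply_mem_span_image_of_mem_span (up Prod.snd).toLinearMap (h3 k).1)
      rintro _ ⟨_, ⟨m, rfl⟩, rfl⟩
      exact ⟨_, (mp_sq _ m).symm⟩
    · rw [up, mp_mp]
      exact (h3 k).2 _

omit hΓ in
theorem main (hΓ : (Set.range fun a : K => ‖a‖).Countable) (hX : Nonempty (Unif X))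
    {f : MvPolynomial P.V K} {a : P.ι →₀ ℕ} (hf : IsForm f a) (ha : ∀ i, 0 < a i)
    (h : ∃ x ∈ X.pts, ev x f ≠ 0) (n : ℕ) (hn : 2 * n ≤ X.dim) :
    Chw.Hodge X (Chw.sec X f) n := by
  obtain ⟨A⟩ := hX
  obtain ⟨D⟩ := exists_td A p (Gam_countable hΓ)
  obtain ⟨x, hx, h0⟩ := h
  exact hodge_of_td D hf ha (fun hv => h0 (hv x hx)) n hn

end Pool.Agent.Work.MP_ffcd14_ag.Tr
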