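import Pool.Agent.Work.MP_ffcd14_ag.Chw.D0
import Pool.Agent.Work.MP_ffcd14_ag.Cyc.GDefs

/-!
# Abelian varieties which are uniformised by a torus

`X = G_m ^ g / Λ` over a complete algebraically closed non-archimedean field `K`.  The embedding
of `X` in a product of projective spaces is given by theta functions, which are Laurent series
converging on the whole torus.
-/

open MvPolynomial Filter Topology

namespace Pool.Agent.Work.MP_ffcd14_ag.Tr

open MP_10f4af_ag

universe u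

variable {K : Type u} [NontriviallyNormedField K] {P : Amb}

/-- The value at `x` of the Laurent series with the coefficients `c`. -/
noncomputable def ser {Ω : Type u} [NormedField Ω] [NormedAlgebra K Ω] {g : ℕ}
    (c : (Fin g → ℤ) → K) (x : Fin g → Ω) : Ω :=
  ∑' α, c α • ∏ i, x i ^ α i

/-- `v` are homogeneous coordinates of a point of (the closure of) `A` with values in `Ω`. -/
def On {k Ω : Type u} [Field k] [Field Ω] [Algebra k Ω] (A : Set (P.Pt k)) (v : P.V → Ω) : Prop :=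
  (∀ i, ∃ s, v ⟨i, s⟩ ≠ 0) ∧ ∀ f a, IsForm f a → (∀ x ∈ A, ev x f = 0) → aeval v f = 0

/-- `v` and `w` are homogeneous coordinates of the same point. -/
def Same {Ω : Type u} [Field Ω] (v w : P.V → Ω) : Prop :=
  ∃ μ : P.ι → Ω, (∀ i, μ i ≠ 0) ∧ ∀ s, v s = μ s.1 * w s

variable [IsAlgClosed K]

/-- A uniformisation `G_m ^ g / Λ ≃ X`: entire Laurent series `c s`, generators `lam j` of the
lattice `Λ`, and the subtraction `sub` of the group `X`.  For every complete valued field `Ω` over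
`K`, the map `x ↦ (ser (c s) x)_s` induces a group isomorphism `(Ωˣ) ^ g / Λ ≃ X(Ω)`. -/
structure Unif (X : SV K P) where
  c : P.V → (Fin X.dim → ℤ) → K
  lam : Fin X.dim → Fin X.dim → K
  sub : Hom (X.prod X).toVar X.toVar
  ent : ∀ s (ρ : Fin X.dim → ℝ), (∀ i, 0 < ρ i) →
    Tendsto (fun α => ‖c s α‖ * ∏ i, ρ i ^ α i) cofinite (𝓝 0)
  ne : ∀ j i, lam j i ≠ 0
  ind : LinearIndependent ℝ fun j i => Real.log ‖lam j i‖
  on : ∀ (Ω : Type u) [NormedField Ω] [NormedAlgebra K Ω] [CompleteSpace Ω] (x : Fin X.dim → Ω),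
    (∀ i, x i ≠ 0) → On X.pts fun s => ser (c s) x
  surj : ∀ (Ω : Type u) [NormedField Ω] [NormedAlgebra K Ω] [CompleteSpace Ω] (v : P.V → Ω),
    On X.pts v → ∃ x : Fin X.dim → Ω, (∀ i, x i ≠ 0) ∧ Same (fun s => ser (c s) x) v
  inj : ∀ (Ω : Type u) [NormedField Ω] [NormedAlgebra K Ω] [CompleteSpace Ω]
    (x y : Fin X.dim → Ω), (∀ i, x i ≠ 0) → (∀ i, y i ≠ 0) →
    (Same (fun s => ser (c s) x) (fun s => ser (c s) y) ↔
      ∃ n : Fin X.dim → ℤ, ∀ i, x i = (∏ j, lam j i ^ n j) • y i)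
  hom : ∀ (Ω : Type u) [NormedField Ω] [NormedAlgebra K Ω] [CompleteSpace Ω]
    (x y : Fin X.dim → Ω), (∀ i, x i ≠ 0) → (∀ i, y i ≠ 0) →
    On {z | ∃ h : fst z ∈ (X.prod X).pts, (sub.toFun ⟨fst z, h⟩).1 = snd z}
      (Amb.elim (Amb.elim (fun s => ser (c s) x) fun s => ser (c s) y) fun s => ser (c s) (x / y))

end Pool.Agent.Work.MP_ffcd14_ag.Tr
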